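import Pool.Graph.R_pool_sql_team_seeded_3997aac3.Q277.FA.ID
import Pool.Graph.R_pool_sql_team_seeded_3997aac3.Q65.FA.MI

/-!
# Reciprocity for the sums `S(D; x) = ∑_{d ≤ D} ψ(d x)`
-/

set_option autoImplicit false

namespace Pool.Agent.H313.FD

open MeasureTheory Filter Topology Set
open Pool.Agent.Q120.FA (ps S E Mt)

lemma ps_abs (x : ℝ) : |ps x| ≤ 1 / 2 := Pool.Agent.Q65.FA.ps_abs x

lemma ps_floor {y : ℝ} (hy : 0 ≤ y) : ps y = y - (⌊y⌋₊ : ℝ) - 1 / 2 := by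
  unfold ps
  rw [natCast_floor_eq_intCast_floor hy]
  unfold Int.fract
  ring

lemma card_lt (m : ℕ) {y : ℝ} (hy : 0 ≤ y) (hm : ⌊y⌋₊ ≤ m) (hne : ∀ a : ℕ, y ≠ a) :
    ∑ a ∈ Finset.Icc 1 m, (if (a : ℝ) < y then (1 : ℝ) else 0) = (⌊y⌋₊ : ℝ) := by
  rw [Finset.sum_boole]
  have h : (Finset.Icc 1 m).filter (fun a : ℕ => (a : ℝ) < y) = Finset.Icc 1 ⌊y⌋₊ := by
    ext a
    simp only [Finset.mem_filter, Finset.mem_Icc]
    constructor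
    · rintro ⟨⟨h1, _⟩, h3⟩
      exact ⟨h1, Nat.le_floor h3.le⟩
    · rintro ⟨h1, h2⟩
      refine ⟨⟨h1, h2.trans hm⟩, ?_⟩
      exact lt_of_le_of_ne ((Nat.le_floor_iff hy).1 h2) (hne a).symm
  rw [h, Nat.card_Icc, Nat.add_sub_cancel]

lemma lattice (x : ℝ) (h0 : 0 < x) (hirr : Irrational x) (u : ℝ) (hu : 0 ≤ u) :
    ∑ b ∈ Finset.Icc 1 ⌊u⌋₊, (⌊(b : ℝ) * x⌋₊ : ℝ) + ∑ a ∈ Finset.Icc 1 ⌊x * u⌋₊, (⌊(a : ℝ) * (1 / x)⌋₊ : ℝ) =
      (⌊u⌋₊ : ℝ) * (⌊x * u⌋₊ : ℝ) := by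
  have hne : ∀ a b : ℕ, 1 ≤ b → (b : ℝ) * x ≠ a := by
    intro a b hb h
    have hb0 : (b : ℝ) ≠ 0 := by exact_mod_cast (by omega : b ≠ 0)
    apply hirr
    refine ⟨(a : ℚ) / b, ?_⟩
    push_cast
    rw [← h]
    field_simp
  have h1 : ∀ b ∈ Finset.Icc 1 ⌊u⌋₊, (⌊(b : ℝ) * x⌋₊ : ℝ) =
      ∑ a ∈ Finset.Icc 1 ⌊x * u⌋₊, (if (a : ℝ) < b * x then (1 : ℝ) else 0) := by
    intro b hb
    rw [Finset.mem_Icc] at hb
    rw [card_lt _ (by positivity) _ (fun a => hne a b hb.1)]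
    apply Nat.floor_le_floor
    have hbu : (b : ℝ) ≤ u := (Nat.le_floor_iff hu).1 hb.2
    nlinarith
  have h2 : ∀ a ∈ Finset.Icc 1 ⌊x * u⌋₊, (⌊(a : ℝ) * (1 / x)⌋₊ : ℝ) =
      ∑ b ∈ Finset.Icc 1 ⌊u⌋₊, (if (b : ℝ) < a * (1 / x) then (1 : ℝ) else 0) := by
    intro a ha
    rw [Finset.mem_Icc] at ha
    rw [card_lt _ (by positivity)]
    · apply Nat.floor_le_floor
      have hau : (a : ℝ) ≤ x * u := (Nat.le_floor_iff (by positivity)).1 ha.2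
      rw [mul_one_div, div_le_iff₀ h0]
      linarith
    · intro b h
      rw [mul_one_div, div_eq_iff h0.ne'] at h
      rcases Nat.eq_zero_or_pos b with rfl | hb
      · have : (1 : ℝ) ≤ a := by exact_mod_cast ha.1
        simp at h
        omega
      · exact hne a b hb h.symm
  rw [Finset.sum_congr rfl h1, Finset.sum_congr rfl h2, Finset.sum_comm, ← Finset.sum_add_distrib]
  have h3 : ∀ a ∈ Finset.Icc 1 ⌊x * u⌋₊, (∑ b ∈ Finset.Icc 1 ⌊u⌋₊, (if (a : ℝ) < b * x then (1 : ℝ) else 0)) +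
      ∑ b ∈ Finset.Icc 1 ⌊u⌋₊, (if (b : ℝ) < a * (1 / x) then (1 : ℝ) else 0) = (⌊u⌋₊ : ℝ) := by
    intro a ha
    rw [← Finset.sum_add_distrib]
    have h4 : ∀ b ∈ Finset.Icc 1 ⌊u⌋₊, ((if (a : ℝ) < b * x then (1 : ℝ) else 0) +
        if (b : ℝ) < a * (1 / x) then (1 : ℝ) else 0) = 1 := by
      intro b hb
      rw [Finset.mem_Icc] at hb
      have h5 : ((b : ℝ) < a * (1 / x)) ↔ ((b : ℝ) * x < a) := by
        rw [mul_one_div, lt_div_iff₀ h0]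
      simp only [h5]
      rcases lt_trichotomy ((a : ℝ)) ((b : ℝ) * x) with h | h | h
      · rw [if_pos h, if_neg (not_lt.2 h.le)]
        norm_num
      · exact absurd h.symm (hne a b hb.1)
      · rw [if_neg (not_lt.2 h.le), if_pos h]
        norm_num
    rw [Finset.sum_congr rfl h4]
    simp
  rw [Finset.sum_congr rfl h3]
  simp [mul_comm]

lemma sum_id_Icc (n : ℕ) : ∑ b ∈ Finset.Icc 1 n, (b : ℝ) = (n : ℝ) * (n + 1) / 2 := by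
  induction n with
  | zero => simp
  | succ n ih =>
    rw [Finset.sum_Icc_succ_top (by omega), ih]
    push_cast
    ring

/-- the right side of the reciprocity law -/
noncomputable def R (x u : ℝ) : ℝ :=
  ((Int.fract (x * u) - x * Int.fract u) ^ 2 - (1 - x) * (Int.fract (x * u) - x * Int.fract u)) / (2 * x)

/-- **Reciprocity.** -/
theorem recip {x : ℝ} (h0 : 0 < x) (hirr : Irrational x) {u : ℝ} (hu : 0 ≤ u) :
    S ⌊u⌋₊ x + S ⌊x * u⌋₊ (1 / x) = R x u := by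
  have hxu : 0 ≤ x * u := by positivity
  have hl := lattice x h0 hirr u hu
  have h1 : S ⌊u⌋₊ x = x * ((⌊u⌋₊ : ℝ) * (⌊u⌋₊ + 1) / 2) -
      ∑ b ∈ Finset.Icc 1 ⌊u⌋₊, (⌊(b : ℝ) * x⌋₊ : ℝ) - (⌊u⌋₊ : ℝ) / 2 := by
    unfold S
    rw [← sum_id_Icc]
    have : ∀ b ∈ Finset.Icc 1 ⌊u⌋₊, ps ((b : ℝ) * x) = x * b - (⌊(b : ℝ) * x⌋₊ : ℝ) - 1 / 2 := by
      intro b _
      rw [ps_floor (by positivity)]
      ring
    rw [Finset.sum_congr rfl this, Finset.sum_sub_distrib, Finset.sum_sub_distrib, Finset.mul_sum]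
    simp
    ring
  have h2 : S ⌊x * u⌋₊ (1 / x) = (1 / x) * ((⌊x * u⌋₊ : ℝ) * (⌊x * u⌋₊ + 1) / 2) -
      ∑ a ∈ Finset.Icc 1 ⌊x * u⌋₊, (⌊(a : ℝ) * (1 / x)⌋₊ : ℝ) - (⌊x * u⌋₊ : ℝ) / 2 := by
    unfold S
    rw [← sum_id_Icc]
    have : ∀ b ∈ Finset.Icc 1 ⌊x * u⌋₊, ps ((b : ℝ) * (1 / x)) = (1 / x) * b - (⌊(b : ℝ) * (1 / x)⌋₊ : ℝ) - 1 / 2 := by
      intro b _
      rw [ps_floor (by positivity)]
      ring
    rw [Finset.sum_congr rfl this, Finset.sum_sub_distrib, Finset.sum_sub_distrib, Finset.mul_sum]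
    simp
    ring
  have hf1 : Int.fract u = u - (⌊u⌋₊ : ℝ) := by
    rw [natCast_floor_eq_intCast_floor hu]; rfl
  have hf2 : Int.fract (x * u) = x * u - (⌊x * u⌋₊ : ℝ) := by
    rw [natCast_floor_eq_intCast_floor hxu]; rfl
  rw [h1, h2]
  unfold R
  rw [hf1, hf2]
  have h3 : ∑ a ∈ Finset.Icc 1 ⌊x * u⌋₊, (⌊(a : ℝ) * (1 / x)⌋₊ : ℝ) =
      (⌊u⌋₊ : ℝ) * (⌊x * u⌋₊ : ℝ) - ∑ b ∈ Finset.Icc 1 ⌊u⌋₊, (⌊(b : ℝ) * x⌋₊ : ℝ) := by
    linarith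
  rw [h3]
  field_simp
  ring

lemma R_abs_le {x : ℝ} (h0 : 0 < x) (h1 : x < 1) (u : ℝ) : |R x u| ≤ 1 / x := by
  unfold R
  have ha0 := Int.fract_nonneg u
  have ha1 := (Int.fract_lt_one u).le
  have hb0 := Int.fract_nonneg (x * u)
  have hb1 := (Int.fract_lt_one (x * u)).le
  set a := Int.fract u
  set b := Int.fract (x * u)
  have hxa0 : 0 ≤ x * a := by positivity
  have hxa1 : x * a ≤ 1 := by nlinarith
  rw [abs_div, abs_of_pos (by linarith : (0:ℝ) < 2 * x), div_le_div_iff₀ (by linarith) h0]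
  have h2 : |(b - x * a) ^ 2 - (1 - x) * (b - x * a)| ≤ 2 := by
    have hd : |b - x * a| ≤ 1 := by rw [abs_le]; constructor <;> linarith
    have h3 : |(b - x * a) ^ 2| ≤ 1 := by rw [abs_pow]; exact pow_le_one₀ (abs_nonneg _) hd
    have h4 : |(1 - x) * (b - x * a)| ≤ 1 := by
      rw [abs_mul, abs_of_nonneg (by linarith : 0 ≤ 1 - x)]
      exact mul_le_one₀ (by linarith) (abs_nonneg _) hd
    calc |(b - x * a) ^ 2 - (1 - x) * (b - x * a)| ≤ |(b - x * a) ^ 2| + |(1 - x) * (b - x * a)| := abs_sub _ _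
      _ ≤ 2 := by linarith
  nlinarith

end Pool.Agent.H313.FD
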