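import Pool.Agent.H313.FD.A0

/-!
# The sums `S(N; x)` are `O(N ^ δ)` for almost all `x`
-/

set_option autoImplicit false

namespace Pool.Agent.H313.FD

open MeasureTheory Filter Topology Set
open Pool.Agent.Q120.FA (ps S E Mt)

/-- `x` is irrational and `S(N; x) = O(N ^ δ)` for all `δ > 0` -/
def Slow (x : ℝ) : Prop := Irrational x ∧ ∀ δ : ℝ, 0 < δ → ∃ C : ℝ, 0 ≤ C ∧ ∀ N : ℕ, |S N x| ≤ C * (N : ℝ) ^ δ

lemma abs_range_ps (x θ : ℝ) (N : ℕ) : |∑ r ∈ Finset.range N, ps (θ + ((r : ℝ) + 1) * x)| ≤ N / 2 := by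
  refine (Finset.abs_sum_le_sum_abs _ _).trans ?_
  refine (Finset.sum_le_sum fun r _ => ps_abs _).trans ?_
  simp
  linarith

lemma far_small {x : ℝ} (hx : Irrational x) (n0 : ℕ) :
    ∃ m0 : ℝ, 0 < m0 ∧ ∀ q : ℕ, 1 ≤ q → q ≤ n0 → ∀ a : ℤ, m0 ≤ |x - (a : ℝ) / q| := by
  set Q := n0.factorial with hQ
  have hQ0 : 0 < Q := Nat.factorial_pos _
  have hQr : (0 : ℝ) < Q := by exact_mod_cast hQ0
  have hpos : 0 < |(Q : ℝ) * x - round ((Q : ℝ) * x)| := by
    rw [abs_pos, sub_ne_zero]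
    intro h
    apply hx
    refine ⟨(round ((Q : ℝ) * x) : ℚ) / Q, ?_⟩
    push_cast
    rw [← h]
    field_simp
  refine ⟨|(Q : ℝ) * x - round ((Q : ℝ) * x)| / Q, by positivity, ?_⟩
  intro q hq1 hq2 a
  obtain ⟨k, hk⟩ : q ∣ Q := Nat.dvd_factorial (by omega) hq2
  have hqr : (0 : ℝ) < q := by exact_mod_cast hq1
  have h1 := round_le ((Q : ℝ) * x) (a * k)
  rw [div_le_iff₀ hQr]
  refine h1.trans (le_of_eq ?_)
  rw [← abs_of_pos hQr, ← abs_mul, abs_of_pos hQr]
  congr 1
  have hk' : (Q : ℝ) = q * k := by exact_mod_cast hk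
  rw [hk']
  push_cast
  field_simp

lemma dirichlet_slow {x δ : ℝ} (hx : Irrational x) (hδ : 0 < δ) (hδ1 : δ < 1)
    (hL : ¬ LiouvilleWith (1 + 1 / (1 - δ)) x) :
    ∃ N0 : ℕ, ∀ N : ℕ, N0 ≤ N → 1 ≤ N → ∃ (q : ℕ) (a : ℤ), 1 ≤ q ∧ q ≤ N ∧ IsCoprime a (q : ℤ) ∧
      |x - (a : ℝ) / q| * (q : ℝ) ^ 2 ≤ 1 ∧ (N : ℝ) ^ (1 - δ) ≤ q := by
  unfold LiouvilleWith at hL
  push Not at hL
  have h1 := hL 1
  rw [eventually_atTop] at h1
  obtain ⟨n0, hn0⟩ := h1
  obtain ⟨m0, hm0, hm⟩ := far_small hx (n0 + 1)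
  refine ⟨⌈1 / m0⌉₊ + 1, fun N hN hN1 => ?_⟩
  obtain ⟨r, hr, hrN⟩ := Real.exists_rat_abs_sub_le_and_den_le x (n := N) hN1
  have hd : (0 : ℝ) < r.den := by exact_mod_cast r.den_pos
  have hNr : (1 : ℝ) ≤ N := by exact_mod_cast hN1
  have hrr : ((r : ℚ) : ℝ) = (r.num : ℝ) / (r.den : ℝ) := by exact_mod_cast (Rat.num_div_den r).symm
  rw [hrr] at hr
  refine ⟨r.den, r.num, r.den_pos, hrN, ?_, ?_, ?_⟩
  · exact Int.isCoprime_iff_gcd_eq_one.2 (by simpa [Int.gcd, Nat.Coprime] using r.reduced)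
  · have h2 : (r.den : ℝ) ≤ N := by exact_mod_cast hrN
    calc |x - (r.num : ℝ) / (r.den : ℝ)| * (r.den : ℝ) ^ 2 ≤ 1 / (((N : ℝ) + 1) * r.den) * (r.den : ℝ) ^ 2 := by
          gcongr
      _ = (r.den : ℝ) / ((N : ℝ) + 1) := by field_simp
      _ ≤ (1 : ℝ) := by rw [div_le_one (by linarith)]; linarith
  · by_cases hq : r.den ≤ n0 + 1
    · exfalso
      have h2 := hm r.den r.den_pos hq r.num
      have h3 : m0 ≤ 1 / (((N : ℝ) + 1) * r.den) := h2.trans hr
      have h4 : 1 / (((N : ℝ) + 1) * r.den) ≤ 1 / ((N : ℝ) + 1) := by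
        apply one_div_le_one_div_of_le (by linarith)
        have : (1 : ℝ) ≤ r.den := by exact_mod_cast r.den_pos
        nlinarith
      have h5 : m0 ≤ 1 / ((N : ℝ) + 1) := h3.trans h4
      have h6 : 1 / m0 ≤ ⌈1 / m0⌉₊ := Nat.le_ceil _
      have h7 : ((⌈1 / m0⌉₊ + 1 : ℕ) : ℝ) ≤ N := by exact_mod_cast hN
      push_cast at h7
      rw [le_div_iff₀ (by linarith)] at h5
      rw [div_le_iff₀ hm0] at h6
      nlinarith
    · push Not at hq
      have h2 := hn0 r.den (by omega) r.num (fun h => hx ⟨r, by rw [hrr, h]⟩)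
      have h3 : 1 / (r.den : ℝ) ^ (1 + 1 / (1 - δ)) ≤ 1 / (((N : ℝ) + 1) * r.den) := h2.trans hr
      rw [one_div_le_one_div (by positivity) (by positivity), Real.rpow_add hd, Real.rpow_one,
        mul_comm ((N : ℝ) + 1)] at h3
      have h4 : (N : ℝ) ≤ (r.den : ℝ) ^ (1 / (1 - δ)) := by
        have := le_of_mul_le_mul_left h3 hd
        linarith
      calc (N : ℝ) ^ (1 - δ) ≤ ((r.den : ℝ) ^ (1 / (1 - δ))) ^ (1 - δ) := by
            apply Real.rpow_le_rpow (by positivity) h4 (by linarith)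
        _ = r.den := by
            rw [← Real.rpow_mul hd.le, one_div_mul_cancel (by linarith), Real.rpow_one]

lemma slow_of_not_liouville {x : ℝ} (hx : Irrational x) (hL : ∀ p > (2 : ℝ), ¬ LiouvilleWith p x) : Slow x := by
  refine ⟨hx, fun δ hδ => ?_⟩
  rcases lt_or_ge δ 1 with hδ1 | hδ1
  · obtain ⟨N0, hN0⟩ := dirichlet_slow hx hδ hδ1 (hL _ (by
      have : 1 < 1 / (1 - δ) := by rw [lt_div_iff₀ (by linarith)]; linarith
      linarith))
    have h2d : (2 : ℝ)⁻¹ ^ δ < 1 := Real.rpow_lt_one (by norm_num) (by norm_num) hδ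
    have h2d0 : 0 < (2 : ℝ)⁻¹ ^ δ := by positivity
    set A : ℝ := N0 + 4 / (1 - (2 : ℝ)⁻¹ ^ δ) with hA
    have hA1 : (N0 : ℝ) ≤ A := by
      rw [hA]
      have : 0 ≤ 4 / (1 - (2 : ℝ)⁻¹ ^ δ) := div_nonneg (by norm_num) (by linarith)
      linarith
    have hA0 : 0 ≤ A := (Nat.cast_nonneg _).trans hA1
    have hA2 : 4 ≤ A * (1 - (2 : ℝ)⁻¹ ^ δ) := by
      rw [hA, add_mul, div_mul_cancel₀ _ (by linarith)]
      have : 0 ≤ (N0 : ℝ) * (1 - (2 : ℝ)⁻¹ ^ δ) := mul_nonneg (Nat.cast_nonneg _) (by linarith)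
      linarith
    have main : ∀ N : ℕ, ∀ θ : ℝ, |∑ r ∈ Finset.range N, ps (θ + ((r : ℝ) + 1) * x)| ≤ A * (N : ℝ) ^ δ := by
      intro N
      induction N using Nat.strong_induction_on with
      | _ N ih =>
        intro θ
        rcases Nat.eq_zero_or_pos N with rfl | hNpos
        · simp
          positivity
        have hNr : (1 : ℝ) ≤ N := by exact_mod_cast hNpos
        rcases lt_or_ge N N0 with hlt | hge
        · refine (abs_range_ps x θ N).trans ?_
          have h1 : (1 : ℝ) ≤ (N : ℝ) ^ δ := Real.one_le_rpow hNr hδ.le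
          have h2 : (N : ℝ) ≤ N0 := by exact_mod_cast hlt.le
          nlinarith
        · obtain ⟨q, a, hq1, hqN, hco, hβ, hqδ⟩ := hN0 N hge hNpos
          have hqr : (0 : ℝ) < q := by exact_mod_cast hq1
          have hdm : N / q * q + N % q = N := Nat.div_add_mod' N q
          have hRq : N % q < q := Nat.mod_lt _ hq1
          have hL1 : 1 ≤ N / q := Nat.div_pos hqN hq1
          have hRN : N % q < N := by nlinarith
          have hR2 : 2 * (N % q) ≤ N := by nlinarith
          set L := N / q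
          set R := N % q
          have hNr0 : (0 : ℝ) < N := by linarith
          have hsplit : ∑ r ∈ Finset.range N, ps (θ + ((r : ℝ) + 1) * x) =
              ∑ j ∈ Finset.range L, ∑ r ∈ Finset.range q, ps (θ + (((j * q + r : ℕ) : ℝ) + 1) * x) +
              ∑ r ∈ Finset.range R, ps ((θ + (L : ℝ) * q * x) + ((r : ℝ) + 1) * x) := by
            conv_lhs => rw [← hdm]
            rw [Finset.sum_range_add, Pool.Agent.Q65.FA.sum_blocks (fun r : ℕ => ps (θ + ((r : ℝ) + 1) * x))]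
            congr 1
            refine Finset.sum_congr rfl fun r _ => ?_
            congr 1
            push_cast
            ring
          rw [hsplit]
          have hb : ∀ j ∈ Finset.range L, |∑ r ∈ Finset.range q, ps (θ + (((j * q + r : ℕ) : ℝ) + 1) * x)| ≤ 4 := by
            intro j _
            have := Pool.Agent.Q65.FA.block q hq1 a hco (θ + (j : ℝ) * q * x) (x - (a : ℝ) / q) hβ
            refine le_trans (le_of_eq ?_) this
            congr 1
            refine Finset.sum_congr rfl fun r _ => ?_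
            congr 1
            push_cast
            field_simp
            ring
          have h1 : |∑ j ∈ Finset.range L, ∑ r ∈ Finset.range q, ps (θ + (((j * q + r : ℕ) : ℝ) + 1) * x)| ≤ 4 * (N : ℝ) ^ δ := by
            refine (Finset.abs_sum_le_sum_abs _ _).trans ((Finset.sum_le_sum hb).trans ?_)
            simp only [Finset.sum_const, Finset.card_range, nsmul_eq_mul]
            have h2 : (L : ℝ) * q ≤ N := by exact_mod_cast Nat.div_mul_le_self N q
            have h3 : (N : ℝ) = (N : ℝ) ^ δ * (N : ℝ) ^ (1 - δ) := by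
              rw [← Real.rpow_add hNr0]
              norm_num
            have h4 : (L : ℝ) ≤ (N : ℝ) ^ δ := by
              have h5 : 0 < (N : ℝ) ^ (1 - δ) := by positivity
              have h6 : (L : ℝ) * (N : ℝ) ^ (1 - δ) ≤ (N : ℝ) ^ δ * (N : ℝ) ^ (1 - δ) := by
                rw [← h3]
                refine le_trans ?_ h2
                exact mul_le_mul_of_nonneg_left hqδ (Nat.cast_nonneg _)
              exact le_of_mul_le_mul_right h6 h5
            linarith
          have h2 := ih R hRN (θ + (L : ℝ) * q * x)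
          have h3 : (R : ℝ) ^ δ ≤ (2 : ℝ)⁻¹ ^ δ * (N : ℝ) ^ δ := by
            rw [← Real.mul_rpow (by norm_num) (by positivity)]
            apply Real.rpow_le_rpow (Nat.cast_nonneg _) _ hδ.le
            have : (2 : ℝ) * R ≤ N := by exact_mod_cast hR2
            linarith
          have h4 : 0 ≤ (N : ℝ) ^ δ := by positivity
          calc _ ≤ _ := abs_add_le _ _
            _ ≤ 4 * (N : ℝ) ^ δ + A * ((2 : ℝ)⁻¹ ^ δ * (N : ℝ) ^ δ) :=
                add_le_add h1 (h2.trans (mul_le_mul_of_nonneg_left h3 hA0))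
            _ ≤ A * (N : ℝ) ^ δ := by nlinarith
    refine ⟨A, hA0, fun N => ?_⟩
    rw [Pool.Agent.Q65.FA.S_eq]
    have := main N 0
    simpa using this
  · refine ⟨1, zero_le_one, fun N => ?_⟩
    rw [Pool.Agent.Q65.FA.S_eq]
    have h := abs_range_ps x 0 N
    simp only [zero_add] at h
    refine h.trans ?_
    rcases Nat.eq_zero_or_pos N with rfl | hN
    · simp
      positivity
    · have hNr : (1 : ℝ) ≤ N := by exact_mod_cast hN
      have : (N : ℝ) ^ (1 : ℝ) ≤ (N : ℝ) ^ δ := Real.rpow_le_rpow_of_exponent_le hNr hδ1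
      rw [Real.rpow_one] at this
      linarith

theorem ae_slow : ∀ᵐ x : ℝ, Slow x := by
  have h1 : ∀ᵐ x : ℝ, Irrational x := by
    have : (Set.range ((↑) : ℚ → ℝ)).Countable := Set.countable_range _
    have h2 := this.measure_zero volume
    rw [ae_iff]
    convert h2 using 2
    ext x
    simp [Irrational]
  filter_upwards [ae_not_liouvilleWith, h1] with x hx hi using slow_of_not_liouville hi hx

end Pool.Agent.H313.FD
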