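import Pool.Agent.H313.FD.A1
import Pool.Graph.R_seed8.H295R2.T4g

/-!
# The constant `b0(s) = ∫_0^∞ B(t) t^(-s-1) dt`, `B(t) = ({t}² - {t})/2`
-/

set_option autoImplicit false

namespace Pool.Agent.H313.FD

open MeasureTheory Filter Topology Set
open Pool.Agent.Q120.FA (ps S E Mt)
open Pool.Agent.H295R2 (Zs Zt Hf halfplane_open halfplane_preconnected Zs_differentiable Zs_eq_Zt Hf_eq)

noncomputable section

/-- `({t}² - {t})/2` -/
def Bf (t : ℝ) : ℝ := (Int.fract t ^ 2 - Int.fract t) / 2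

lemma Bf_cont : Continuous Bf := by
  have h : ContinuousOn (fun z : ℝ => (z ^ 2 - z) / 2) (Icc (0:ℝ) 1) := by fun_prop
  exact h.comp_fract'' (by norm_num)

lemma Bf_abs (t : ℝ) : |Bf t| ≤ 1 / 8 := by
  unfold Bf
  have h0 := Int.fract_nonneg t
  have h1 := Int.fract_lt_one t
  rw [abs_le]
  constructor <;> nlinarith [sq_nonneg (Int.fract t - 1 / 2)]

lemma Bf_small {t : ℝ} (h0 : 0 ≤ t) (h1 : t < 1) : Bf t = (t ^ 2 - t) / 2 := by
  unfold Bf
  rw [Int.fract_eq_self.2 ⟨h0, h1⟩]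

lemma Bf_deriv (t : ℝ) : HasDerivWithinAt Bf (ps t) (Ioi t) t := by
  have h1 : HasDerivWithinAt (fun u : ℝ => ((u - ⌊t⌋) ^ 2 - (u - ⌊t⌋)) / 2) (ps t) (Ioi t) t := by
    have h2 : HasDerivAt (fun u : ℝ => ((u - ⌊t⌋) ^ 2 - (u - ⌊t⌋)) / 2) ((2 * (t - ⌊t⌋) ^ 1 * 1 - 1) / 2) t := by
      have h3 : HasDerivAt (fun u : ℝ => u - ⌊t⌋) 1 t := (hasDerivAt_id t).sub_const _
      exact (((h3.pow 2).sub h3).div_const 2).congr_deriv (by norm_num)
    refine (h2.congr_deriv ?_).hasDerivWithinAt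
    unfold ps Int.fract
    ring
  refine h1.congr_of_eventuallyEq ?_ ?_
  · have : Ioo t (⌊t⌋ + 1 : ℝ) ∈ 𝓝[>] t := Ioo_mem_nhdsGT (Int.lt_floor_add_one t)
    filter_upwards [this] with u hu
    have hf : ⌊u⌋ = ⌊t⌋ := by
      rw [Int.floor_eq_iff]
      exact ⟨(Int.floor_le t).trans hu.1.le, hu.2⟩
    unfold Bf Int.fract
    rw [hf]
  · unfold Bf Int.fract
    rfl

lemma cpow_cont_Ioi (c : ℂ) : ContinuousOn (fun t : ℝ => (t : ℂ) ^ c) (Ioi 0) := by
  intro t ht
  exact (Complex.continuousAt_ofReal_cpow_const _ _ (Or.inr (ne_of_gt ht))).continuousWithinAt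

lemma int_tail {f : ℝ → ℝ} (hf : Measurable f) {M : ℝ} (hM : ∀ t, |f t| ≤ M) {c : ℂ} (hc : c.re < -1) :
    IntegrableOn (fun t : ℝ => ((f t : ℝ) : ℂ) * (t : ℂ) ^ c) (Ioi 1) := by
  refine Integrable.mono' (g := fun t : ℝ => M * t ^ c.re)
    ((integrableOn_Ioi_rpow_of_lt hc one_pos).const_mul M) ?_ ?_
  · refine AEStronglyMeasurable.mul ?_ ?_
    · exact (Complex.measurable_ofReal.comp hf).aestronglyMeasurable
    · exact ((cpow_cont_Ioi c).mono (Ioi_subset_Ioi zero_le_one)).aestronglyMeasurable measurableSet_Ioi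
  · refine (ae_restrict_mem measurableSet_Ioi).mono fun t ht => ?_
    have ht' : (1:ℝ) < t := ht
    have ht0 : 0 < t := by linarith
    rw [norm_mul, Complex.norm_real, Real.norm_eq_abs, Complex.norm_cpow_eq_rpow_re_of_pos ht0]
    exact mul_le_mul_of_nonneg_right (hM t) (by positivity)

lemma ps_meas : Measurable ps := by
  unfold ps
  exact measurable_fract.sub_const _

/-- the tail integral of `B` -/
def Bh (w : ℂ) : ℂ := ∫ t in Ioi (1:ℝ), ((Bf t : ℝ) : ℂ) * (t : ℂ) ^ (-(w + 2))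

lemma parts {w : ℂ} (hw : 0 < w.re) :
    ∫ t in Ioi (1:ℝ), ((ps t : ℝ) : ℂ) * (t : ℂ) ^ (-(w + 1)) = (w + 1) * Bh w := by
  set G : ℝ → ℂ := fun t => ((Bf t : ℝ) : ℂ) * (t : ℂ) ^ (-(w + 1)) with hG
  set g : ℝ → ℂ := fun t => ((ps t : ℝ) : ℂ) * (t : ℂ) ^ (-(w + 1)) - (w + 1) * (((Bf t : ℝ) : ℂ) * (t : ℂ) ^ (-(w + 2))) with hg
  have hi1 : IntegrableOn (fun t : ℝ => ((ps t : ℝ) : ℂ) * (t : ℂ) ^ (-(w + 1))) (Ioi 1) :=
    int_tail ps_meas ps_abs (by simp; linarith)
  have hi2 : IntegrableOn (fun t : ℝ => ((Bf t : ℝ) : ℂ) * (t : ℂ) ^ (-(w + 2))) (Ioi 1) :=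
    int_tail Bf_cont.measurable Bf_abs (by simp; linarith)
  have hgi : IntegrableOn g (Ioi 1) := hi1.sub (hi2.const_mul _)
  have hG1 : G 1 = 0 := by
    rw [hG]
    simp [Bf]
  have hderiv : ∀ t : ℝ, 0 < t → HasDerivWithinAt G (g t) (Ioi t) t := by
    intro t ht
    have h1 : HasDerivWithinAt (fun u : ℝ => ((Bf u : ℝ) : ℂ)) ((ps t : ℝ) : ℂ) (Ioi t) t :=
      (Bf_deriv t).ofReal_comp
    have h2 : HasDerivAt (fun u : ℝ => (u : ℂ) ^ (-(w + 1))) (-(w + 1) * (t : ℂ) ^ (-(w + 1) - 1)) t := by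
      have hne : -(w + 1) ≠ 0 := by
        intro h
        have := congrArg Complex.re h
        simp at this
        linarith
      have h3 := hasDerivAt_ofReal_cpow_const (x := t) ht.ne' hne
      exact h3
    have h4 := h1.mul h2.hasDerivWithinAt
    refine h4.congr_deriv ?_
    rw [hg]
    have h5 : -(w + 1) - 1 = -(w + 2) := by ring
    simp only [h5]
    ring
  have hcont : ContinuousOn G (Ioi 0) := by
    refine ContinuousOn.mul ?_ (cpow_cont_Ioi _)
    exact (Complex.continuous_ofReal.comp Bf_cont).continuousOn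
  have hT : ∀ T : ℝ, 1 ≤ T → ∫ t in (1:ℝ)..T, g t = G T := by
    intro T hT
    have h1 : Icc (1:ℝ) T ⊆ Ioi 0 := fun t ht => lt_of_lt_of_le one_pos ht.1
    rw [intervalIntegral.integral_eq_sub_of_hasDeriv_right_of_le hT (hcont.mono h1)
      (fun t ht => hderiv t (by have := ht.1; linarith)), hG1, sub_zero]
    rw [intervalIntegrable_iff_integrableOn_Ioc_of_le hT]
    exact hgi.mono_set Ioc_subset_Ioi_self
  have hlim1 : Tendsto (fun T : ℝ => ∫ t in (1:ℝ)..T, g t) atTop (𝓝 (∫ t in Ioi (1:ℝ), g t)) :=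
    intervalIntegral_tendsto_integral_Ioi 1 hgi tendsto_id
  have hlim2 : Tendsto G atTop (𝓝 0) := by
    rw [tendsto_zero_iff_norm_tendsto_zero]
    have h1 : Tendsto (fun T : ℝ => 1 / 8 * T ^ (-(w.re + 1))) atTop (𝓝 0) := by
      have := (tendsto_rpow_neg_atTop (show 0 < w.re + 1 by linarith)).const_mul (1 / 8 : ℝ)
      simpa using this
    refine squeeze_zero' (Eventually.of_forall fun _ => norm_nonneg _) ?_ h1
    filter_upwards [eventually_gt_atTop 0] with T hT
    rw [hG]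
    simp only
    rw [norm_mul, Complex.norm_real, Real.norm_eq_abs, Complex.norm_cpow_eq_rpow_re_of_pos hT]
    have : (-(w + 1)).re = -(w.re + 1) := by simp
    rw [this]
    exact mul_le_mul_of_nonneg_right (Bf_abs T) (by positivity)
  have hzero : ∫ t in Ioi (1:ℝ), g t = 0 := by
    refine tendsto_nhds_unique hlim1 (hlim2.congr' ?_)
    filter_upwards [eventually_ge_atTop 1] with T hT'
    exact (hT T hT').symm
  rw [hg, integral_sub hi1 (hi2.const_mul _), integral_const_mul] at hzero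
  rw [Bh]
  linear_combination hzero

lemma Bh_differentiableAt {w : ℂ} (hw : -1 < w.re) : DifferentiableAt ℂ Bh w := by
  set f : ℝ → ℂ := (Ioi (1:ℝ)).indicator (fun t => ((Bf t : ℝ) : ℂ)) with hf
  have hfm : Measurable f := (Complex.measurable_ofReal.comp Bf_cont.measurable).indicator measurableSet_Ioi
  have hfb : ∀ t, ‖f t‖ ≤ 1 := by
    intro t
    rw [hf, indicator]
    split_ifs
    · rw [Complex.norm_real, Real.norm_eq_abs]
      linarith [Bf_abs t]
    · simp
  have h1 : DifferentiableAt ℂ (mellin f) (-(w + 1)) := by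
    refine mellin_differentiableAt_of_isBigO_rpow (a := 0) (b := -w.re - 2) ?_ ?_ ?_ ?_ ?_
    · refine LocallyIntegrable.locallyIntegrableOn ?_ _
      refine LocallyIntegrable.mono (locallyIntegrable_const (1:ℝ)) hfm.aestronglyMeasurable ?_
      exact Eventually.of_forall fun t => by rw [norm_one]; exact hfb t
    · refine Asymptotics.IsBigO.of_bound 1 (Eventually.of_forall fun t => ?_)
      simpa using hfb t
    · simp; linarith
    · refine Asymptotics.IsBigO.of_bound 1 ?_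
      have : Iio (1:ℝ) ∈ 𝓝[>] (0:ℝ) := mem_nhdsWithin_of_mem_nhds (Iio_mem_nhds one_pos)
      filter_upwards [this] with t ht
      have : f t = 0 := by
        rw [hf, indicator_of_notMem]
        simpa using (le_of_lt ht)
      rw [this]
      simp
    · simp; linarith
  have h2 : Bh = fun w => mellin f (-(w + 1)) := by
    funext w
    unfold Bh mellin
    have hsub : Ioi (1:ℝ) ⊆ Ioi 0 := Ioi_subset_Ioi zero_le_one
    have h3 : ∀ t : ℝ, (t : ℂ) ^ (-(w + 1) - 1) • f t =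
        (Ioi (1:ℝ)).indicator (fun t => ((Bf t : ℝ) : ℂ) * (t : ℂ) ^ (-(w + 2))) t := by
      intro t
      rw [hf]
      have e : -(w + 1) - 1 = -(w + 2) := by ring
      rw [e]
      by_cases ht : t ∈ Ioi (1:ℝ)
      · rw [indicator_of_mem ht, indicator_of_mem ht, smul_eq_mul, mul_comm]
      · rw [indicator_of_notMem ht, indicator_of_notMem ht, smul_zero]
    simp_rw [h3]
    rw [setIntegral_indicator measurableSet_Ioi, inter_eq_self_of_subset_right hsub]
  rw [h2]
  have h4 : DifferentiableAt ℂ (fun w : ℂ => -(w + 1)) w := by fun_prop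
  exact DifferentiableAt.comp (g := mellin f) w h1 h4

/-- `(w - 1) ζ(w)` for `Re w > -1` -/
lemma Zs_eq_Bh {w : ℂ} (hw : -1 < w.re) : Zs w = (w + 1) / 2 - w * (w - 1) * (w + 1) * Bh w := by
  have h1 : AnalyticOnNhd ℂ Zs {s | -1 < s.re} := fun z _ => Zs_differentiable.analyticAt z
  have h2 : AnalyticOnNhd ℂ (fun w => (w + 1) / 2 - w * (w - 1) * (w + 1) * Bh w) {s | -1 < s.re} := by
    refine DifferentiableOn.analyticOnNhd (fun z hz => ?_) (halfplane_open (-1))
    have := Bh_differentiableAt hz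
    refine DifferentiableAt.differentiableWithinAt ?_
    fun_prop
  have h3 := h1.eqOn_of_preconnected_of_eventuallyEq h2 (halfplane_preconnected (-1)) (z₀ := 2) (by simp; norm_num) (by
    have : {s : ℂ | 0 < s.re} ∈ 𝓝 (2 : ℂ) := (halfplane_open 0).mem_nhds (by simp)
    filter_upwards [this] with z hz
    have hz' : 0 < z.re := hz
    have hz0 : z ≠ 0 := by
      rintro rfl
      simp at hz'
    rw [Zs_eq_Zt hz']
    unfold Zt
    have h4 : Hf z = (z + 1) * Bh z + 1 / (2 * z) := by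
      rw [Hf_eq, ← parts hz']
      have hi1 : IntegrableOn (fun t : ℝ => ((ps t : ℝ) : ℂ) * (t : ℂ) ^ (-(z + 1))) (Ioi 1) :=
        int_tail ps_meas ps_abs (by simp; linarith)
      have hi2 : IntegrableOn (fun t : ℝ => (1 / 2 : ℂ) * (t : ℂ) ^ (-(z + 1))) (Ioi 1) :=
        (integrableOn_Ioi_cpow_of_lt (by simpa using hz') one_pos).const_mul _
      have h5 : ∫ t in Ioi (1:ℝ), (1 / 2 : ℂ) * (t : ℂ) ^ (-(z + 1)) = 1 / (2 * z) := by
        rw [integral_const_mul, integral_Ioi_cpow_of_lt (by simpa using hz') one_pos]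
        rw [Complex.ofReal_one, Complex.one_cpow]
        have : -(z + 1) + 1 = -z := by ring
        rw [this]
        field_simp
      rw [← h5, ← integral_add hi1 hi2]
      refine setIntegral_congr_fun measurableSet_Ioi fun t _ => ?_
      simp only [ps]
      push_cast
      ring
    rw [h4]
    field_simp
    ring)
  exact h3 hw

/-- `∫_0^∞ B(t) t^(-s-1) dt` -/
def b0 (s : ℂ) : ℂ := mellin (fun t => ((Bf t : ℝ) : ℂ)) (-s)

lemma Bf_mellin {s : ℂ} (h0 : 0 < s.re) (h1 : s.re < 1) : MellinConvergent (fun t => ((Bf t : ℝ) : ℂ)) (-s) := by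
  refine mellinConvergent_of_isBigO_rpow (a := 0) (b := -1) ?_ ?_ ?_ ?_ ?_
  · refine LocallyIntegrable.locallyIntegrableOn ?_ _
    exact (Complex.continuous_ofReal.comp Bf_cont).locallyIntegrable
  · refine Asymptotics.IsBigO.of_bound 1 (Eventually.of_forall fun t => ?_)
    rw [Complex.norm_real, Real.norm_eq_abs]
    simp
    linarith [Bf_abs t]
  · simpa using h0
  · refine Asymptotics.IsBigO.of_bound 1 ?_
    have : Ioo (0:ℝ) 1 ∈ 𝓝[>] (0:ℝ) := Ioo_mem_nhdsGT one_pos
    filter_upwards [this] with t ht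
    rw [Complex.norm_real, Real.norm_eq_abs, Bf_small ht.1.le ht.2]
    have h2 := ht.1
    have h3 := ht.2
    simp only [neg_neg, Real.rpow_one, one_mul, Real.norm_eq_abs]
    rw [abs_of_pos h2, abs_le]
    constructor <;> nlinarith
  · simp; linarith

lemma b0_eq {s : ℂ} (h0 : 0 < s.re) (h1 : s.re < 1) :
    Zs (s - 1) = -(s * (1 - s) * (2 - s) * b0 s) := by
  have hs1 : 1 - s ≠ 0 := by
    intro h
    have := congrArg Complex.re h
    simp at this
    linarith
  have hs2 : 2 - s ≠ 0 := by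
    intro h
    have := congrArg Complex.re h
    simp at this
    linarith
  have hM := Bf_mellin h0 h1
  have hsplit : b0 s = (∫ t in Ioc (0:ℝ) 1, (t : ℂ) ^ (-s - 1) • ((Bf t : ℝ) : ℂ)) + Bh (s - 1) := by
    unfold b0 mellin Bh
    rw [← Ioc_union_Ioi_eq_Ioi (zero_le_one' ℝ), setIntegral_union (Ioc_disjoint_Ioi le_rfl) measurableSet_Ioi
      (hM.mono_set Ioc_subset_Ioi_self) (hM.mono_set (Ioi_subset_Ioi zero_le_one))]
    congr 1
    refine setIntegral_congr_fun measurableSet_Ioi fun t _ => ?_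
    simp only [smul_eq_mul]
    have : -s - 1 = -(s - 1 + 2) := by ring
    rw [this]
    ring
  have hfirst : ∫ t in Ioc (0:ℝ) 1, (t : ℂ) ^ (-s - 1) • ((Bf t : ℝ) : ℂ) = -(1 / (2 * (1 - s) * (2 - s))) := by
    rw [← intervalIntegral.integral_of_le zero_le_one]
    have hc : ∫ t in (0:ℝ)..1, (t : ℂ) ^ (-s - 1) • ((Bf t : ℝ) : ℂ) =
        ∫ t in (0:ℝ)..1, ((1 / 2 : ℂ) * (t : ℂ) ^ (1 - s) - (1 / 2 : ℂ) * (t : ℂ) ^ (-s)) := by
      apply intervalIntegral.integral_congr_Ioo_of_le zero_le_one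
      intro t ht
      have htc : (t : ℂ) ≠ 0 := by exact_mod_cast ht.1.ne'
      simp only [smul_eq_mul]
      rw [Bf_small ht.1.le ht.2]
      have e1 : (1 - s : ℂ) = (-s - 1) + 2 := by ring
      have e2 : (-s : ℂ) = (-s - 1) + 1 := by ring
      rw [e1, Complex.cpow_add _ _ htc]
      conv_rhs => rw [e2, Complex.cpow_add _ _ htc, Complex.cpow_one]
      have e3 : (t : ℂ) ^ (2 : ℂ) = (t : ℂ) ^ 2 := by norm_cast
      rw [e3]
      push_cast
      ring_nf
    have i1 : IntervalIntegrable (fun t : ℝ => (1 / 2 : ℂ) * (t : ℂ) ^ (1 - s)) volume 0 1 :=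
      (intervalIntegral.intervalIntegrable_cpow' (by simp; linarith)).const_mul _
    have i2 : IntervalIntegrable (fun t : ℝ => (1 / 2 : ℂ) * (t : ℂ) ^ (-s)) volume 0 1 :=
      (intervalIntegral.intervalIntegrable_cpow' (by simp; linarith)).const_mul _
    rw [hc, intervalIntegral.integral_sub i1 i2, intervalIntegral.integral_const_mul,
      intervalIntegral.integral_const_mul, integral_cpow (Or.inl (by simp; linarith)),
      integral_cpow (Or.inl (by simp; linarith))]
    have e1 : (1 - s + 1 : ℂ) = 2 - s := by ring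
    have e2 : (-s + 1 : ℂ) = 1 - s := by ring
    rw [e1, e2]
    simp only [Complex.ofReal_one, Complex.one_cpow, Complex.ofReal_zero, Complex.zero_cpow hs1, Complex.zero_cpow hs2, sub_zero]
    field_simp
    ring
  have hB : Bh (s - 1) = b0 s + 1 / (2 * (1 - s) * (2 - s)) := by
    rw [hsplit, hfirst]
    ring
  rw [Zs_eq_Bh (by simp; linarith), hB]
  field_simp
  ring

lemma b0_ne_zero {s : ℂ} (h0 : 0 < s.re) (h1 : s.re < 1) : b0 s ≠ 0 := by
  intro h
  have h2 := b0_eq h0 h1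
  rw [h, mul_zero, neg_zero] at h2
  exact Pool.Agent.H295R2.Zs_sub_one_ne h0 h1 h2

end

end Pool.Agent.H313.FD
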