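import Pool.Agent.H313.FD.A2

/-!
# The functional equation of `F(s, x) = s ∫_0^∞ S(⌊t⌋; x) t^(-s-1) dt` under `x ↦ 1/x`
-/

set_option autoImplicit false

namespace Pool.Agent.H313.FD

open MeasureTheory Filter Topology Set
open Pool.Agent.Q120.FA (ps S E Mt)

noncomputable section

lemma S_zero (x : ℝ) : S 0 x = 0 := by
  unfold S
  simp

lemma S_add_int (N : ℕ) (x : ℝ) (k : ℤ) : S N (x + k) = S N x := by
  unfold S
  refine Finset.sum_congr rfl fun d _ => ?_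
  have : (d : ℝ) * (x + k) = d * x + ((d * k : ℤ) : ℝ) := by push_cast; ring
  rw [this, Pool.Agent.Q65.FA.ps_add_int]

lemma S_fract (N : ℕ) (x : ℝ) : S N (Int.fract x) = S N x := by
  have h := S_add_int N (Int.fract x) ⌊x⌋
  rw [Int.fract_add_floor] at h
  exact h.symm

lemma meas_floor (g : ℕ → ℝ) : Measurable (fun t : ℝ => g ⌊t⌋₊) :=
  (measurable_from_nat (f := g)).comp Nat.measurable_floor

lemma smul_meas {g : ℝ → ℝ} (hg : Measurable g) (c : ℂ) :
    AEStronglyMeasurable (fun t : ℝ => (t : ℂ) ^ c • ((g t : ℝ) : ℂ)) (volume.restrict (Ioi 0)) :=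
  ((cpow_cont_Ioi c).aestronglyMeasurable measurableSet_Ioi).smul
    (Complex.measurable_ofReal.comp hg).aestronglyMeasurable

lemma mellin_conv {f : ℝ → ℝ} (hm : Measurable f) {C δ : ℝ} (h0 : ∀ t, t < 1 → f t = 0)
    (hC : ∀ t, 1 ≤ t → |f t| ≤ C * t ^ δ) {s : ℂ} (hs : δ < s.re) :
    MellinConvergent (fun t => ((f t : ℝ) : ℂ)) (-s) := by
  unfold MellinConvergent
  have hg : IntegrableOn (fun t : ℝ => (Ioi (1/2:ℝ)).indicator (fun t => |C| * t ^ (δ - s.re - 1)) t) (Ioi 0) := by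
    rw [integrableOn_indicator_iff measurableSet_Ioi]
    refine IntegrableOn.mono_set (t := Ioi (1/2 : ℝ)) ?_ (fun t ht => ht.1)
    exact (integrableOn_Ioi_rpow_of_lt (by linarith) (by norm_num)).const_mul _
  refine Integrable.mono' hg ?_ ?_
  · exact smul_meas hm _
  · refine (ae_restrict_mem measurableSet_Ioi).mono fun t ht => ?_
    have ht0 : (0:ℝ) < t := ht
    show ‖(t : ℂ) ^ (-s - 1) • ((f t : ℝ) : ℂ)‖ ≤ _
    rcases lt_or_ge t 1 with h | h
    · rw [h0 t h]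
      simp only [Complex.ofReal_zero, smul_zero, norm_zero]
      apply indicator_nonneg
      intro u hu
      have : (0:ℝ) < u := lt_trans (by norm_num) hu
      positivity
    · rw [indicator_of_mem (show t ∈ Ioi (1/2:ℝ) by show 1/2 < t; linarith), norm_smul, Complex.norm_real,
        Real.norm_eq_abs, Complex.norm_cpow_eq_rpow_re_of_pos ht0]
      have e : (-s - 1).re = -s.re - 1 := by simp
      rw [e]
      have e2 : t ^ (δ - s.re - 1) = t ^ (-s.re - 1) * t ^ δ := by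
        rw [← Real.rpow_add ht0]; congr 1; ring
      rw [e2]
      have h3 := hC t h
      have h4 : |f t| ≤ |C| * t ^ δ := h3.trans (mul_le_mul_of_nonneg_right (le_abs_self C) (by positivity))
      calc t ^ (-s.re - 1) * |f t| ≤ t ^ (-s.re - 1) * (|C| * t ^ δ) := mul_le_mul_of_nonneg_left h4 (by positivity)
        _ = _ := by ring

/-- `F(s,x)` -/
def F (s : ℂ) (x : ℝ) : ℂ := s * mellin (fun t : ℝ => ((S ⌊t⌋₊ x : ℝ) : ℂ)) (-s)

lemma floor_rpow_le {δ : ℝ} (hδ : 0 ≤ δ) {t : ℝ} (ht : 0 ≤ t) : ((⌊t⌋₊ : ℕ) : ℝ) ^ δ ≤ t ^ δ :=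
  Real.rpow_le_rpow (Nat.cast_nonneg _) (Nat.floor_le ht) hδ

lemma slow_mellin {x : ℝ} (hx : Slow x) {s : ℂ} (hs : 0 < s.re) :
    MellinConvergent (fun t : ℝ => ((S ⌊t⌋₊ x : ℝ) : ℂ)) (-s) := by
  obtain ⟨C, hC0, hC⟩ := hx.2 (s.re / 2) (by linarith)
  refine mellin_conv (meas_floor (fun n => S n x)) (C := C) (δ := s.re / 2) ?_ ?_ (by linarith)
  · intro t ht
    have : ⌊t⌋₊ = 0 := Nat.floor_eq_zero.2 ht
    rw [this, S_zero]
  · intro t ht
    refine (hC _).trans (mul_le_mul_of_nonneg_left ?_ hC0)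
    exact floor_rpow_le (by linarith) (by linarith)

lemma F_fract (s : ℂ) (x : ℝ) : F s (Int.fract x) = F s x := by
  unfold F
  simp_rw [S_fract]

/-- `1/4 - ψ(u) ψ(x u)` -/
def kk (x u : ℝ) : ℝ := 1 / 4 - ps u * ps (x * u)

lemma R_eq {x : ℝ} (h0 : 0 < x) (u : ℝ) : R x u = x⁻¹ * Bf (x * u) + x * Bf u + kk x u := by
  unfold R Bf kk ps
  field_simp
  ring

lemma kk_abs (x u : ℝ) : |kk x u| ≤ 1 / 2 := by
  unfold kk
  have h1 := ps_abs u
  have h2 := ps_abs (x * u)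
  have h3 : |ps u * ps (x * u)| ≤ 1 / 4 := by
    rw [abs_mul]
    calc |ps u| * |ps (x * u)| ≤ 1 / 2 * (1 / 2) := mul_le_mul h1 h2 (abs_nonneg _) (by norm_num)
      _ = 1 / 4 := by norm_num
  rw [abs_le] at h3 ⊢
  constructor <;> linarith

lemma kk_small {x : ℝ} (h0 : 0 < x) (h1 : x < 1) {u : ℝ} (hu : 0 < u) (hu1 : u < 1) : |kk x u| ≤ u := by
  unfold kk ps
  have hxu : x * u < 1 := by nlinarith
  rw [Int.fract_eq_self.2 ⟨hu.le, hu1⟩, Int.fract_eq_self.2 ⟨by positivity, hxu⟩, abs_le]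
  have h3 : 0 < x * u := by positivity
  have h4 : x * u < u := by nlinarith
  constructor
  · nlinarith [mul_pos h3 hu]
  · nlinarith [mul_pos h3 hu]

lemma kk_meas (x : ℝ) : Measurable (kk x) := by
  unfold kk
  exact measurable_const.sub (ps_meas.mul (ps_meas.comp (measurable_const.mul measurable_id)))

lemma pow_integrable {β U : ℝ} (hβ1 : β < 1) (hU : 0 ≤ U) : IntegrableOn (fun u : ℝ => u ^ (-β)) (Ioc 0 U) := by
  rw [← intervalIntegrable_iff_integrableOn_Ioc_of_le hU]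
  exact intervalIntegral.intervalIntegrable_rpow' (by linarith)

lemma pow_integral {β U : ℝ} (hβ1 : β < 1) (hU : 0 ≤ U) : ∫ u in Ioc 0 U, u ^ (-β) = U ^ (1 - β) / (1 - β) := by
  rw [← intervalIntegral.integral_of_le hU, integral_rpow (Or.inl (by linarith))]
  have h1 : -β + 1 = 1 - β := by ring
  rw [h1, Real.zero_rpow (by linarith), sub_zero]

/-- the majorant of the integrand -/
def maj (β U a b : ℝ) (u : ℝ) : ℝ := if u ≤ U then a * u ^ (-β) else b * u ^ (-β - 1)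

lemma maj_integrable {β U : ℝ} (hβ : 0 < β) (hβ1 : β < 1) (hU : 0 < U) (a b : ℝ) :
    IntegrableOn (maj β U a b) (Ioi 0) ∧
      ∫ u in Ioi 0, maj β U a b u = a * (U ^ (1 - β) / (1 - β)) + b * (U ^ (-β) / β) := by
  have h1 : IntegrableOn (maj β U a b) (Ioc 0 U) := by
    refine IntegrableOn.congr_fun (f := fun u => a * u ^ (-β)) ((pow_integrable hβ1 hU.le).const_mul a) (fun u hu => ?_) measurableSet_Ioc
    unfold maj
    rw [if_pos hu.2]
  have h2 : IntegrableOn (maj β U a b) (Ioi U) := by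
    refine IntegrableOn.congr_fun (f := fun u => b * u ^ (-β - 1))
      ((integrableOn_Ioi_rpow_of_lt (a := -β - 1) (by linarith) hU).const_mul b) (fun u hu => ?_) measurableSet_Ioi
    unfold maj
    rw [if_neg (not_le.2 hu)]
  have hu : Ioi (0:ℝ) = Ioc 0 U ∪ Ioi U := (Ioc_union_Ioi_eq_Ioi hU.le).symm
  refine ⟨by rw [hu]; exact h1.union h2, ?_⟩
  rw [hu, setIntegral_union (Ioc_disjoint_Ioi le_rfl) measurableSet_Ioi h1 h2]
  congr 1
  · rw [← pow_integral hβ1 hU.le, ← integral_const_mul]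
    refine setIntegral_congr_fun measurableSet_Ioc fun u hu => ?_
    simp only [maj]
    rw [if_pos hu.2]
  · have : ∫ u in Ioi U, u ^ (-β - 1) = U ^ (-β) / β := by
      rw [integral_Ioi_rpow_of_lt (by linarith) hU]
      have : -β - 1 + 1 = -β := by ring
      rw [this, neg_div_neg_eq]
    rw [← this, ← integral_const_mul]
    refine setIntegral_congr_fun measurableSet_Ioi fun u hu => ?_
    simp only [maj]
    rw [if_neg (not_le.2 hu)]

lemma kk_maj {x : ℝ} (h0 : 0 < x) (h1 : x < 1) {s : ℂ} {u : ℝ} (hu : 0 < u) :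
    ‖(u : ℂ) ^ (-s - 1) • ((kk x u : ℝ) : ℂ)‖ ≤ maj s.re 1 1 1 u := by
  rw [norm_smul, Complex.norm_real, Real.norm_eq_abs, Complex.norm_cpow_eq_rpow_re_of_pos hu]
  have e : (-s - 1).re = -s.re - 1 := by simp
  rw [e]
  have hp : 0 < u ^ (-s.re - 1) := by positivity
  unfold maj
  split_ifs with h
  · rcases lt_or_eq_of_le h with h' | h'
    · have h2 := kk_small h0 h1 hu h'
      have e2 : u ^ (-s.re) = u ^ (-s.re - 1) * u := by
        conv_rhs => rw [← Real.rpow_one u, ← Real.rpow_mul hu.le, one_mul, ← Real.rpow_add hu]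
        congr 1; ring
      rw [e2, one_mul]
      exact mul_le_mul_of_nonneg_left h2 hp.le
    · rw [h']
      have := kk_abs x 1
      simp
      linarith
  · have := kk_abs x u
    rw [one_mul]
    calc u ^ (-s.re - 1) * |kk x u| ≤ u ^ (-s.re - 1) * 1 := mul_le_mul_of_nonneg_left (by linarith) hp.le
      _ = _ := mul_one _

lemma kk_mellin {x : ℝ} (h0 : 0 < x) (h1 : x < 1) {s : ℂ} (hs0 : 0 < s.re) (hs1 : s.re < 1) :
    MellinConvergent (fun u : ℝ => ((kk x u : ℝ) : ℂ)) (-s) := by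
  unfold MellinConvergent
  refine Integrable.mono' (maj_integrable hs0 hs1 one_pos 1 1).1 ?_ ?_
  · exact smul_meas (kk_meas x) _
  · exact (ae_restrict_mem measurableSet_Ioi).mono fun u hu => kk_maj h0 h1 hu

/-- the bounded part of the function `h` -/
def kM (s : ℂ) (x : ℝ) : ℂ := mellin (fun u : ℝ => ((kk x u : ℝ) : ℂ)) (-s)

lemma kM_bound {s : ℂ} (hs0 : 0 < s.re) (hs1 : s.re < 1) {x : ℝ} (h0 : 0 < x) (h1 : x < 1) :
    ‖kM s x‖ ≤ 1 / (1 - s.re) + 1 / s.re := by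
  unfold kM mellin
  refine (norm_integral_le_of_norm_le (maj_integrable hs0 hs1 one_pos 1 1).1
    ((ae_restrict_mem measurableSet_Ioi).mono fun u hu => kk_maj h0 h1 hu)).trans (le_of_eq ?_)
  rw [(maj_integrable hs0 hs1 one_pos 1 1).2]
  simp

/-- `h(s,x)` -/
def hh (s : ℂ) (x : ℝ) : ℂ := s * (b0 s * ((x : ℂ) ^ (s - 1) + x) + kM s x)

/-- **The functional equation.** -/
theorem F_recip {s : ℂ} (hs0 : 0 < s.re) (hs1 : s.re < 1) {x : ℝ} (h0 : 0 < x) (h1 : x < 1) (hx : Slow x)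
    (hx' : Slow (1 / x)) : F s x = hh s x - (x : ℂ) ^ s * F s (1 / x) := by
  have hxc : (x : ℂ) ≠ 0 := by exact_mod_cast h0.ne'
  have hm1 := slow_mellin hx hs0
  have hm2 := slow_mellin hx' hs0
  have hm2' := (MellinConvergent.comp_mul_left (f := fun t : ℝ => ((S ⌊t⌋₊ (1 / x) : ℝ) : ℂ)) (s := -s) h0).2 hm2
  have e2 := mellin_comp_mul_left (fun t : ℝ => ((S ⌊t⌋₊ (1 / x) : ℝ) : ℂ)) (-s) h0
  have hadd := (hasMellin_add hm1 hm2').2
  have hB := Bf_mellin hs0 hs1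
  have hB' := (MellinConvergent.comp_mul_left (f := fun t : ℝ => ((Bf t : ℝ) : ℂ)) (s := -s) h0).2 hB
  have eB := mellin_comp_mul_left (fun t : ℝ => ((Bf t : ℝ) : ℂ)) (-s) h0
  have hk := kk_mellin h0 h1 hs0 hs1
  have i1 := hB'.const_smul ((x : ℂ)⁻¹)
  have i2 := hB.const_smul (x : ℂ)
  have j1 := hasMellin_add i1 i2
  have j2 := (hasMellin_add j1.1 hk).2
  have k1 : mellin (fun t : ℝ => (x : ℂ)⁻¹ • (fun t : ℝ => ((Bf t : ℝ) : ℂ)) (x * t)) (-s) = (x : ℂ)⁻¹ • ((x : ℂ) ^ s * b0 s) := by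
    rw [mellin_const_smul]
    rw [eB, neg_neg]
    rfl
  have k2 : mellin (fun t : ℝ => (x : ℂ) • ((Bf t : ℝ) : ℂ)) (-s) = (x : ℂ) • b0 s := by
    rw [mellin_const_smul]
    rfl
  rw [j1.2, k1, k2] at j2
  have hcongr : mellin (fun t : ℝ => ((S ⌊t⌋₊ x : ℝ) : ℂ) + (fun t : ℝ => ((S ⌊t⌋₊ (1 / x) : ℝ) : ℂ)) (x * t)) (-s) =
      mellin (fun t : ℝ => (x : ℂ)⁻¹ • (fun t : ℝ => ((Bf t : ℝ) : ℂ)) (x * t) + (x : ℂ) • ((Bf t : ℝ) : ℂ) + ((kk x t : ℝ) : ℂ)) (-s) := by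
    unfold mellin
    refine setIntegral_congr_fun measurableSet_Ioi fun t ht => ?_
    simp only
    congr 1
    have h2 := recip h0 hx.1 (le_of_lt ht)
    rw [R_eq h0] at h2
    have h3 : ((S ⌊t⌋₊ x + S ⌊x * t⌋₊ (1 / x) : ℝ) : ℂ) = ((x⁻¹ * Bf (x * t) + x * Bf t + kk x t : ℝ) : ℂ) := by rw [h2]
    push_cast at h3
    simp only [smul_eq_mul]
    push_cast
    exact h3
  rw [hcongr, j2] at hadd
  rw [e2, neg_neg] at hadd
  unfold F hh kM
  have h4 : (x : ℂ) ^ (s - 1) = (x : ℂ)⁻¹ * (x : ℂ) ^ s := by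
    rw [Complex.cpow_sub _ _ hxc, Complex.cpow_one]
    field_simp
  rw [h4]
  simp only [smul_eq_mul] at hadd
  linear_combination -s * hadd

end

end Pool.Agent.H313.FD
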