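import Pool.Agent.H313.FD.A3

/-!
# Hölder continuity of the bounded part of `h`
-/

set_option autoImplicit false

namespace Pool.Agent.H313.FD

open MeasureTheory Filter Topology Set
open Pool.Agent.Q120.FA (ps S E Mt)

noncomputable section

/-- `⌊v⌋ v^(-β-1)` -/
def fj (β v : ℝ) : ℝ := (⌊v⌋₊ : ℝ) * v ^ (-β - 1)

lemma fj_nonneg {β v : ℝ} (hv : 0 ≤ v) : 0 ≤ fj β v := by
  unfold fj; positivity

lemma fj_le {β v : ℝ} (hv : 0 < v) : fj β v ≤ v ^ (-β) := by
  unfold fj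
  have e2 : v ^ (-β) = v * v ^ (-β - 1) := by
    conv_rhs => rw [← Real.rpow_one v, ← Real.rpow_mul hv.le, one_mul, ← Real.rpow_add hv]
    congr 1; ring
  rw [e2]
  exact mul_le_mul_of_nonneg_right (Nat.floor_le hv.le) (by positivity)

lemma fj_meas (β : ℝ) : Measurable (fj β) := by
  unfold fj
  exact (meas_floor (fun n => (n : ℝ))).mul (measurable_id.pow_const _)

lemma fj_int {β : ℝ} (hβ1 : β < 1) {a b : ℝ} (ha : 0 ≤ a) (hb : 0 ≤ b) : IntervalIntegrable (fj β) volume a b := by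
  have h : ∀ c : ℝ, 0 ≤ c → IntervalIntegrable (fj β) volume 0 c := by
    intro c hc
    rw [intervalIntegrable_iff_integrableOn_Ioc_of_le hc]
    refine Integrable.mono' (pow_integrable hβ1 hc) (fj_meas β).aestronglyMeasurable ?_
    refine (ae_restrict_mem measurableSet_Ioc).mono fun v hv => ?_
    rw [Real.norm_of_nonneg (fj_nonneg hv.1.le)]
    exact fj_le hv.1
  exact (h a ha).symm.trans (h b hb)

/-- `∫_0^y ⌊v⌋ v^(-β-1) dv` -/
def Jj (β y : ℝ) : ℝ := ∫ v in (0:ℝ)..y, fj β v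

lemma Jj_nonneg {β y : ℝ} (hy : 0 ≤ y) : 0 ≤ Jj β y :=
  intervalIntegral.integral_nonneg hy fun _ hv => fj_nonneg hv.1

lemma Jj_le {β y : ℝ} (hβ1 : β < 1) (hy : 0 ≤ y) : Jj β y ≤ y ^ (1 - β) / (1 - β) := by
  rw [← pow_integral hβ1 hy, ← intervalIntegral.integral_of_le hy]
  refine intervalIntegral.integral_mono_on_of_le_Ioo hy (fj_int hβ1 le_rfl hy)
    (by rw [intervalIntegrable_iff_integrableOn_Ioc_of_le hy]; exact pow_integrable hβ1 hy) ?_
  intro v hv
  exact fj_le hv.1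

lemma Jj_sub {β y1 y2 : ℝ} (hβ0 : 0 < β) (hβ1 : β < 1) (h1 : 0 < y1) (h2 : y1 ≤ y2) :
    Jj β y2 - Jj β y1 ≤ (y2 - y1) * y1 ^ (-β) := by
  unfold Jj
  rw [intervalIntegral.integral_interval_sub_left (fj_int hβ1 le_rfl (by linarith)) (fj_int hβ1 le_rfl h1.le)]
  have : ∫ v in y1..y2, fj β v ≤ ∫ _ in y1..y2, y1 ^ (-β) := by
    refine intervalIntegral.integral_mono_on h2 (fj_int hβ1 h1.le (by linarith)) intervalIntegrable_const ?_
    intro v hv
    have hv0 : 0 < v := lt_of_lt_of_le h1 hv.1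
    refine (fj_le hv0).trans ?_
    rw [Real.rpow_neg hv0.le, Real.rpow_neg h1.le]
    exact inv_anti₀ (by positivity) (Real.rpow_le_rpow h1.le hv.1 hβ0.le)
  rw [intervalIntegral.integral_const, smul_eq_mul] at this
  exact this

lemma floor_scaled {β x U : ℝ} (hx : 0 < x) (_hU : 0 ≤ U) :
    ∫ u in (0:ℝ)..U, (⌊x * u⌋₊ : ℝ) * u ^ (-β - 1) = x ^ β * Jj β (x * U) := by
  have h := intervalIntegral.integral_comp_mul_left (a := 0) (b := U) (fj β) hx.ne'
  rw [mul_zero, smul_eq_mul] at h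
  unfold Jj
  have h2 : ∫ u in (0:ℝ)..U, (⌊x * u⌋₊ : ℝ) * u ^ (-β - 1) = ∫ u in (0:ℝ)..U, x ^ (β + 1) * fj β (x * u) := by
    apply intervalIntegral.integral_congr_Ioo_of_le _hU
    intro u hu
    simp only [fj]
    have hu0 : 0 < u := hu.1
    rw [Real.mul_rpow hx.le hu0.le]
    have : x ^ (β + 1) * x ^ (-β - 1) = 1 := by
      rw [← Real.rpow_add hx]
      have : β + 1 + (-β - 1) = 0 := by ring
      rw [this, Real.rpow_zero]
    calc (⌊x * u⌋₊ : ℝ) * u ^ (-β - 1) = (⌊x * u⌋₊ : ℝ) * (x ^ (β + 1) * x ^ (-β - 1)) * u ^ (-β - 1) := by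
          rw [this, mul_one]
      _ = _ := by ring
  rw [h2, intervalIntegral.integral_const_mul, h]
  have : x ^ (β + 1) = x ^ β * x := by rw [Real.rpow_add hx, Real.rpow_one]
  rw [this]
  field_simp

lemma ps_diff {x1 x2 u : ℝ} (h1 : 0 < x1) (h12 : x1 < x2) (hu : 0 < u) :
    |ps (x2 * u) - ps (x1 * u)| ≤ (x2 - x1) * u + ((⌊x2 * u⌋₊ : ℝ) - (⌊x1 * u⌋₊ : ℝ)) ∧
      |ps (x2 * u) - ps (x1 * u)| ≤ 1 := by
  have hx1u : 0 ≤ x1 * u := by positivity
  have hx2u : 0 ≤ x2 * u := mul_nonneg (by linarith) hu.le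
  constructor
  · rw [ps_floor hx1u, ps_floor hx2u]
    have hfl : (⌊x1 * u⌋₊ : ℝ) ≤ (⌊x2 * u⌋₊ : ℝ) := by
      exact_mod_cast Nat.floor_le_floor (mul_le_mul_of_nonneg_right h12.le hu.le)
    have h3 : 0 ≤ (x2 - x1) * u := mul_nonneg (by linarith) hu.le
    rw [abs_le]
    constructor <;> nlinarith
  · have ha := Int.fract_nonneg (x2 * u)
    have hb := Int.fract_lt_one (x2 * u)
    have hc := Int.fract_nonneg (x1 * u)
    have hd := Int.fract_lt_one (x1 * u)
    unfold ps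
    rw [abs_le]
    constructor <;> linarith

lemma rpow_sub_le {β x1 x2 : ℝ} (hβ0 : 0 < β) (hβ1 : β < 1) (h1 : 0 < x1) (h12 : x1 < x2) :
    x2 ^ β - x1 ^ β ≤ β * x1 ^ (β - 1) * (x2 - x1) := by
  have h := rpow_one_add_le_one_add_mul_self (s := (x2 - x1) / x1) (p := β)
    (by have : 0 ≤ (x2 - x1) / x1 := div_nonneg (by linarith) h1.le
        linarith) hβ0.le hβ1.le
  have h2 : 1 + (x2 - x1) / x1 = x2 / x1 := by field_simp; ring
  rw [h2, Real.div_rpow (by linarith) h1.le, div_le_iff₀ (by positivity)] at h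
  have h3 : x1 ^ (β - 1) = x1 ^ β / x1 := by rw [Real.rpow_sub h1, Real.rpow_one]
  rw [h3]
  have h4 : (1 + β * ((x2 - x1) / x1)) * x1 ^ β = x1 ^ β + β * (x1 ^ β / x1) * (x2 - x1) := by
    field_simp
  linarith

lemma kM_holder {s : ℂ} (hs0 : 0 < s.re) (hs1 : s.re < 1) {x1 x2 : ℝ} (h1 : 0 < x1) (h12 : x1 < x2)
    (h2 : x2 < 1) (h22 : x2 ≤ 2 * x1) :
    ‖kM s x2 - kM s x1‖ ≤ (2 / (1 - s.re) + 2 + 1 / s.re) * (x2 - x1) ^ s.re := by
  set β := s.re with hβ
  set Δ := x2 - x1 with hΔ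
  have hΔ0 : 0 < Δ := by rw [hΔ]; linarith
  set U := 1 / Δ with hU
  have hU0 : 0 < U := by positivity
  have hx2 : 0 < x2 := by linarith
  have c1 := kk_mellin h1 (by linarith) hs0 hs1
  have c2 := kk_mellin hx2 h2 hs0 hs1
  set fl : ℝ → ℝ := fun u => (⌊x2 * u⌋₊ : ℝ) * u ^ (-β - 1) - (⌊x1 * u⌋₊ : ℝ) * u ^ (-β - 1) with hfl
  set G : ℝ → ℝ := fun u => maj β U Δ 1 u + (Ioc 0 U).indicator fl u with hG
  have hfi : ∀ x : ℝ, 0 < x → IntervalIntegrable (fun u : ℝ => (⌊x * u⌋₊ : ℝ) * u ^ (-β - 1)) volume 0 U := by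
    intro x hx
    rw [intervalIntegrable_iff_integrableOn_Ioc_of_le hU0.le]
    refine Integrable.mono' ((pow_integrable hs1 hU0.le).const_mul x) ?_ ?_
    · refine Measurable.aestronglyMeasurable ?_
      exact ((meas_floor (fun n => (n : ℝ))).comp (measurable_const.mul measurable_id)).mul (measurable_id.pow_const _)
    · refine (ae_restrict_mem measurableSet_Ioc).mono fun u hu => ?_
      have hu0 : 0 < u := hu.1
      have e2 : u ^ (-β) = u * u ^ (-β - 1) := by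
        conv_rhs => rw [← Real.rpow_one u, ← Real.rpow_mul hu0.le, one_mul, ← Real.rpow_add hu0]
        congr 1; ring
      rw [Real.norm_of_nonneg (by positivity), e2, ← mul_assoc]
      exact mul_le_mul_of_nonneg_right (Nat.floor_le (by positivity)) (by positivity)
  have hfli : IntegrableOn fl (Ioc 0 U) := by
    have := (hfi x2 hx2).sub (hfi x1 h1)
    rw [intervalIntegrable_iff_integrableOn_Ioc_of_le hU0.le] at this
    exact this
  have hGi : IntegrableOn G (Ioi 0) := by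
    refine (maj_integrable hs0 hs1 hU0 Δ 1).1.add ?_
    rw [integrableOn_indicator_iff measurableSet_Ioc]
    exact hfli.mono_set inter_subset_left
  have hflint : ∫ u in Ioc 0 U, fl u = x2 ^ β * Jj β (x2 * U) - x1 ^ β * Jj β (x1 * U) := by
    rw [← intervalIntegral.integral_of_le hU0.le, hfl, intervalIntegral.integral_sub (hfi x2 hx2) (hfi x1 h1),
      floor_scaled hx2 hU0.le, floor_scaled h1 hU0.le]
  have hsub0 : Ioc 0 U ⊆ Ioi 0 := fun u hu => hu.1
  have hGint : ∫ u in Ioi 0, G u = Δ * (U ^ (1 - β) / (1 - β)) + 1 * (U ^ (-β) / β) +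
      (x2 ^ β * Jj β (x2 * U) - x1 ^ β * Jj β (x1 * U)) := by
    rw [hG, integral_add (maj_integrable hs0 hs1 hU0 Δ 1).1
      (by rw [integrable_indicator_iff measurableSet_Ioc, IntegrableOn, Measure.restrict_restrict measurableSet_Ioc,
            inter_eq_self_of_subset_left hsub0]; exact hfli),
      (maj_integrable hs0 hs1 hU0 Δ 1).2, setIntegral_indicator measurableSet_Ioc,
      inter_eq_self_of_subset_right hsub0, hflint]
  have hpt : ∀ u ∈ Ioi (0:ℝ), ‖(u : ℂ) ^ (-s - 1) • (((kk x2 u : ℝ) : ℂ) - ((kk x1 u : ℝ) : ℂ))‖ ≤ G u := by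
    intro u hu
    have hu0 : 0 < u := hu
    rw [norm_smul, ← Complex.ofReal_sub, Complex.norm_real, Real.norm_eq_abs, Complex.norm_cpow_eq_rpow_re_of_pos hu0]
    have e : (-s - 1).re = -β - 1 := by simp [hβ]
    rw [e]
    have hp : 0 < u ^ (-β - 1) := by positivity
    obtain ⟨hd1, hd2⟩ := ps_diff h1 h12 hu0
    have hk : |kk x2 u - kk x1 u| ≤ 1 / 2 * |ps (x2 * u) - ps (x1 * u)| := by
      have : kk x2 u - kk x1 u = -(ps u * (ps (x2 * u) - ps (x1 * u))) := by unfold kk; ring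
      rw [this, abs_neg, abs_mul]
      exact mul_le_mul_of_nonneg_right (ps_abs u) (abs_nonneg _)
    rw [hG]
    simp only
    unfold maj
    split_ifs with h
    · rw [indicator_of_mem (show u ∈ Ioc 0 U from ⟨hu0, h⟩)]
      have e2 : u ^ (-β) = u * u ^ (-β - 1) := by
        conv_rhs => rw [← Real.rpow_one u, ← Real.rpow_mul hu0.le, one_mul, ← Real.rpow_add hu0]
        congr 1; ring
      rw [e2, hfl]
      have h5 : |kk x2 u - kk x1 u| ≤ Δ * u + ((⌊x2 * u⌋₊ : ℝ) - (⌊x1 * u⌋₊ : ℝ)) := by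
        have := abs_nonneg (ps (x2 * u) - ps (x1 * u))
        linarith
      calc u ^ (-β - 1) * |kk x2 u - kk x1 u| ≤ u ^ (-β - 1) * (Δ * u + ((⌊x2 * u⌋₊ : ℝ) - (⌊x1 * u⌋₊ : ℝ))) :=
            mul_le_mul_of_nonneg_left h5 hp.le
        _ = _ := by ring
    · rw [indicator_of_notMem (fun h' => h h'.2), add_zero, one_mul]
      calc u ^ (-β - 1) * |kk x2 u - kk x1 u| ≤ u ^ (-β - 1) * 1 :=
            mul_le_mul_of_nonneg_left (by linarith) hp.le
        _ = _ := mul_one _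
  have hnorm : ‖kM s x2 - kM s x1‖ ≤ ∫ u in Ioi 0, G u := by
    unfold kM
    rw [← (hasMellin_sub c2 c1).2]
    unfold mellin
    exact norm_integral_le_of_norm_le hGi ((ae_restrict_mem measurableSet_Ioi).mono hpt)
  refine hnorm.trans ?_
  rw [hGint]
  have hUp : Δ * U ^ (1 - β) = Δ ^ β := by
    rw [hU, one_div, Real.inv_rpow hΔ0.le, ← Real.rpow_neg hΔ0.le]
    conv_lhs => rw [← Real.rpow_one Δ, ← Real.rpow_mul hΔ0.le, one_mul, ← Real.rpow_add hΔ0]
    congr 1; ring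
  have hUm : U ^ (-β) = Δ ^ β := by
    rw [hU, one_div, Real.inv_rpow hΔ0.le, ← Real.rpow_neg hΔ0.le, neg_neg]
  have hb1 : 0 < 1 - β := by linarith
  -- the floor part
  have hJ1 : x2 ^ β * Jj β (x2 * U) - x1 ^ β * Jj β (x1 * U) ≤ Δ ^ β / (1 - β) + 2 * Δ ^ β := by
    have e1 : x2 ^ β * Jj β (x2 * U) - x1 ^ β * Jj β (x1 * U) =
        (x2 ^ β - x1 ^ β) * Jj β (x1 * U) + x2 ^ β * (Jj β (x2 * U) - Jj β (x1 * U)) := by ring
    have hx1U : 0 < x1 * U := by positivity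
    have t1 : (x2 ^ β - x1 ^ β) * Jj β (x1 * U) ≤ Δ ^ β / (1 - β) := by
      have a1 := rpow_sub_le hs0 hs1 h1 h12
      have a2 := Jj_le hs1 hx1U.le
      have a3 := Jj_nonneg (β := β) hx1U.le
      have a4 : 0 ≤ β * x1 ^ (β - 1) * (x2 - x1) := by
        have : 0 ≤ x2 - x1 := by linarith
        positivity
      calc (x2 ^ β - x1 ^ β) * Jj β (x1 * U) ≤ (β * x1 ^ (β - 1) * (x2 - x1)) * Jj β (x1 * U) :=
            mul_le_mul_of_nonneg_right a1 a3
        _ ≤ (β * x1 ^ (β - 1) * (x2 - x1)) * ((x1 * U) ^ (1 - β) / (1 - β)) := mul_le_mul_of_nonneg_left a2 a4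
        _ = β * (x1 ^ (β - 1) * x1 ^ (1 - β)) * (Δ * U ^ (1 - β)) / (1 - β) := by
            rw [Real.mul_rpow h1.le hU0.le]
            ring
        _ = β * Δ ^ β / (1 - β) := by
            rw [hUp, ← Real.rpow_add h1]
            have : β - 1 + (1 - β) = 0 := by ring
            rw [this, Real.rpow_zero, mul_one]
        _ ≤ Δ ^ β / (1 - β) := by
            apply div_le_div_of_nonneg_right _ hb1.le
            have : 0 < Δ ^ β := by positivity
            nlinarith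
    have t2 : x2 ^ β * (Jj β (x2 * U) - Jj β (x1 * U)) ≤ 2 * Δ ^ β := by
      have a1 := Jj_sub hs0 hs1 hx1U (mul_le_mul_of_nonneg_right h12.le hU0.le)
      calc x2 ^ β * (Jj β (x2 * U) - Jj β (x1 * U)) ≤ x2 ^ β * ((x2 * U - x1 * U) * (x1 * U) ^ (-β)) :=
            mul_le_mul_of_nonneg_left a1 (by positivity)
        _ = (x2 ^ β * x1 ^ (-β)) * (Δ * (U * U ^ (-β))) := by
            rw [Real.mul_rpow h1.le hU0.le]
            ring
        _ = (x2 ^ β * x1 ^ (-β)) * Δ ^ β := by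
            rw [← hUp]
            congr 2
            conv_lhs => rw [← Real.rpow_one U, ← Real.rpow_mul hU0.le, one_mul, ← Real.rpow_add hU0]
            congr 1
        _ ≤ 2 * Δ ^ β := by
            apply mul_le_mul_of_nonneg_right _ (by positivity)
            have b1 : x2 ^ β ≤ (2 * x1) ^ β := Real.rpow_le_rpow hx2.le h22 hs0.le
            rw [Real.mul_rpow (by norm_num) h1.le] at b1
            have b2 : (2:ℝ) ^ β ≤ 2 := by
              calc (2:ℝ) ^ β ≤ 2 ^ (1:ℝ) := Real.rpow_le_rpow_of_exponent_le (by norm_num) hs1.le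
                _ = 2 := Real.rpow_one 2
            calc x2 ^ β * x1 ^ (-β) ≤ (2 ^ β * x1 ^ β) * x1 ^ (-β) := mul_le_mul_of_nonneg_right b1 (by positivity)
              _ = 2 ^ β := by
                  rw [mul_assoc, ← Real.rpow_add h1, add_neg_cancel, Real.rpow_zero, mul_one]
              _ ≤ 2 := b2
    rw [e1]
    exact add_le_add t1 t2
  have e3 : Δ * (U ^ (1 - β) / (1 - β)) = Δ ^ β / (1 - β) := by rw [← hUp]; ring
  rw [e3, hUm]
  calc Δ ^ β / (1 - β) + 1 * (Δ ^ β / β) + (x2 ^ β * Jj β (x2 * U) - x1 ^ β * Jj β (x1 * U)) ≤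
        Δ ^ β / (1 - β) + 1 * (Δ ^ β / β) + (Δ ^ β / (1 - β) + 2 * Δ ^ β) := by linarith
    _ = _ := by ring

end

end Pool.Agent.H313.FD
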