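import Pool.Agent.H313.FD.A4

/-!
# Bounds for `h`
-/

set_option autoImplicit false

namespace Pool.Agent.H313.FD

open MeasureTheory Filter Topology Set
open Pool.Agent.Q120.FA (ps S E Mt)

noncomputable section

lemma cpow_diff {c : ℂ} (hc : c.re ≤ 1) {a b : ℝ} (ha : 0 < a) (hab : a ≤ b) :
    ‖(b : ℂ) ^ c - (a : ℂ) ^ c‖ ≤ ‖c‖ * a ^ (c.re - 1) * (b - a) := by
  rcases eq_or_ne c 0 with rfl | hc0
  · simp
  have h := Convex.norm_image_sub_le_of_norm_hasDerivWithin_le (f := fun t : ℝ => (t : ℂ) ^ c)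
    (f' := fun t : ℝ => c * (t : ℂ) ^ (c - 1)) (s := Icc a b) (x := a) (y := b) (C := ‖c‖ * a ^ (c.re - 1))
    (fun t ht => (hasDerivAt_ofReal_cpow_const (lt_of_lt_of_le ha ht.1).ne' hc0).hasDerivWithinAt) ?_
    (convex_Icc a b) (left_mem_Icc.2 hab) (right_mem_Icc.2 hab)
  · rwa [Real.norm_of_nonneg (by linarith)] at h
  · intro t ht
    have ht0 : 0 < t := lt_of_lt_of_le ha ht.1
    rw [norm_mul, Complex.norm_cpow_eq_rpow_re_of_pos ht0]
    apply mul_le_mul_of_nonneg_left _ (norm_nonneg _)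
    have e : (c - 1).re = -(1 - c.re) := by simp
    have e2 : c.re - 1 = -(1 - c.re) := by ring
    rw [e, e2, Real.rpow_neg ht0.le, Real.rpow_neg ha.le]
    exact inv_anti₀ (by positivity) (Real.rpow_le_rpow ha.le ht.1 (by linarith))

/-- symmetric form, ratio at most `2` -/
lemma cpow_diff' {c : ℂ} (hc : c.re ≤ 1) (hc' : -1 ≤ c.re) {a b : ℝ} (ha : 0 < a) (hb : 0 < b) (hab : a ≤ 2 * b) :
    ‖(b : ℂ) ^ c - (a : ℂ) ^ c‖ ≤ 4 * ‖c‖ * a ^ (c.re - 1) * |b - a| := by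
  rcases le_total a b with h | h
  · refine (cpow_diff hc ha h).trans ?_
    rw [abs_of_nonneg (by linarith)]
    have : 0 ≤ ‖c‖ * a ^ (c.re - 1) * (b - a) := mul_nonneg (by positivity) (by linarith)
    nlinarith
  · rw [norm_sub_rev, abs_sub_comm, abs_of_nonneg (by linarith : 0 ≤ a - b)]
    refine (cpow_diff hc hb h).trans ?_
    have h1 : b ^ (c.re - 1) ≤ 4 * a ^ (c.re - 1) := by
      have e2 : c.re - 1 = -(1 - c.re) := by ring
      rw [e2, Real.rpow_neg hb.le, Real.rpow_neg ha.le]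
      have h2 : a ^ (1 - c.re) ≤ 4 * b ^ (1 - c.re) := by
        calc a ^ (1 - c.re) ≤ (2 * b) ^ (1 - c.re) := Real.rpow_le_rpow ha.le hab (by linarith)
          _ = 2 ^ (1 - c.re) * b ^ (1 - c.re) := Real.mul_rpow (by norm_num) hb.le
          _ ≤ 4 * b ^ (1 - c.re) := by
              apply mul_le_mul_of_nonneg_right _ (by positivity)
              calc (2:ℝ) ^ (1 - c.re) ≤ 2 ^ (2:ℝ) := Real.rpow_le_rpow_of_exponent_le (by norm_num) (by linarith)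
                _ = 4 := by norm_num
      have h3 : 0 < a ^ (1 - c.re) := by positivity
      have h4 : 0 < b ^ (1 - c.re) := by positivity
      rw [inv_le_iff_one_le_mul₀ h4, mul_assoc, ← div_eq_inv_mul, ← mul_div_assoc, le_div_iff₀ h3, one_mul]
      exact h2
    calc ‖c‖ * b ^ (c.re - 1) * (a - b) ≤ ‖c‖ * (4 * a ^ (c.re - 1)) * (a - b) := by
          apply mul_le_mul_of_nonneg_right _ (by linarith)
          exact mul_le_mul_of_nonneg_left h1 (norm_nonneg _)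
      _ = _ := by ring

lemma one_le_rpow_sub {x β : ℝ} (h0 : 0 < x) (h1 : x < 1) (hβ : β < 1) : 1 ≤ x ^ (β - 1) :=
  Real.one_le_rpow_of_pos_of_le_one_of_nonpos h0 h1.le (by linarith)

/-- upper bound -/
lemma hh_upper {s : ℂ} (hs0 : 0 < s.re) (hs1 : s.re < 1) :
    ∃ C : ℝ, 0 < C ∧ ∀ x : ℝ, 0 < x → x < 1 → ‖hh s x‖ ≤ C * x ^ (s.re - 1) := by
  refine ⟨‖s‖ * (‖b0 s‖ * 2 + (1 / (1 - s.re) + 1 / s.re)), ?_, fun x h0 h1 => ?_⟩
  · have h1 : 0 < 1 - s.re := by linarith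
    have h2 : 0 < ‖s‖ := norm_pos_iff.2 (by rintro rfl; simp at hs0)
    positivity
  · unfold hh
    have h2 := kM_bound hs0 hs1 h0 h1
    have h3 := one_le_rpow_sub h0 h1 hs1
    have h4 : ‖(x : ℂ) ^ (s - 1) + x‖ ≤ 2 * x ^ (s.re - 1) := by
      refine (norm_add_le _ _).trans ?_
      rw [Complex.norm_cpow_eq_rpow_re_of_pos h0, Complex.norm_real, Real.norm_of_nonneg h0.le]
      have : (s - 1).re = s.re - 1 := by simp
      rw [this]
      linarith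
    rw [norm_mul, mul_assoc]
    apply mul_le_mul_of_nonneg_left _ (norm_nonneg _)
    refine (norm_add_le _ _).trans ?_
    rw [norm_mul]
    have h5 : ‖b0 s‖ * ‖(x : ℂ) ^ (s - 1) + x‖ ≤ ‖b0 s‖ * (2 * x ^ (s.re - 1)) :=
      mul_le_mul_of_nonneg_left h4 (norm_nonneg _)
    have h6 : 0 < 1 / (1 - s.re) + 1 / s.re := by
      have h1 : 0 < 1 - s.re := by linarith
      positivity
    nlinarith

/-- lower bound -/
lemma hh_lower {s : ℂ} (hs0 : 0 < s.re) (hs1 : s.re < 1) :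
    ∃ c C : ℝ, 0 < c ∧ 0 < C ∧ ∀ x : ℝ, 0 < x → x < 1 → c * x ^ (s.re - 1) - C ≤ ‖hh s x‖ := by
  have h2 : 0 < ‖s‖ := norm_pos_iff.2 (by rintro rfl; simp at hs0)
  have h3 : 0 < ‖b0 s‖ := norm_pos_iff.2 (b0_ne_zero hs0 hs1)
  have h1 : 0 < 1 - s.re := by linarith
  refine ⟨‖s‖ * ‖b0 s‖, ‖s‖ * (‖b0 s‖ + (1 / (1 - s.re) + 1 / s.re)), by positivity, by positivity,
    fun x h0 hx1 => ?_⟩
  have h4 := kM_bound hs0 hs1 h0 hx1
  have e : hh s x = s * b0 s * (x : ℂ) ^ (s - 1) - (-(s * (b0 s * x + kM s x))) := by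
    unfold hh; ring
  rw [e]
  refine le_trans ?_ (norm_sub_norm_le _ _)
  rw [norm_neg, norm_mul, norm_mul, Complex.norm_cpow_eq_rpow_re_of_pos h0]
  have : (s - 1).re = s.re - 1 := by simp
  rw [this]
  have h5 : ‖s * (b0 s * (x : ℂ) + kM s x)‖ ≤ ‖s‖ * (‖b0 s‖ + (1 / (1 - s.re) + 1 / s.re)) := by
    rw [norm_mul]
    apply mul_le_mul_of_nonneg_left _ (norm_nonneg _)
    refine (norm_add_le _ _).trans (add_le_add ?_ h4)
    rw [norm_mul, Complex.norm_real, Real.norm_of_nonneg h0.le]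
    nlinarith
  linarith

/-- modulus of continuity -/
lemma hh_osc {s : ℂ} (hs0 : 0 < s.re) (hs1 : s.re < 1) :
    ∃ C : ℝ, 0 < C ∧ ∀ x y : ℝ, 0 < x → x < 1 → 0 < y → y < 1 → x ≤ 2 * y → y ≤ 2 * x →
      ‖hh s y - hh s x‖ ≤ C * (x ^ (s.re - 2) * |y - x| + |y - x| ^ s.re) := by
  have h1 : 0 < 1 - s.re := by linarith
  set K := 2 / (1 - s.re) + 2 + 1 / s.re with hK
  have hK0 : 0 < K := by positivity
  refine ⟨(‖s‖ + 1) * (‖b0 s‖ * (4 * ‖s - 1‖ + 1) + K), by positivity, fun x y hx hx1 hy hy1 hxy hyx => ?_⟩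
  have hkM : ‖kM s y - kM s x‖ ≤ K * |y - x| ^ s.re := by
    rcases lt_trichotomy x y with h | h | h
    · have := kM_holder hs0 hs1 hx h hy1 hyx
      rwa [abs_of_pos (by linarith : 0 < y - x)]
    · rw [h]
      simp
      positivity
    · have := kM_holder hs0 hs1 hy h hx1 hxy
      rw [norm_sub_rev, abs_sub_comm, abs_of_pos (by linarith : 0 < x - y)]
      exact this
  have hcp := cpow_diff' (c := s - 1) (by simp; linarith) (by simp; linarith) hx hy hxy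
  have e1 : (s - 1).re - 1 = s.re - 2 := by simp; ring
  rw [e1] at hcp
  have hxp : 1 ≤ x ^ (s.re - 2) := Real.one_le_rpow_of_pos_of_le_one_of_nonpos hx hx1.le (by linarith)
  have hab := abs_nonneg (y - x)
  have hab2 : 0 ≤ |y - x| ^ s.re := by positivity
  have hA : 0 ≤ x ^ (s.re - 2) * |y - x| := by positivity
  have e : hh s y - hh s x = s * (b0 s * (((y : ℂ) ^ (s - 1) - (x : ℂ) ^ (s - 1)) + ((y - x : ℝ) : ℂ)) + (kM s y - kM s x)) := by
    unfold hh; push_cast; ring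
  rw [e, norm_mul]
  have h3 : ‖((y : ℂ) ^ (s - 1) - (x : ℂ) ^ (s - 1)) + ((y - x : ℝ) : ℂ)‖ ≤ (4 * ‖s - 1‖ + 1) * (x ^ (s.re - 2) * |y - x|) := by
    refine (norm_add_le _ _).trans ?_
    rw [Complex.norm_real, Real.norm_eq_abs]
    nlinarith
  have h4 : ‖b0 s * (((y : ℂ) ^ (s - 1) - (x : ℂ) ^ (s - 1)) + ((y - x : ℝ) : ℂ)) + (kM s y - kM s x)‖ ≤
      (‖b0 s‖ * (4 * ‖s - 1‖ + 1) + K) * (x ^ (s.re - 2) * |y - x| + |y - x| ^ s.re) := by
    refine (norm_add_le _ _).trans ?_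
    rw [norm_mul]
    have h5 := mul_le_mul_of_nonneg_left h3 (norm_nonneg (b0 s))
    have h6 : 0 ≤ ‖b0 s‖ * (4 * ‖s - 1‖ + 1) * |y - x| ^ s.re := by positivity
    have h7 : 0 ≤ K * (x ^ (s.re - 2) * |y - x|) := by positivity
    nlinarith
  have h5 : 0 ≤ (‖b0 s‖ * (4 * ‖s - 1‖ + 1) + K) * (x ^ (s.re - 2) * |y - x| + |y - x| ^ s.re) := by positivity
  calc ‖s‖ * _ ≤ ‖s‖ * ((‖b0 s‖ * (4 * ‖s - 1‖ + 1) + K) * (x ^ (s.re - 2) * |y - x| + |y - x| ^ s.re)) :=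
        mul_le_mul_of_nonneg_left h4 (norm_nonneg _)
    _ ≤ (‖s‖ + 1) * ((‖b0 s‖ * (4 * ‖s - 1‖ + 1) + K) * (x ^ (s.re - 2) * |y - x| + |y - x| ^ s.re)) :=
        mul_le_mul_of_nonneg_right (by linarith) h5
    _ = _ := by ring

end

end Pool.Agent.H313.FD
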