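import Pool.Agent.H313.FD.A5

/-!
# Cylinders of the continued fraction expansion, and the iterated functional equation
-/

set_option autoImplicit false

namespace Pool.Agent.H313.FD

open MeasureTheory Filter Topology Set
open Pool.Agent.Q120.FA (ps S E Mt)

noncomputable section

lemma slow_add_nat {x : ℝ} (hx : Slow x) (a : ℕ) : Slow (x + a) := by
  refine ⟨hx.1.add_natCast a, fun δ hδ => ?_⟩
  obtain ⟨C, h0, hC⟩ := hx.2 δ hδ
  refine ⟨C, h0, fun N => ?_⟩
  have := S_add_int N x (a : ℤ)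
  push_cast at this
  rw [this]
  exact hC N

lemma slow_of_recip {x : ℝ} (h0 : 0 < x) (h1 : x < 1) (hx : Slow (1 / x)) : Slow x := by
  have hirr : Irrational x := by
    have := hx.1.inv
    rwa [one_div, inv_inv] at this
  refine ⟨hirr, fun δ hδ => ?_⟩
  obtain ⟨C, hC0, hC⟩ := hx.2 δ hδ
  refine ⟨1 / x + C, by positivity, fun N => ?_⟩
  rcases Nat.eq_zero_or_pos N with rfl | hN
  · rw [S_zero, abs_zero]
    positivity
  have hN1 : (1:ℝ) ≤ N := by exact_mod_cast hN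
  have h2 := recip h0 hirr (u := (N:ℝ)) (by positivity)
  rw [Nat.floor_natCast] at h2
  have h3 := R_abs_le h0 h1 (N : ℝ)
  have h4 := hC ⌊x * N⌋₊
  have h5 : ((⌊x * N⌋₊ : ℕ) : ℝ) ^ δ ≤ (N : ℝ) ^ δ := by
    refine Real.rpow_le_rpow (by positivity) ((Nat.floor_le (by positivity)).trans ?_) hδ.le
    nlinarith
  have h6 : (1:ℝ) ≤ (N : ℝ) ^ δ := Real.one_le_rpow hN1 hδ.le
  have e : S N x = R x N - S ⌊x * N⌋₊ (1 / x) := by linarith
  rw [e]
  calc |R x N - S ⌊x * N⌋₊ (1 / x)| ≤ |R x N| + |S ⌊x * N⌋₊ (1 / x)| := abs_sub _ _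
    _ ≤ 1 / x + C * (N : ℝ) ^ δ := add_le_add h3 (h4.trans (mul_le_mul_of_nonneg_left h5 hC0))
    _ ≤ 1 / x * (N : ℝ) ^ δ + C * (N : ℝ) ^ δ := by
        have : 0 < 1 / x := by positivity
        nlinarith
    _ = _ := by ring

lemma slow_step {x : ℝ} (h0 : 0 < x) (hx : Slow x) {a : ℕ} (ha : 1 ≤ a) : Slow (1 / (a + x)) := by
  have ha' : (1:ℝ) ≤ a := by exact_mod_cast ha
  have h1 : 0 < (a : ℝ) + x := by positivity
  refine slow_of_recip (by positivity) ?_ ?_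
  · rw [div_lt_one h1]; linarith
  · rw [one_div_one_div, add_comm]
    exact slow_add_nat hx a

lemma F_add_nat (s : ℂ) (x : ℝ) (a : ℕ) : F s (x + a) = F s x := by
  unfold F
  have : ∀ N, S N (x + a) = S N x := fun N => by
    have := S_add_int N x (a : ℤ)
    push_cast at this
    exact this
  simp_rw [this]

/-- one step of the functional equation -/
lemma F_step {s : ℂ} (hs0 : 0 < s.re) (hs1 : s.re < 1) {z : ℝ} (h0 : 0 < z) (hz : Slow z) {a : ℕ} (ha : 1 ≤ a) :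
    F s (1 / (a + z)) = hh s (1 / (a + z)) - ((1 / (a + z) : ℝ) : ℂ) ^ s * F s z := by
  have ha' : (1:ℝ) ≤ a := by exact_mod_cast ha
  have h1 : 0 < (a : ℝ) + z := by positivity
  have h2 := F_recip hs0 hs1 (x := 1 / (a + z)) (by positivity) (by rw [div_lt_one h1]; linarith)
    (slow_step h0 hz ha) (by rw [one_div_one_div, add_comm]; exact slow_add_nat hz a)
  rw [h2, one_div_one_div, add_comm (a : ℝ) z, F_add_nat]

/-- denominators `(q_k, q_{k-1})` -/
def qq (a : ℕ → ℕ) : ℕ → ℝ × ℝ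
  | 0 => (1, 0)
  | k + 1 => (a k * (qq a k).1 + (qq a k).2, (qq a k).1)

/-- numerators `(p_k, p_{k-1})` -/
def pp (a : ℕ → ℕ) : ℕ → ℝ × ℝ
  | 0 => (0, 1)
  | k + 1 => (a k * (pp a k).1 + (pp a k).2, (pp a k).1)

/-- the denominator of the branch -/
def dn (a : ℕ → ℕ) (k : ℕ) (z : ℝ) : ℝ := (qq a k).1 + (qq a k).2 * z

/-- the branch: `φ_k(z) = [0; a_0, …, a_{k-1} + z]` -/
def ph (a : ℕ → ℕ) (k : ℕ) (z : ℝ) : ℝ := ((pp a k).1 + (pp a k).2 * z) / dn a k z

section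
variable {a : ℕ → ℕ} (ha : ∀ j, 1 ≤ a j)
include ha

lemma qq_prop (k : ℕ) : 1 ≤ (qq a k).1 ∧ 0 ≤ (qq a k).2 ∧ (qq a k).2 ≤ (qq a k).1 ∧ (k : ℝ) ≤ (qq a k).1 ∧
    (1 ≤ k → 1 ≤ (qq a k).2) := by
  induction k with
  | zero => simp [qq]
  | succ k ih =>
    obtain ⟨h1, h2, h3, h4, h5⟩ := ih
    have ha' : (1:ℝ) ≤ a k := by exact_mod_cast ha k
    simp only [qq]
    have h6 : (qq a k).1 ≤ a k * (qq a k).1 := by nlinarith
    refine ⟨by linarith, by linarith, by linarith, ?_, fun _ => h1⟩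
    push_cast
    rcases Nat.eq_zero_or_pos k with rfl | hk
    · norm_num
      linarith
    · have := h5 hk
      linarith

lemma dn_pos (k : ℕ) {z : ℝ} (hz : 0 ≤ z) : 1 ≤ dn a k z := by
  obtain ⟨h1, h2, -⟩ := qq_prop ha k
  unfold dn
  nlinarith

lemma dn_succ (k : ℕ) {z : ℝ} (hz : 0 ≤ z) : dn a (k + 1) z = dn a k (1 / (a k + z)) * (a k + z) := by
  have ha' : (1:ℝ) ≤ a k := by exact_mod_cast ha k
  have h1 : 0 < (a k : ℝ) + z := by positivity
  unfold dn
  simp only [qq]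
  field_simp
  ring

lemma ph_succ (k : ℕ) {z : ℝ} (hz : 0 ≤ z) : ph a (k + 1) z = ph a k (1 / (a k + z)) := by
  have ha' : (1:ℝ) ≤ a k := by exact_mod_cast ha k
  have h1 : 0 < (a k : ℝ) + z := by positivity
  have h2 := dn_succ ha k hz
  have h3 := dn_pos ha k (z := 1 / (a k + z)) (by positivity)
  have h4 : ((pp a (k + 1)).1 + (pp a (k + 1)).2 * z) = ((pp a k).1 + (pp a k).2 * (1 / (a k + z))) * (a k + z) := by
    simp only [pp]
    field_simp
    ring
  unfold ph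
  rw [h4, h2]
  exact mul_div_mul_right _ _ h1.ne'

lemma step_mem (k : ℕ) {z : ℝ} (hz : 0 < z) : 0 < 1 / (a k + z) ∧ 1 / (a k + z) < 1 := by
  have ha' : (1:ℝ) ≤ a k := by exact_mod_cast ha k
  have h1 : 0 < (a k : ℝ) + z := by positivity
  exact ⟨by positivity, by rw [div_lt_one h1]; linarith⟩

lemma ph_mem (k : ℕ) : ∀ {z : ℝ}, 0 < z → z < 1 → 0 < ph a k z ∧ ph a k z < 1 := by
  induction k with
  | zero => intro z h0 h1; simp [ph, dn, pp, qq]; exact ⟨h0, h1⟩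
  | succ k ih =>
    intro z h0 h1
    rw [ph_succ ha k h0.le]
    have := step_mem ha k h0
    exact ih this.1 this.2

lemma ph_slow (k : ℕ) : ∀ {z : ℝ}, 0 < z → Slow z → Slow (ph a k z) := by
  induction k with
  | zero => intro z h0 h1; simpa [ph, dn, pp, qq] using h1
  | succ k ih =>
    intro z h0 h1
    rw [ph_succ ha k h0.le]
    have := step_mem ha k h0
    exact ih this.1 (slow_step h0 h1 (ha k))

omit ha in
lemma det_sq (k : ℕ) : |(pp a k).2 * (qq a k).1 - (pp a k).1 * (qq a k).2| = 1 := by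
  induction k with
  | zero => simp [pp, qq]
  | succ k ih =>
    simp only [pp, qq]
    rw [abs_sub_comm] at ih
    rw [← ih]
    congr 1
    ring

lemma ph_sub (k : ℕ) {z w : ℝ} (hz : 0 ≤ z) (hw : 0 ≤ w) :
    |ph a k z - ph a k w| = |z - w| / (dn a k z * dn a k w) := by
  have h1 := dn_pos ha k hz
  have h2 := dn_pos ha k hw
  have e : ph a k z - ph a k w = ((pp a k).2 * (qq a k).1 - (pp a k).1 * (qq a k).2) * (z - w) / (dn a k z * dn a k w) := by
    unfold ph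
    rw [div_sub_div _ _ (by positivity) (by positivity)]
    congr 1
    unfold dn
    ring
  rw [e, abs_div, abs_mul, det_sq, one_mul, abs_of_pos (by positivity : 0 < dn a k z * dn a k w)]

end

/-- the partial sums of the iterated functional equation, on the cylinder -/
def HH (s : ℂ) (a : ℕ → ℕ) : ℕ → ℝ → ℂ
  | 0, _ => 0
  | k + 1, z => HH s a k (1 / (a k + z)) +
      (-1) ^ k * ((((dn a k (1 / (a k + z)))⁻¹ : ℝ) : ℂ) ^ s * hh s (1 / (a k + z)))

lemma F_iter {s : ℂ} (hs0 : 0 < s.re) (hs1 : s.re < 1) {a : ℕ → ℕ} (ha : ∀ j, 1 ≤ a j) (k : ℕ) :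
    ∀ {z : ℝ}, 0 < z → Slow z → F s (ph a k z) = HH s a k z + (-1) ^ k * ((((dn a k z)⁻¹ : ℝ) : ℂ) ^ s * F s z) := by
  induction k with
  | zero => intro z h0 hz; simp [ph, dn, pp, qq, HH]
  | succ k ih =>
    intro z h0 hz
    have hw := step_mem ha k h0
    rw [ph_succ ha k h0.le, ih hw.1 (slow_step h0 hz (ha k)), F_step hs0 hs1 h0 hz (ha k)]
    simp only [HH]
    have hd := dn_pos ha k hw.1.le
    have e : ((((dn a (k + 1) z)⁻¹ : ℝ) : ℂ)) ^ s =
        ((((dn a k (1 / (a k + z)))⁻¹ : ℝ) : ℂ)) ^ s * ((1 / (a k + z) : ℝ) : ℂ) ^ s := by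
      rw [← Complex.mul_cpow_ofReal_nonneg (by positivity) hw.1.le, ← Complex.ofReal_mul]
      congr 2
      rw [dn_succ ha k h0.le, mul_inv, one_div]
    rw [e, pow_succ]
    ring

end

end Pool.Agent.H313.FD
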