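import Pool.Agent.H313.FD.A6

/-!
# Oscillation of the partial sums of the iterated functional equation on a cylinder
-/

set_option autoImplicit false

namespace Pool.Agent.H313.FD

open MeasureTheory Filter Topology Set
open Pool.Agent.Q120.FA (ps S E Mt)

noncomputable section

lemma le_rpow_self {x β : ℝ} (h0 : 0 ≤ x) (h1 : x ≤ 1) (hβ : β ≤ 1) (hβ0 : 0 < β) : x ≤ x ^ β := by
  rcases eq_or_lt_of_le h0 with rfl | h
  · rw [Real.zero_rpow hβ0.ne']
  · calc x = x ^ (1:ℝ) := (Real.rpow_one x).symm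
      _ ≤ x ^ β := Real.rpow_le_rpow_of_exponent_ge h h1 hβ

set_option maxHeartbeats 1000000 in
/-- the new term of the recursion: bound for the oscillation -/
lemma term_osc {s : ℂ} (hs0 : 0 < s.re) (hs1 : s.re < 1) :
    ∃ C : ℝ, 0 < C ∧ ∀ a : ℕ → ℕ, (∀ j, 1 ≤ a j) → ∀ k : ℕ, ∀ z z' : ℝ, 0 < z → z < 1 → 0 < z' → z' < 1 →
      ‖(((dn a k (1 / (a k + z)))⁻¹ : ℝ) : ℂ) ^ s * hh s (1 / (a k + z)) -
        (((dn a k (1 / (a k + z')))⁻¹ : ℝ) : ℂ) ^ s * hh s (1 / (a k + z'))‖ ≤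
        C * (dn a (k + 1) z)⁻¹ ^ s.re * |z - z'| ^ s.re := by
  obtain ⟨C1, hC1, hosc⟩ := hh_osc hs0 hs1
  obtain ⟨C2, hC2, hup⟩ := hh_upper hs0 hs1
  refine ⟨3 * C1 + 4 * ‖s‖ * C2 + 1, by positivity, fun a ha k z z' hz0 hz1 hz0' hz1' => ?_⟩
  have ha' : (1:ℝ) ≤ a k := by exact_mod_cast ha k
  have hw := step_mem ha k hz0
  have hw' := step_mem ha k hz0'
  obtain ⟨q1, q2, q3, -, -⟩ := qq_prop ha k
  set w := 1 / ((a k : ℝ) + z) with hwdef
  set w' := 1 / ((a k : ℝ) + z') with hwdef'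
  obtain ⟨w0, w1⟩ := hw
  obtain ⟨w0', w1'⟩ := hw'
  have hD := dn_pos ha k w0.le
  have hD' := dn_pos ha k w0'.le
  have hDs := dn_succ ha k hz0.le
  rw [← hwdef] at hDs
  set β := s.re with hβ
  set P := (dn a k w)⁻¹ with hP
  set P' := (dn a k w')⁻¹ with hP'
  have P0 : 0 < P := by positivity
  have P0' : 0 < P' := by positivity
  have hPw : (dn a (k + 1) z)⁻¹ = P * w := by
    rw [hDs, hP, hwdef, mul_inv, one_div]
  set d := |z - z'| with hd
  have d0 : 0 ≤ d := abs_nonneg _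
  have d1 : d ≤ 1 := by rw [hd, abs_le]; constructor <;> linarith
  have hdβ : d ≤ d ^ β := le_rpow_self d0 d1 hs1.le hs0
  have hww : |w' - w| = w * w' * d := by
    have e : w' - w = w * w' * (z - z') := by
      rw [hwdef, hwdef']
      field_simp
      ring
    rw [e, abs_mul, abs_of_pos (by positivity : 0 < w * w')]
  have hw2 : w ≤ 2 * w' := by
    rw [hwdef, hwdef', mul_one_div, div_le_div_iff₀ (by positivity) (by positivity)]
    nlinarith
  have hw2' : w' ≤ 2 * w := by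
    rw [hwdef, hwdef', mul_one_div, div_le_div_iff₀ (by positivity) (by positivity)]
    nlinarith
  -- first part
  have h1 : ‖hh s w - hh s w'‖ ≤ 3 * C1 * w ^ β * d ^ β := by
    rw [norm_sub_rev]
    refine (hosc w w' w0 w1 w0' w1' hw2 hw2').trans ?_
    have e1 : w ^ (β - 2) * |w' - w| ≤ 2 * w ^ β * d := by
      rw [hww]
      have e2 : w ^ (β - 2) * w * w = w ^ β := by
        rw [mul_assoc, ← pow_two, ← Real.rpow_natCast, ← Real.rpow_add w0]
        congr 1
        push_cast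
        ring
      have e3 : w ^ (β - 2) * w * w' ≤ w ^ (β - 2) * w * (2 * w) := by
        apply mul_le_mul_of_nonneg_left hw2'
        positivity
      calc w ^ (β - 2) * (w * w' * d) = (w ^ (β - 2) * w * w') * d := by ring
        _ ≤ (w ^ (β - 2) * w * (2 * w)) * d := mul_le_mul_of_nonneg_right e3 d0
        _ = 2 * (w ^ (β - 2) * w * w) * d := by ring
        _ = _ := by rw [e2]
    have e4 : |w' - w| ^ β ≤ w ^ β * d ^ β := by
      rw [hww, Real.mul_rpow (by positivity) d0]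
      apply mul_le_mul_of_nonneg_right _ (by positivity)
      refine Real.rpow_le_rpow (by positivity) ?_ hs0.le
      exact mul_le_of_le_one_right w0.le w1'.le
    have e5 : 2 * w ^ β * d ≤ 2 * w ^ β * d ^ β := mul_le_mul_of_nonneg_left hdβ (by positivity)
    calc C1 * (w ^ (β - 2) * |w' - w| + |w' - w| ^ β) ≤ C1 * (2 * w ^ β * d ^ β + w ^ β * d ^ β) :=
          mul_le_mul_of_nonneg_left (add_le_add (e1.trans e5) e4) hC1.le
      _ = _ := by ring
  -- second part
  have hPP : P ≤ 2 * P' := by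
    rw [hP, hP', ← div_eq_mul_inv, inv_eq_one_div, div_le_div_iff₀ (by positivity) (by positivity)]
    unfold dn
    nlinarith
  have h2 := cpow_diff' (c := s) hs1.le (by linarith) P0 P0' hPP
  have h3 : |P' - P| ≤ P * (w * w' * d) := by
    have e : P' - P = P * (P' * (qq a k).2) * (w - w') := by
      rw [hP, hP']
      have e1 : dn a k w - dn a k w' = (qq a k).2 * (w - w') := by unfold dn; ring
      have e2 : (dn a k w')⁻¹ - (dn a k w)⁻¹ = (dn a k w)⁻¹ * (dn a k w')⁻¹ * (dn a k w - dn a k w') := by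
        field_simp
      rw [e2, e1]
      ring
    have e3 : P' * (qq a k).2 ≤ 1 := by
      rw [hP', inv_mul_le_iff₀ (by positivity)]
      unfold dn
      nlinarith
    rw [e, abs_mul, abs_mul, abs_of_pos P0, abs_of_nonneg (by positivity : 0 ≤ P' * (qq a k).2), abs_sub_comm, hww]
    have h9 : 0 ≤ w * w' * d := by positivity
    rw [mul_assoc]
    exact mul_le_mul_of_nonneg_left (mul_le_of_le_one_left h9 e3) P0.le
  have h4 : ‖(P : ℂ) ^ s - (P' : ℂ) ^ s‖ ≤ 4 * ‖s‖ * P ^ β * (w * w' * d) := by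
    rw [norm_sub_rev]
    refine h2.trans ?_
    have e : P ^ (β - 1) * P = P ^ β := by
      rw [Real.rpow_sub_one P0.ne']
      field_simp
    calc 4 * ‖s‖ * P ^ (β - 1) * |P' - P| ≤ 4 * ‖s‖ * P ^ (β - 1) * (P * (w * w' * d)) :=
          mul_le_mul_of_nonneg_left h3 (by positivity)
      _ = 4 * ‖s‖ * (P ^ (β - 1) * P) * (w * w' * d) := by ring
      _ = _ := by rw [e]
  have h5 := hup w' w0' w1'
  have h6 : ‖((P : ℂ) ^ s - (P' : ℂ) ^ s) * hh s w'‖ ≤ 4 * ‖s‖ * C2 * (P ^ β * w ^ β * d ^ β) := by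
    rw [norm_mul]
    have e1 : w' ^ (β - 1) * w' = w' ^ β := by
      rw [Real.rpow_sub_one w0'.ne']
      field_simp
    have e2 : w' ^ β ≤ 1 := Real.rpow_le_one w0'.le w1'.le hs0.le
    have e3 : w ≤ w ^ β := le_rpow_self w0.le w1.le hs1.le hs0
    have e4 : w * w' ^ β * d ≤ w ^ β * 1 * d ^ β := by
      apply mul_le_mul (mul_le_mul e3 e2 (by positivity) (by positivity)) hdβ d0 (by positivity)
    calc ‖(P : ℂ) ^ s - (P' : ℂ) ^ s‖ * ‖hh s w'‖ ≤ (4 * ‖s‖ * P ^ β * (w * w' * d)) * (C2 * w' ^ (β - 1)) :=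
          mul_le_mul h4 h5 (norm_nonneg _) (by positivity)
      _ = 4 * ‖s‖ * C2 * P ^ β * (w * (w' ^ (β - 1) * w') * d) := by ring
      _ = 4 * ‖s‖ * C2 * P ^ β * (w * w' ^ β * d) := by rw [e1]
      _ ≤ 4 * ‖s‖ * C2 * P ^ β * (w ^ β * 1 * d ^ β) := mul_le_mul_of_nonneg_left e4 (by positivity)
      _ = _ := by ring
  have h7 : ‖(P : ℂ) ^ s * (hh s w - hh s w')‖ ≤ 3 * C1 * (P ^ β * w ^ β * d ^ β) := by
    rw [norm_mul, Complex.norm_cpow_eq_rpow_re_of_pos P0]
    calc P ^ β * ‖hh s w - hh s w'‖ ≤ P ^ β * (3 * C1 * w ^ β * d ^ β) := mul_le_mul_of_nonneg_left h1 (by positivity)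
      _ = _ := by ring
  have e : (P : ℂ) ^ s * hh s w - (P' : ℂ) ^ s * hh s w' =
      (P : ℂ) ^ s * (hh s w - hh s w') + ((P : ℂ) ^ s - (P' : ℂ) ^ s) * hh s w' := by ring
  rw [e, hPw, Real.mul_rpow P0.le w0.le]
  refine (norm_add_le _ _).trans ?_
  have h8 : 0 ≤ P ^ β * w ^ β * d ^ β := by positivity
  calc _ ≤ 3 * C1 * (P ^ β * w ^ β * d ^ β) + 4 * ‖s‖ * C2 * (P ^ β * w ^ β * d ^ β) := add_le_add h7 h6
    _ ≤ (3 * C1 + 4 * ‖s‖ * C2 + 1) * (P ^ β * w ^ β * d ^ β) := by nlinarith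
    _ = _ := by ring

/-- **The oscillation bound.** -/
lemma HH_osc {s : ℂ} (hs0 : 0 < s.re) (hs1 : s.re < 1) :
    ∃ V : ℝ, 0 < V ∧ ∀ a : ℕ → ℕ, (∀ j, 1 ≤ a j) → ∀ k : ℕ, ∀ z z' : ℝ, 0 < z → z < 1 → 0 < z' → z' < 1 →
      ‖HH s a k z - HH s a k z'‖ ≤ V * (dn a k z)⁻¹ ^ s.re * |z - z'| ^ s.re * (1 + z') ^ (-s.re) := by
  obtain ⟨C, hC, hterm⟩ := term_osc hs0 hs1
  set β := s.re with hβ
  have hγ : (2/3 : ℝ) ^ β < 1 := Real.rpow_lt_one (by norm_num) (by norm_num) hs0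
  set η := (2:ℝ) ^ (-β) * (1 - (2/3 : ℝ) ^ β) with hη
  have hη0 : 0 < η := mul_pos (by positivity) (by linarith)
  refine ⟨C / η, by positivity, fun a ha k => ?_⟩
  induction k with
  | zero =>
    intro z z' hz0 hz1 hz0' hz1'
    have e0 : HH s a 0 z - HH s a 0 z' = 0 := by simp [HH]
    have e1 : dn a 0 z = 1 := by simp [dn, qq]
    rw [e0, norm_zero, e1]
    positivity
  | succ k ih =>
    intro z z' hz0 hz1 hz0' hz1'
    have ha' : (1:ℝ) ≤ a k := by exact_mod_cast ha k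
    have hw := step_mem ha k hz0
    have hw' := step_mem ha k hz0'
    have h1 := ih _ _ hw.1 hw.2 hw'.1 hw'.2
    have h2 := hterm a ha k z z' hz0 hz1 hz0' hz1'
    have hD := dn_pos ha k hw.1.le
    have hDs := dn_succ ha k hz0.le
    set w := 1 / ((a k : ℝ) + z) with hwdef
    set w' := 1 / ((a k : ℝ) + z') with hwdef'
    obtain ⟨w0, w1⟩ := hw
    obtain ⟨w0', w1'⟩ := hw'
    set d := |z - z'| with hd
    have d0 : 0 ≤ d := abs_nonneg _
    have hPw : (dn a (k + 1) z)⁻¹ = (dn a k w)⁻¹ * w := by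
      rw [hDs, hwdef, mul_inv, one_div, inv_eq_one_div]
    have hww : |w - w'| = w * w' * d := by
      have e : w - w' = w * w' * (z' - z) := by
        rw [hwdef, hwdef']
        field_simp
        ring
      rw [e, abs_mul, abs_of_pos (by positivity : 0 < w * w'), hd, abs_sub_comm z z']
    have e : HH s a (k + 1) z - HH s a (k + 1) z' = (HH s a k w - HH s a k w') +
        (-1) ^ k * ((((dn a k w)⁻¹ : ℝ) : ℂ) ^ s * hh s w - (((dn a k w')⁻¹ : ℝ) : ℂ) ^ s * hh s w') := by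
      simp only [HH]
      rw [← hwdef, ← hwdef']
      ring
    rw [e]
    refine (norm_add_le _ _).trans ?_
    rw [norm_mul, norm_pow, norm_neg, norm_one, one_pow, one_mul]
    have hP0 : 0 < (dn a k w)⁻¹ := by positivity
    -- the contracted part
    have h3 : C / η * (dn a k w)⁻¹ ^ β * |w - w'| ^ β * (1 + w') ^ (-β) ≤
        C / η * (dn a (k + 1) z)⁻¹ ^ β * d ^ β * ((1 + z') ^ (-β) - η) := by
      have e1 : |w - w'| ^ β = w ^ β * w' ^ β * d ^ β := by
        rw [hww, Real.mul_rpow (by positivity) d0, Real.mul_rpow w0.le w0'.le]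
      have e2 : w' ^ β * (1 + w') ^ (-β) = (a k + z' + 1) ^ (-β) := by
        have e3 : w' = (a k + z')⁻¹ := by rw [hwdef', one_div]
        rw [Real.rpow_neg (by positivity), ← Real.inv_rpow (by positivity), ← Real.mul_rpow (by positivity) (by positivity),
          Real.rpow_neg (by positivity), ← Real.inv_rpow (by positivity)]
        congr 1
        rw [e3]
        field_simp
      have e4 : (a k + z' + 1) ^ (-β) ≤ (1 + z') ^ (-β) - η := by
        have e5 : ((a k : ℝ) + z' + 1) ^ (-β) ≤ (2 + z') ^ (-β) := by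
          rw [Real.rpow_neg (by positivity), Real.rpow_neg (by positivity)]
          exact inv_anti₀ (by positivity) (Real.rpow_le_rpow (by positivity) (by linarith) hs0.le)
        have e6 : (2 + z') ^ (-β) ≤ (1 + z') ^ (-β) * (2/3 : ℝ) ^ β := by
          rw [Real.rpow_neg (by positivity), Real.rpow_neg (by positivity), ← Real.inv_rpow (by positivity),
            ← Real.inv_rpow (by positivity), ← Real.mul_rpow (by positivity) (by norm_num)]
          refine Real.rpow_le_rpow (by positivity) ?_ hs0.le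
          rw [inv_le_iff_one_le_mul₀ (by positivity)]
          have : (0:ℝ) < 1 + z' := by linarith
          field_simp
          linarith
        have e7 : (2:ℝ) ^ (-β) ≤ (1 + z') ^ (-β) := by
          rw [Real.rpow_neg (by positivity), Real.rpow_neg (by positivity)]
          exact inv_anti₀ (by positivity) (Real.rpow_le_rpow (by positivity) (by linarith) hs0.le)
        have e8 : η ≤ (1 + z') ^ (-β) * (1 - (2/3 : ℝ) ^ β) := mul_le_mul_of_nonneg_right e7 (by linarith)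
        nlinarith
      rw [e1, hPw, Real.mul_rpow hP0.le w0.le]
      calc C / η * (dn a k w)⁻¹ ^ β * (w ^ β * w' ^ β * d ^ β) * (1 + w') ^ (-β)
          = C / η * ((dn a k w)⁻¹ ^ β * w ^ β) * d ^ β * (w' ^ β * (1 + w') ^ (-β)) := by ring
        _ = C / η * ((dn a k w)⁻¹ ^ β * w ^ β) * d ^ β * ((a k + z' + 1) ^ (-β)) := by rw [e2]
        _ ≤ _ := mul_le_mul_of_nonneg_left e4 (by positivity)
    refine (add_le_add (h1.trans h3) h2).trans (le_of_eq ?_)
    have h4 : C / η * η = C := div_mul_cancel₀ _ hη0.ne'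
    linear_combination (-(dn a (k + 1) z)⁻¹ ^ β * d ^ β) * h4

/-- if two points of a cylinder are zeros, the values of `F` at their tails are comparable -/
lemma zero_compare {s : ℂ} (hs0 : 0 < s.re) (hs1 : s.re < 1) :
    ∃ V : ℝ, 0 < V ∧ ∀ a : ℕ → ℕ, (∀ j, 1 ≤ a j) → ∀ k : ℕ, ∀ z z' : ℝ, 0 < z → z < 1 → 0 < z' → z' < 1 →
      Slow z → Slow z' → F s (ph a k z) = 0 → F s (ph a k z') = 0 → ‖F s z‖ ≤ 2 * ‖F s z'‖ + V := by
  obtain ⟨V, hV, hosc⟩ := HH_osc hs0 hs1
  refine ⟨V, hV, fun a ha k z z' hz0 hz1 hz0' hz1' hs hs' e e' => ?_⟩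
  rw [F_iter hs0 hs1 ha k hz0 hs] at e
  rw [F_iter hs0 hs1 ha k hz0' hs'] at e'
  have h1 := hosc a ha k z z' hz0 hz1 hz0' hz1'
  obtain ⟨q1, q2, q3, -, -⟩ := qq_prop ha k
  have hD := dn_pos ha k hz0.le
  have hD' := dn_pos ha k hz0'.le
  set β := s.re with hβ
  set P := (dn a k z)⁻¹ with hP
  set P' := (dn a k z')⁻¹ with hP'
  have P0 : 0 < P := by positivity
  have P0' : 0 < P' := by positivity
  have h2 : P ^ β * ‖F s z‖ = ‖HH s a k z‖ := by
    have : HH s a k z = -((-1) ^ k * ((P : ℂ) ^ s * F s z)) := eq_neg_of_add_eq_zero_left e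
    rw [this, norm_neg, norm_mul, norm_pow, norm_neg, norm_one, one_pow, one_mul, norm_mul,
      Complex.norm_cpow_eq_rpow_re_of_pos P0]
  have h2' : P' ^ β * ‖F s z'‖ = ‖HH s a k z'‖ := by
    have : HH s a k z' = -((-1) ^ k * ((P' : ℂ) ^ s * F s z')) := eq_neg_of_add_eq_zero_left e'
    rw [this, norm_neg, norm_mul, norm_pow, norm_neg, norm_one, one_pow, one_mul, norm_mul,
      Complex.norm_cpow_eq_rpow_re_of_pos P0']
  have h3 : P' ^ β ≤ 2 * P ^ β := by
    have : P' ≤ 2 * P := by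
      rw [hP, hP', ← div_eq_mul_inv, inv_eq_one_div, div_le_div_iff₀ (by positivity) (by positivity)]
      unfold dn
      nlinarith
    calc P' ^ β ≤ (2 * P) ^ β := Real.rpow_le_rpow P0'.le this hs0.le
      _ = 2 ^ β * P ^ β := Real.mul_rpow (by norm_num) P0.le
      _ ≤ 2 ^ (1:ℝ) * P ^ β := mul_le_mul_of_nonneg_right
          (Real.rpow_le_rpow_of_exponent_le (by norm_num) hs1.le) (by positivity)
      _ = _ := by rw [Real.rpow_one]
  have h4 : |z - z'| ^ β * (1 + z') ^ (-β) ≤ 1 := by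
    have e1 : |z - z'| ^ β ≤ 1 := Real.rpow_le_one (abs_nonneg _) (by rw [abs_le]; constructor <;> linarith) hs0.le
    have e2 : (1 + z') ^ (-β) ≤ 1 := Real.rpow_le_one_of_one_le_of_nonpos (by linarith) (by linarith)
    have e3 : 0 ≤ (1 + z') ^ (-β) := by positivity
    nlinarith
  have h5 : ‖HH s a k z‖ ≤ ‖HH s a k z'‖ + V * P ^ β := by
    have e1 : ‖HH s a k z‖ ≤ ‖HH s a k z'‖ + ‖HH s a k z - HH s a k z'‖ := by
      have := norm_add_le (HH s a k z') (HH s a k z - HH s a k z')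
      rwa [add_sub_cancel] at this
    have e2 : V * P ^ β * |z - z'| ^ β * (1 + z') ^ (-β) ≤ V * P ^ β := by
      calc V * P ^ β * |z - z'| ^ β * (1 + z') ^ (-β) = V * P ^ β * (|z - z'| ^ β * (1 + z') ^ (-β)) := by ring
        _ ≤ V * P ^ β * 1 := mul_le_mul_of_nonneg_left h4 (by positivity)
        _ = _ := mul_one _
    linarith
  rw [← h2, ← h2'] at h5
  have hPβ : 0 < P ^ β := by positivity
  have h6 : P' ^ β * ‖F s z'‖ ≤ 2 * P ^ β * ‖F s z'‖ := mul_le_mul_of_nonneg_right h3 (norm_nonneg _)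
  have h7 : P ^ β * ‖F s z‖ ≤ P ^ β * (2 * ‖F s z'‖ + V) := by nlinarith
  exact le_of_mul_le_mul_left h7 hPβ

end

end Pool.Agent.H313.FD
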