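import Pool.Agent.H313.FD.A7

/-!
# `F(s, x) ≠ 0` for almost every `x`
-/

set_option autoImplicit false

namespace Pool.Agent.H313.FD

open MeasureTheory Filter Topology Set
open Pool.Agent.Q120.FA (ps S E Mt)
open scoped ENNReal NNReal

noncomputable section

lemma S_meas (N : ℕ) : Measurable (fun x : ℝ => S N x) := by
  unfold S
  refine Finset.measurable_sum _ fun d _ => ?_
  exact ps_meas.comp (measurable_const.mul measurable_id)

lemma S_meas2 : Measurable (fun p : ℝ × ℝ => S ⌊p.2⌋₊ p.1) := by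
  have h1 : Measurable (fun p : ℝ × ℕ => S p.2 p.1) := measurable_from_prod_countable_left fun n => S_meas n
  exact h1.comp (measurable_fst.prodMk (Nat.measurable_floor.comp measurable_snd))

lemma F_meas (s : ℂ) : Measurable (F s) := by
  unfold F mellin
  apply Measurable.const_mul
  have h : StronglyMeasurable (fun p : ℝ × ℝ => (p.2 : ℂ) ^ (-s - 1) • ((S ⌊p.2⌋₊ p.1 : ℝ) : ℂ)) := by
    apply Measurable.stronglyMeasurable
    simp only [smul_eq_mul]
    refine Measurable.mul ?_ (Complex.measurable_ofReal.comp S_meas2)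
    exact (Complex.measurable_ofReal.comp measurable_snd).pow_const _
  exact (h.integral_prod_right' (ν := volume.restrict (Ioi 0))).measurable

/-- an expanding map does not decrease the measure by more than the factor -/
lemma vol_le_of_expand {A : Set ℝ} {f : ℝ → ℝ} {K : ℝ≥0} (h : ∀ u ∈ A, ∀ v ∈ A, |u - v| ≤ K * |f u - f v|) :
    volume A ≤ K * volume (f '' A) := by
  have hinj : InjOn f A := by
    intro u hu v hv huv
    have := h u hu v hv
    rw [huv, sub_self, abs_zero, mul_zero] at this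
    exact sub_eq_zero.1 (abs_nonpos_iff.1 this)
  have hg : LipschitzOnWith K (Function.invFunOn f A) (f '' A) := by
    rw [lipschitzOnWith_iff_dist_le_mul]
    rintro _ ⟨u, hu, rfl⟩ _ ⟨v, hv, rfl⟩
    rw [hinj.leftInvOn_invFunOn hu, hinj.leftInvOn_invFunOn hv, Real.dist_eq, Real.dist_eq]
    exact h u hu v hv
  have h2 := hg.hausdorffMeasure_image_le (d := 1) zero_le_one
  rw [hausdorffMeasure_real, hinj.leftInvOn_invFunOn.image_image] at h2
  simpa using h2

section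
variable {a : ℕ → ℕ} (ha : ∀ j, 1 ≤ a j)
include ha

lemma ph_expand (k : ℕ) {A : Set ℝ} (hA : A ⊆ Ioo 0 1) :
    volume A ≤ ENNReal.ofReal (4 * (qq a k).1 ^ 2) * volume (ph a k '' A) := by
  refine vol_le_of_expand fun u hu v hv => ?_
  have h1 := hA hu
  have h2 := hA hv
  obtain ⟨q1, q2, q3, -, -⟩ := qq_prop ha k
  have hDu := dn_pos ha k h1.1.le
  have hDv := dn_pos ha k h2.1.le
  rw [ph_sub ha k h1.1.le h2.1.le, Real.coe_toNNReal _ (by positivity), ← mul_div_assoc, le_div_iff₀ (by positivity), mul_comm]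
  apply mul_le_mul_of_nonneg_right _ (abs_nonneg _)
  have e1 : dn a k u ≤ 2 * (qq a k).1 := by
    unfold dn
    nlinarith [h1.2, h1.1]
  have e2 : dn a k v ≤ 2 * (qq a k).1 := by
    unfold dn
    nlinarith [h2.2, h2.1]
  calc dn a k u * dn a k v ≤ (2 * (qq a k).1) * (2 * (qq a k).1) := mul_le_mul e1 e2 (by linarith) (by linarith)
    _ = _ := by ring

lemma ph_close (k : ℕ) {z w : ℝ} (hz0 : 0 < z) (hz1 : z < 1) (hw0 : 0 < w) (hw1 : w < 1) :
    |ph a k z - ph a k w| ≤ 1 / (qq a k).1 ^ 2 := by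
  obtain ⟨q1, q2, q3, -, -⟩ := qq_prop ha k
  have e1 : (qq a k).1 ≤ dn a k z := by unfold dn; nlinarith
  have e2 : (qq a k).1 ≤ dn a k w := by unfold dn; nlinarith
  rw [ph_sub ha k hz0.le hw0.le]
  apply div_le_div₀ zero_le_one _ (by positivity) _
  · rw [abs_le]; constructor <;> linarith
  · rw [pow_two]
    exact mul_le_mul e1 e2 (by linarith) (by linarith)

end

/-- the tails of the continued fraction -/
def tl (x : ℝ) : ℕ → ℝ
  | 0 => x
  | k + 1 => Int.fract (1 / tl x k)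

/-- the digits of the continued fraction -/
def dg (x : ℝ) (k : ℕ) : ℕ := ⌊1 / tl x k⌋₊

lemma tl_prop {x : ℝ} (h0 : 0 < x) (h1 : x < 1) (hirr : Irrational x) (k : ℕ) :
    0 < tl x k ∧ tl x k < 1 ∧ Irrational (tl x k) := by
  induction k with
  | zero => exact ⟨h0, h1, hirr⟩
  | succ k ih =>
    obtain ⟨i0, i1, i2⟩ := ih
    have h3 : Irrational (1 / tl x k) := by rw [one_div]; exact i2.inv
    have h4 : Irrational (Int.fract (1 / tl x k)) := by
      unfold Int.fract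
      exact h3.sub_intCast _
    refine ⟨lt_of_le_of_ne (Int.fract_nonneg _) (fun h => ?_), Int.fract_lt_one _, h4⟩
    apply h4
    exact ⟨0, by push_cast; exact h⟩

lemma dg_pos {x : ℝ} (h0 : 0 < x) (h1 : x < 1) (hirr : Irrational x) (k : ℕ) : 1 ≤ dg x k := by
  obtain ⟨i0, i1, -⟩ := tl_prop h0 h1 hirr k
  unfold dg
  rw [Nat.one_le_floor_iff, le_div_iff₀ i0]
  linarith

lemma ph_tl {x : ℝ} (h0 : 0 < x) (h1 : x < 1) (hirr : Irrational x) (k : ℕ) : ph (dg x) k (tl x k) = x := by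
  induction k with
  | zero => simp [ph, dn, pp, qq, tl]
  | succ k ih =>
    obtain ⟨i0, i1, -⟩ := tl_prop h0 h1 hirr k
    obtain ⟨j0, -, -⟩ := tl_prop h0 h1 hirr (k + 1)
    rw [ph_succ (dg_pos h0 h1 hirr) k j0.le]
    have : (dg x k : ℝ) + tl x (k + 1) = 1 / tl x k := by
      have h2 : 0 ≤ 1 / tl x k := by positivity
      show (⌊1 / tl x k⌋₊ : ℝ) + Int.fract (1 / tl x k) = 1 / tl x k
      rw [natCast_floor_eq_intCast_floor h2]
      exact Int.floor_add_fract _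
    rw [this, one_div_one_div]
    exact ih

/-- the branch `v ↦ 1/(a+v)` -/
lemma ae_step {p : ℝ → Prop} (hp : ∀ᵐ x : ℝ, x ∈ Ioo (0:ℝ) 1 → p x) {a : ℕ} (ha : 1 ≤ a) :
    ∀ᵐ v : ℝ, v ∈ Ioo (0:ℝ) 1 → p (1 / (a + v)) := by
  rw [ae_iff] at hp ⊢
  have h1 := ph_expand (a := fun _ => a) (fun _ => ha) 1
    (A := {v | ¬ (v ∈ Ioo (0:ℝ) 1 → p (1 / (a + v)))}) (fun v hv => by
      rw [mem_ofPred_eq, Classical.not_imp] at hv
      exact hv.1)
  refine le_antisymm (h1.trans ?_) bot_le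
  have h2 : ph (fun _ => a) 1 '' {v | ¬ (v ∈ Ioo (0:ℝ) 1 → p (1 / (a + v)))} ⊆ {x | ¬ (x ∈ Ioo (0:ℝ) 1 → p x)} := by
    rintro _ ⟨v, hv, rfl⟩
    rw [mem_ofPred_eq, Classical.not_imp] at hv ⊢
    have e : ph (fun _ => a) 1 v = 1 / (a + v) := by
      rw [ph_succ (a := fun _ => a) (fun _ => ha) 0 hv.1.1.le]
      simp [ph, dn, pp, qq]
    rw [e]
    refine ⟨?_, hv.2⟩
    have := step_mem (a := fun _ => a) (fun _ => ha) 0 hv.1.1
    exact this
  rw [measure_mono_null h2 hp, mul_zero]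

/-- `F(s, ·)` is essentially unbounded. -/
lemma not_ess_bdd {s : ℂ} (hs0 : 0 < s.re) (hs1 : s.re < 1) (B : ℝ) :
    volume {z : ℝ | z ∈ Ioo (0:ℝ) 1 ∧ Slow z ∧ B < ‖F s z‖} ≠ 0 := by
  intro h0
  obtain ⟨c, C, hc, hC, hlow⟩ := hh_lower hs0 hs1
  have hae : ∀ᵐ z : ℝ, z ∈ Ioo (0:ℝ) 1 → (Slow z ∧ ‖F s z‖ ≤ B) := by
    have h1 : ∀ᵐ z : ℝ, ¬ (z ∈ Ioo (0:ℝ) 1 ∧ Slow z ∧ B < ‖F s z‖) := by
      rw [ae_iff]
      simpa only [not_not] using h0
    filter_upwards [h1, ae_slow] with z hz hs hmem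
    refine ⟨hs, ?_⟩
    by_contra hcon
    exact hz ⟨hmem, hs, not_le.1 hcon⟩
  -- choose the digit
  have htop : Tendsto (fun n : ℕ => c * (n : ℝ) ^ (1 - s.re)) atTop atTop :=
    ((tendsto_rpow_atTop (by linarith : 0 < 1 - s.re)).comp tendsto_natCast_atTop_atTop).const_mul_atTop hc
  obtain ⟨a, ha1, ha2⟩ := ((htop.eventually_gt_atTop (C + 2 * B)).and (eventually_ge_atTop 1)).exists
  have hae2 := ae_step hae ha2
  obtain ⟨v, hv⟩ : ∃ v : ℝ, v ∈ Ioo (0:ℝ) 1 ∧ (Slow v ∧ ‖F s v‖ ≤ B) ∧ (Slow (1 / (a + v)) ∧ ‖F s (1 / (a + v))‖ ≤ B) := by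
    by_contra hcon
    push Not at hcon
    have h3 : ∀ᵐ v : ℝ, v ∉ Ioo (0:ℝ) 1 := by
      filter_upwards [hae, hae2] with v h1 h2 hmem
      have := hcon v hmem (h1 hmem) (h2 hmem).1
      exact absurd (h2 hmem).2 (not_le.2 this)
    rw [ae_iff] at h3
    have h4 : volume (Ioo (0:ℝ) 1) = 0 := measure_mono_null (fun z hz => not_not.2 hz) h3
    rw [Real.volume_Ioo] at h4
    norm_num at h4
  obtain ⟨hmem, ⟨hs, hb⟩, hs', hb'⟩ := hv
  have h5 := F_step hs0 hs1 hmem.1 hs ha2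
  have hw := step_mem (a := fun _ => a) (fun _ => ha2) 0 hmem.1
  have h6 : hh s (1 / (a + v)) = F s (1 / (a + v)) + ((1 / (a + v) : ℝ) : ℂ) ^ s * F s v := by
    rw [h5]; ring
  have h7 := hlow _ hw.1 hw.2
  have h8 : ‖hh s (1 / (a + v))‖ ≤ 2 * B := by
    rw [h6]
    refine (norm_add_le _ _).trans ?_
    rw [norm_mul, Complex.norm_cpow_eq_rpow_re_of_pos hw.1]
    have h9 : (1 / ((a : ℝ) + v)) ^ s.re ≤ 1 := Real.rpow_le_one hw.1.le hw.2.le hs0.le
    have h10 := norm_nonneg (F s v)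
    have h11 : (1 / ((a : ℝ) + v)) ^ s.re * ‖F s v‖ ≤ 1 * ‖F s v‖ := mul_le_mul_of_nonneg_right h9 h10
    linarith
  have h12 : (a : ℝ) ^ (1 - s.re) ≤ (1 / ((a : ℝ) + v)) ^ (s.re - 1) := by
    have ha' : (1:ℝ) ≤ a := by exact_mod_cast ha2
    have hv0 := hmem.1
    rw [one_div, Real.inv_rpow (by positivity), ← Real.rpow_neg (by positivity)]
    have : -(s.re - 1) = 1 - s.re := by ring
    rw [this]
    exact Real.rpow_le_rpow (by positivity) (by linarith) (by linarith)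
  have h13 : c * (a : ℝ) ^ (1 - s.re) ≤ c * (1 / ((a : ℝ) + v)) ^ (s.re - 1) := mul_le_mul_of_nonneg_left h12 hc.le
  have h14 : c * (1 / ((a : ℝ) + v)) ^ (s.re - 1) - C ≤ ‖hh s (1 / (a + v))‖ := h7
  linarith

/-- the slow points with `‖F‖ ≤ L` have positive measure for some `L` -/
lemma exists_bdd (s : ℂ) : ∃ L : ℕ, volume {z : ℝ | z ∈ Ioo (0:ℝ) 1 ∧ Slow z ∧ ‖F s z‖ ≤ L} ≠ 0 := by
  by_contra hcon
  push Not at hcon
  have h1 : volume (⋃ L : ℕ, {z : ℝ | z ∈ Ioo (0:ℝ) 1 ∧ Slow z ∧ ‖F s z‖ ≤ L}) = 0 := measure_iUnion_null hcon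
  have h2 : ∀ᵐ z : ℝ, z ∉ Ioo (0:ℝ) 1 := by
    have h3 : ∀ᵐ z : ℝ, z ∉ (⋃ L : ℕ, {z : ℝ | z ∈ Ioo (0:ℝ) 1 ∧ Slow z ∧ ‖F s z‖ ≤ L}) := by
      rw [ae_iff]
      simpa only [not_not, ofPred_mem_eq] using h1
    filter_upwards [h3, ae_slow] with z h4 h5 h6
    apply h4
    obtain ⟨L, hL⟩ := exists_nat_ge ‖F s z‖
    exact mem_iUnion.2 ⟨L, h6, h5, hL⟩
  rw [ae_iff] at h2
  have h4 : volume (Ioo (0:ℝ) 1) = 0 := measure_mono_null (fun z hz => not_not.2 hz) h2
  rw [Real.volume_Ioo] at h4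
  norm_num at h4

/-- at a density point of the zero set, cylinder images of sets of positive measure meet the zero set -/
lemma density_meet {Z : Set ℝ} (hZ : MeasurableSet Z) {x : ℝ} (h0 : 0 < x) (h1 : x < 1) (hirr : Irrational x)
    (hd : Tendsto (fun r => volume (Z ∩ Metric.closedBall x r) / volume (Metric.closedBall x r)) (𝓝[>] 0) (𝓝 1))
    {A : Set ℝ} (hA : A ⊆ Ioo 0 1) (hpos : volume A ≠ 0) :
    ∀ᶠ k : ℕ in atTop, ∃ z ∈ A, ph (dg x) k z ∈ Z := by
  have ha := dg_pos h0 h1 hirr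
  -- the radius
  set r : ℕ → ℝ := fun k => 1 / (qq (dg x) k).1 ^ 2 with hr
  have hr0 : ∀ k, 0 < r k := fun k => by
    have := (qq_prop ha k).1
    simp only [hr]
    positivity
  have hrt : Tendsto r atTop (𝓝[>] 0) := by
    refine tendsto_nhdsWithin_iff.2 ⟨?_, Eventually.of_forall hr0⟩
    have hq : Tendsto (fun k => (qq (dg x) k).1) atTop atTop :=
      tendsto_atTop_mono (fun k => (qq_prop ha k).2.2.2.1) tendsto_natCast_atTop_atTop
    have := (tendsto_pow_atTop (two_ne_zero)).comp hq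
    have h2 := this.inv_tendsto_atTop
    refine h2.congr fun k => ?_
    simp [hr]
  have hlim := hd.comp hrt
  -- finite measure of A
  have hAfin : volume A ≠ ∞ := by
    have : volume A ≤ volume (Ioo (0:ℝ) 1) := measure_mono hA
    refine ne_top_of_le_ne_top ?_ this
    simp
  set η : ℝ := (volume A).toReal / 16 with hη
  have hη0 : 0 < η := by
    have : 0 < (volume A).toReal := ENNReal.toReal_pos hpos hAfin
    positivity
  have hev : ∀ᶠ k : ℕ in atTop, ENNReal.ofReal (1 - η) < volume (Z ∩ Metric.closedBall x (r k)) / volume (Metric.closedBall x (r k)) := by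
    refine hlim.eventually_const_lt ?_
    rw [ENNReal.ofReal_lt_one]
    linarith
  filter_upwards [hev] with k hk
  by_contra hcon
  push Not at hcon
  -- the image misses Z
  have himg : ph (dg x) k '' A ⊆ Metric.closedBall x (r k) \ Z := by
    rintro _ ⟨z, hz, rfl⟩
    refine ⟨?_, hcon z hz⟩
    obtain ⟨t0, t1, -⟩ := tl_prop h0 h1 hirr k
    have := ph_close ha k (hA hz).1 (hA hz).2 t0 t1
    rw [ph_tl h0 h1 hirr k] at this
    rw [Metric.mem_closedBall, Real.dist_eq]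
    exact this
  have hball : volume (Metric.closedBall x (r k)) = ENNReal.ofReal (2 * r k) := Real.volume_closedBall _ _
  have hball0 : volume (Metric.closedBall x (r k)) ≠ 0 := by
    rw [hball]
    have := hr0 k
    simp only [ne_eq, ENNReal.ofReal_eq_zero, not_le]
    positivity
  have hballt : volume (Metric.closedBall x (r k)) ≠ ∞ := by
    rw [hball]
    exact ENNReal.ofReal_ne_top
  have h3 : volume (Metric.closedBall x (r k) \ Z) ≤ ENNReal.ofReal (η * (2 * r k)) := by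
    have h4 : volume (Metric.closedBall x (r k) ∩ Z) + volume (Metric.closedBall x (r k) \ Z) = volume (Metric.closedBall x (r k)) :=
      measure_inter_add_sdiff _ hZ
    rw [ENNReal.lt_div_iff_mul_lt (Or.inl hball0) (Or.inl hballt), inter_comm] at hk
    have h5 : volume (Metric.closedBall x (r k) ∩ Z) ≠ ∞ := ne_top_of_le_ne_top hballt (measure_mono inter_subset_left)
    have h6 : volume (Metric.closedBall x (r k) \ Z) ≠ ∞ := ne_top_of_le_ne_top hballt (measure_mono sdiff_subset)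
    rw [hball] at hk h4
    have hrk := hr0 k
    rw [← ENNReal.toReal_le_toReal h6 ENNReal.ofReal_ne_top, ENNReal.toReal_ofReal (by positivity)]
    have h7 := congrArg ENNReal.toReal h4
    rw [ENNReal.toReal_add h5 h6, ENNReal.toReal_ofReal (by positivity)] at h7
    have h8 : (1 - η) * (2 * r k) ≤ (volume (Metric.closedBall x (r k) ∩ Z)).toReal := by
      rcases le_or_gt 0 (1 - η) with h | h
      · rw [← ENNReal.ofReal_mul h, ENNReal.ofReal_lt_iff_lt_toReal (by positivity) h5] at hk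
        exact hk.le
      · have : 0 ≤ (volume (Metric.closedBall x (r k) ∩ Z)).toReal := ENNReal.toReal_nonneg
        nlinarith
    linarith
  have h9 := (ph_expand ha k hA).trans (mul_le_mul_right ((measure_mono himg).trans h3) _)
  have hq := (qq_prop ha k).1
  rw [← ENNReal.ofReal_mul (by positivity)] at h9
  have h10 : 4 * (qq (dg x) k).1 ^ 2 * (η * (2 * r k)) = 8 * η := by
    simp only [hr]
    field_simp
    ring
  rw [h10] at h9
  have h11 := (ENNReal.toReal_le_toReal hAfin ENNReal.ofReal_ne_top).2 h9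
  rw [ENNReal.toReal_ofReal (by positivity)] at h11
  have : 0 < (volume A).toReal := ENNReal.toReal_pos hpos hAfin
  linarith

/-- **`F(s, x) ≠ 0` for almost every `x ∈ (0,1)`.** -/
theorem F_ne_zero_ae {s : ℂ} (hs0 : 0 < s.re) (hs1 : s.re < 1) : ∀ᵐ x : ℝ, x ∈ Ioo (0:ℝ) 1 → F s x ≠ 0 := by
  set Z : Set ℝ := {x | x ∈ Ioo (0:ℝ) 1 ∧ F s x = 0} with hZdef
  have hZ : MeasurableSet Z := measurableSet_Ioo.inter ((F_meas s) (measurableSet_singleton 0))
  suffices hvol : volume Z = 0 by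
    rw [ae_iff]
    refine measure_mono_null (fun x hx => ?_) hvol
    rw [mem_ofPred_eq, Classical.not_imp, not_not] at hx
    exact hx
  by_contra hne
  have hdens := Besicovitch.ae_tendsto_measure_inter_div (volume : Measure ℝ) Z
  have hex : ∃ x ∈ Z, Slow x ∧ Tendsto (fun r => volume (Z ∩ Metric.closedBall x r) / volume (Metric.closedBall x r)) (𝓝[>] 0) (𝓝 1) := by
    by_contra hcon
    push Not at hcon
    apply hne
    rw [ae_restrict_iff' hZ] at hdens
    have h3 : ∀ᵐ x : ℝ, x ∉ Z := by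
      filter_upwards [hdens, ae_slow] with x h1 h2 h4
      exact hcon x h4 h2 (h1 h4)
    rw [ae_iff] at h3
    simpa using h3
  obtain ⟨x, hxZ, hxs, hxd⟩ := hex
  obtain ⟨V, hV, hcomp⟩ := zero_compare hs0 hs1
  obtain ⟨L, hL⟩ := exists_bdd s
  have hB := not_ess_bdd hs0 hs1 (2 * L + V)
  have e1 := density_meet hZ hxZ.1.1 hxZ.1.2 hxs.1 hxd (fun z hz => hz.1) hL
  have e2 := density_meet hZ hxZ.1.1 hxZ.1.2 hxs.1 hxd (fun z hz => hz.1) hB
  obtain ⟨k, ⟨z', hz', hz'Z⟩, ⟨z, hz, hzZ⟩⟩ := (e1.and e2).exists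
  obtain ⟨m', s', b'⟩ := hz'
  obtain ⟨m, s1, b⟩ := hz
  have := hcomp _ (dg_pos hxZ.1.1 hxZ.1.2 hxs.1) k z z' m.1 m.2 m'.1 m'.2 s1 s' hzZ.2 hz'Z.2
  linarith

end

end Pool.Agent.H313.FD
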