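import Pool.Agent.H313.FD.A3
import Pool.Graph.R_pool_sql_team_seeded_3997aac3.Q297.ChLandau

/-!
# Landau's oscillation argument for a Mellin transform with denominator `ζ(s)`
-/

set_option autoImplicit false

namespace Pool.Agent.H313.FD

open MeasureTheory Filter Topology Set ProbabilityTheory
open Pool.Agent.H295R2 (Zs Zs_differentiable Zs_eq_Zt Zt Hf Hf_eq Zs_ne_zero_of_one_le halfplane_open halfplane_preconnected)
open scoped ENNReal NNReal

noncomputable section

lemma Zs_real_ne_zero {σ : ℝ} (h0 : 0 < σ) : Zs (σ : ℂ) ≠ 0 := by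
  rcases le_or_gt 1 σ with h | h
  · exact Zs_ne_zero_of_one_le (by simpa using h)
  · intro hz
    rw [Zs_eq_Zt (by simpa using h0)] at hz
    unfold Zt at hz
    have e : Hf (σ : ℂ) = ((∫ t in Ioi (1:ℝ), Int.fract t * t ^ (-(σ + 1)) : ℝ) : ℂ) := by
      rw [Hf_eq, ← integral_complex_ofReal]
      refine setIntegral_congr_fun measurableSet_Ioi fun t ht => ?_
      have ht0 : (0:ℝ) ≤ t := le_trans zero_le_one (le_of_lt ht)
      rw [Complex.ofReal_mul, Complex.ofReal_cpow ht0]
      push_cast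
      rfl
    have hI : 0 ≤ ∫ t in Ioi (1:ℝ), Int.fract t * t ^ (-(σ + 1)) := by
      refine setIntegral_nonneg measurableSet_Ioi fun t ht => ?_
      have ht0 : (0:ℝ) ≤ t := le_trans zero_le_one (le_of_lt ht)
      exact mul_nonneg (Int.fract_nonneg _) (Real.rpow_nonneg ht0 _)
    rw [e] at hz
    have h2 : ((σ - σ * (σ - 1) * (∫ t in Ioi (1:ℝ), Int.fract t * t ^ (-(σ + 1))) : ℝ) : ℂ) = 0 := by
      push_cast
      exact_mod_cast hz
    have h3 := Complex.ofReal_eq_zero.1 h2
    have h4 : 0 ≤ σ * (1 - σ) * (∫ t in Ioi (1:ℝ), Int.fract t * t ^ (-(σ + 1))) :=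
      mul_nonneg (mul_nonneg h0.le (by linarith)) hI
    nlinarith

lemma mellin_diff {f : ℝ → ℝ} (hm : Measurable f) {C δ : ℝ} (h0 : ∀ t, t < 1 → f t = 0)
    (hC : ∀ t, 1 ≤ t → |f t| ≤ C * t ^ δ) {s : ℂ} (hs : δ < s.re) :
    DifferentiableAt ℂ (fun s => mellin (fun t => ((f t : ℝ) : ℂ)) (-s)) s := by
  have h1 : DifferentiableAt ℂ (mellin (fun t => ((f t : ℝ) : ℂ))) (-s) := by
    refine mellin_differentiableAt_of_isBigO_rpow (a := -δ) (b := -s.re - 1) ?_ ?_ ?_ ?_ ?_
    · have hloc : LocallyIntegrableOn (fun t : ℝ => |C| * (t ^ δ + 1)) (Ioi 0) := by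
        refine ContinuousOn.locallyIntegrableOn ?_ measurableSet_Ioi
        refine continuousOn_const.mul (ContinuousOn.add ?_ continuousOn_const)
        intro t ht
        have ht0 : (0:ℝ) < t := ht
        exact (Real.continuousAt_rpow_const _ _ (Or.inl ht0.ne')).continuousWithinAt
      refine hloc.mono (Complex.measurable_ofReal.comp hm).aestronglyMeasurable (Eventually.of_forall fun t => ?_)
      show ‖((f t : ℝ) : ℂ)‖ ≤ _
      rw [Complex.norm_real, Real.norm_eq_abs]
      rcases lt_or_ge t 1 with h | h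
      · rw [h0 t h, abs_zero]
        exact norm_nonneg _
      · have hp : 0 ≤ |C| * (t ^ δ + 1) := by positivity
        rw [Real.norm_of_nonneg hp]
        refine (hC t h).trans ?_
        have h1 : C * t ^ δ ≤ |C| * t ^ δ := mul_le_mul_of_nonneg_right (le_abs_self C) (by positivity)
        have h2 : 0 ≤ |C| := abs_nonneg C
        nlinarith
    · refine Asymptotics.IsBigO.of_bound C ?_
      filter_upwards [eventually_ge_atTop (1:ℝ)] with t ht
      have ht0 : (0:ℝ) < t := by linarith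
      rw [Complex.norm_real, Real.norm_eq_abs, neg_neg, Real.norm_of_nonneg (by positivity)]
      exact hC t ht
    · simpa using hs
    · refine Asymptotics.IsBigO.of_bound 1 ?_
      have h2 : ∀ᶠ t : ℝ in 𝓝[>] 0, t < 1 := nhdsWithin_le_nhds (Iio_mem_nhds one_pos)
      filter_upwards [h2] with t ht
      rw [h0 t ht, Complex.ofReal_zero, norm_zero]
      positivity
    · simp
  exact h1.comp s differentiableAt_id.neg

/-- the measure with density `K(t)/t` beyond `t₀` -/
def mK (K : ℝ → ℝ) (t0 : ℝ) : Measure ℝ := (volume.restrict (Ioi t0)).withDensity (fun t => ENNReal.ofReal (K t / t))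

lemma cexp_log {t : ℝ} (ht : 0 < t) (z : ℂ) : Complex.exp (z * ((-Real.log t : ℝ) : ℂ)) = (t : ℂ) ^ (-z) := by
  have htc : (t : ℂ) ≠ 0 := by exact_mod_cast ht.ne'
  rw [Complex.cpow_def_of_ne_zero htc, ← Complex.ofReal_log ht.le]
  congr 1
  push_cast
  ring

lemma rexp_log {t : ℝ} (ht : 0 < t) (z : ℝ) : Real.exp (z * (-Real.log t)) = t ^ (-z) := by
  rw [Real.rpow_def_of_pos ht]
  congr 1
  ring

section
variable {K : ℝ → ℝ} (hK : Measurable K) {t0 : ℝ} (ht0 : 0 < t0) (hpos : ∀ t, t0 < t → 0 ≤ K t)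
include hK ht0 hpos

omit ht0 hpos in
lemma dens_meas : Measurable (fun t => ENNReal.ofReal (K t / t)) :=
  ENNReal.measurable_ofReal.comp (hK.div measurable_id)

lemma mK_int_iff (σ : ℝ) : σ ∈ integrableExpSet (fun t : ℝ => -Real.log t) (mK K t0) ↔
    IntegrableOn (fun t => K t * t ^ (-σ - 1)) (Ioi t0) := by
  show Integrable (fun t => Real.exp (σ * (-Real.log t))) (mK K t0) ↔ _
  unfold mK
  rw [integrable_withDensity_iff_integrable_smul' (dens_meas hK) (Eventually.of_forall fun t => ENNReal.ofReal_lt_top)]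
  refine integrable_congr ?_
  refine (ae_restrict_mem measurableSet_Ioi).mono fun t ht => ?_
  have ht' : t0 < t := ht
  have h1 : 0 < t := ht0.trans ht'
  simp only
  rw [ENNReal.toReal_ofReal (div_nonneg (hpos t ht') h1.le), rexp_log h1, smul_eq_mul, Real.rpow_sub_one h1.ne']
  ring

lemma mK_cmgf (z : ℂ) : complexMGF (fun t : ℝ => -Real.log t) (mK K t0) z =
    ∫ t in Ioi t0, ((K t : ℝ) : ℂ) * (t : ℂ) ^ (-z - 1) := by
  unfold complexMGF mK
  rw [integral_withDensity_eq_integral_toReal_smul (dens_meas hK) (Eventually.of_forall fun t => ENNReal.ofReal_lt_top)]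
  refine setIntegral_congr_fun measurableSet_Ioi fun t ht => ?_
  have ht' : t0 < t := ht
  have h1 : 0 < t := ht0.trans ht'
  have htc : (t : ℂ) ≠ 0 := by exact_mod_cast h1.ne'
  simp only
  rw [ENNReal.toReal_ofReal (div_nonneg (hpos t ht') h1.le), cexp_log h1, Complex.real_smul, Complex.cpow_sub _ _ htc,
    Complex.cpow_one]
  push_cast
  ring

end

end

end Pool.Agent.H313.FD
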