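import Pool.Agent.H313.FD.B1

/-!
# Landau's oscillation argument: the main step
-/

set_option autoImplicit false
set_option maxHeartbeats 1000000

namespace Pool.Agent.H313.FD

open MeasureTheory Filter Topology Set ProbabilityTheory
open Pool.Agent.H295R2 (Zs Zs_differentiable Zs_eq_Zt Zt Hf Hf_eq Zs_ne_zero_of_one_le halfplane_open halfplane_preconnected)
open scoped ENNReal NNReal

noncomputable section

/-- cut-off -/
def cut (T : ℝ → ℝ) (t0 t : ℝ) : ℝ := if t ≤ t0 then T t else 0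

lemma cut_meas {T : ℝ → ℝ} (hm : Measurable T) (t0 : ℝ) : Measurable (cut T t0) :=
  Measurable.ite measurableSet_Iic hm measurable_const

lemma cut_bound {T : ℝ → ℝ} {C A t0 : ℝ} (ht0 : 1 ≤ t0) (hA : 0 ≤ A) (hC : ∀ t, 1 ≤ t → |T t| ≤ C * t ^ A) (t : ℝ) (ht : 1 ≤ t) :
    |cut T t0 t| ≤ (|C| * t0 ^ A * t0) * t ^ (-1 : ℝ) := by
  unfold cut
  have h0 : 0 < t := by linarith
  split_ifs with h
  · have h1 := hC t ht
    have h2 : t ^ A ≤ t0 ^ A := Real.rpow_le_rpow h0.le h hA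
    have h3 : C * t ^ A ≤ |C| * t0 ^ A := mul_le_mul (le_abs_self C) h2 (by positivity) (abs_nonneg _)
    have h4 : 1 ≤ t0 * t ^ (-1 : ℝ) := by
      rw [Real.rpow_neg_one, ← div_eq_mul_inv, le_div_iff₀ h0]
      linarith
    have h5 : 0 ≤ |C| * t0 ^ A := by positivity
    calc |T t| ≤ |C| * t0 ^ A * 1 := by linarith
      _ ≤ |C| * t0 ^ A * (t0 * t ^ (-1:ℝ)) := mul_le_mul_of_nonneg_left h4 h5
      _ = _ := by ring
  · rw [abs_zero]
    positivity

lemma mellin_cut {T : ℝ → ℝ} {t0 : ℝ} (ht0 : 0 < t0) {z : ℂ}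
    (hconv : MellinConvergent (fun t => ((T t : ℝ) : ℂ)) (-z)) :
    ∫ t in Ioi t0, ((T t : ℝ) : ℂ) * (t : ℂ) ^ (-z - 1) =
      mellin (fun t => ((T t : ℝ) : ℂ)) (-z) - mellin (fun t => ((cut T t0 t : ℝ) : ℂ)) (-z) := by
  have h1 : IntegrableOn (fun t : ℝ => (t : ℂ) ^ (-z - 1) • ((T t : ℝ) : ℂ)) (Ioi 0) := hconv
  have hu : Ioi (0:ℝ) = Ioc 0 t0 ∪ Ioi t0 := (Ioc_union_Ioi_eq_Ioi ht0.le).symm
  have e1 : mellin (fun t => ((T t : ℝ) : ℂ)) (-z) =
      (∫ t in Ioc 0 t0, (t : ℂ) ^ (-z - 1) • ((T t : ℝ) : ℂ)) + ∫ t in Ioi t0, (t : ℂ) ^ (-z - 1) • ((T t : ℝ) : ℂ) := by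
    unfold mellin
    rw [hu, setIntegral_union (Ioc_disjoint_Ioi le_rfl) measurableSet_Ioi (h1.mono_set (by rw [hu]; exact subset_union_left))
      (h1.mono_set (by rw [hu]; exact subset_union_right))]
  have e2 : mellin (fun t => ((cut T t0 t : ℝ) : ℂ)) (-z) = ∫ t in Ioc 0 t0, (t : ℂ) ^ (-z - 1) • ((T t : ℝ) : ℂ) := by
    unfold mellin
    have : ∀ t : ℝ, (t : ℂ) ^ (-z - 1) • ((cut T t0 t : ℝ) : ℂ) =
        (Iic t0).indicator (fun t : ℝ => (t : ℂ) ^ (-z - 1) • ((T t : ℝ) : ℂ)) t := by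
      intro t
      unfold cut
      by_cases h : t ≤ t0
      · rw [if_pos h, indicator_of_mem (show t ∈ Iic t0 from h)]
      · rw [if_neg h, indicator_of_notMem (show t ∉ Iic t0 from h)]
        simp
    simp_rw [this]
    rw [setIntegral_indicator measurableSet_Iic, Ioi_inter_Iic]
  rw [e1, e2, add_sub_cancel_left]
  refine setIntegral_congr_fun measurableSet_Ioi fun t _ => ?_
  simp only [smul_eq_mul]
  ring

theorem osc {T : ℝ → ℝ} (hm : Measurable T) (h0 : ∀ t, t < 1 → T t = 0) {C A : ℝ} (hA : 1 ≤ A)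
    (hC : ∀ t, 1 ≤ t → |T t| ≤ C * t ^ A) {G : ℂ → ℂ} (hG : ∀ s : ℂ, 0 < s.re → DifferentiableAt ℂ G s)
    (hid : ∀ s : ℂ, A < s.re → s * Zs s * mellin (fun t => ((T t : ℝ) : ℂ)) (-s) = (s - 1) * G s)
    {ρ : ℂ} (hρ0 : 0 < ρ.re) (hρ1 : ρ.re < 1) (hZ : Zs ρ = 0) (hGρ : G ρ ≠ 0) :
    ∃ c : ℝ, 0 < c ∧ ∀ t₀ : ℝ, ∃ t : ℝ, t₀ ≤ t ∧ c * t ^ ρ.re < T t := by
  set β := ρ.re with hβ
  have hρ1' : ρ - 1 ≠ 0 := by
    intro h
    have : (ρ - 1).re = 0 := by rw [h]; simp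
    simp at this
    linarith
  have hZβ : Zs (β : ℂ) ≠ 0 := Zs_real_ne_zero hρ0
  have hρβ : ρ - β ≠ 0 := by
    intro h
    apply hZβ
    rw [← sub_eq_zero.1 h]
    exact hZ
  set D := ‖ρ‖ * ‖deriv Zs ρ‖ with hD
  have hD0 : 0 ≤ D := by positivity
  have hN : 0 < ‖ρ - 1‖ * ‖G ρ‖ := mul_pos (norm_pos_iff.2 hρ1') (norm_pos_iff.2 hGρ)
  set c := ‖ρ - 1‖ * ‖G ρ‖ / (2 * (D + 1)) with hc
  have hc0 : 0 < c := by positivity
  have hcD : c * D < ‖ρ - 1‖ * ‖G ρ‖ := by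
    rw [hc, div_mul_eq_mul_div, div_lt_iff₀ (by positivity)]
    nlinarith
  refine ⟨c, hc0, ?_⟩
  by_contra hcon
  push Not at hcon
  obtain ⟨t1, ht1⟩ := hcon
  set t0 := max t1 1 with ht0def
  have ht0 : 1 ≤ t0 := le_max_right _ _
  have ht0' : 0 < t0 := by linarith
  have ht0c : (t0 : ℂ) ≠ 0 := by exact_mod_cast ht0'.ne'
  set K : ℝ → ℝ := fun t => c * t ^ β - T t with hKdef
  have hK : Measurable K := (measurable_const.mul (measurable_id.pow_const _)).sub hm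
  have hpos : ∀ t, t0 < t → 0 ≤ K t := by
    intro t ht
    have := ht1 t ((le_max_left _ _).trans ht.le)
    simp only [hKdef]
    linarith
  set X : ℝ → ℝ := fun t => -Real.log t with hX
  have hXm : Measurable X := Real.measurable_log.neg
  set μ := mK K t0 with hμ
  have hneg : ∀ᵐ t ∂μ, X t ≤ 0 := by
    have h1 : ∀ᵐ t ∂(volume.restrict (Ioi t0)), X t ≤ 0 := by
      refine (ae_restrict_mem measurableSet_Ioi).mono fun t ht => ?_
      have : t0 < t := ht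
      simp only [hX]
      have := Real.log_nonneg (show 1 ≤ t by linarith)
      linarith
    exact (withDensity_absolutelyContinuous _ _).ae_le h1
  -- bounds
  have hKb : ∀ t, 1 ≤ t → |K t| ≤ (c + |C|) * t ^ A := by
    intro t ht
    have h1 : t ^ β ≤ t ^ A := Real.rpow_le_rpow_of_exponent_le ht (by linarith)
    have h2 : 0 < t ^ β := by positivity
    have h3 : C * t ^ A ≤ |C| * t ^ A := mul_le_mul_of_nonneg_right (le_abs_self C) (by positivity)
    have h4 : |c * t ^ β| = c * t ^ β := abs_of_pos (by positivity)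
    simp only [hKdef]
    calc |c * t ^ β - T t| ≤ |c * t ^ β| + |T t| := abs_sub _ _
      _ ≤ c * t ^ A + |C| * t ^ A := by
          rw [h4]
          exact add_le_add (mul_le_mul_of_nonneg_left h1 hc0.le) ((hC t ht).trans h3)
      _ = _ := by ring
  have hint : ∀ σ, A < σ → σ ∈ integrableExpSet X μ := by
    intro σ hσ
    rw [mK_int_iff hK ht0' hpos]
    have h1 : IntegrableOn (fun t : ℝ => (c + |C|) * t ^ (A - σ - 1)) (Ioi t0) :=
      (integrableOn_Ioi_rpow_of_lt (by linarith) ht0').const_mul _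
    refine Integrable.mono' h1 (hK.mul (measurable_id.pow_const _)).aestronglyMeasurable ?_
    refine (ae_restrict_mem measurableSet_Ioi).mono fun t ht => ?_
    have ht' : t0 < t := ht
    have ht1' : 1 ≤ t := by linarith
    have htp : 0 < t := by linarith
    rw [Real.norm_eq_abs, abs_mul, abs_of_pos (by positivity : 0 < t ^ (-σ - 1))]
    have e : t ^ (A - σ - 1) = t ^ A * t ^ (-σ - 1) := by
      rw [← Real.rpow_add htp]; congr 1; ring
    rw [e, ← mul_assoc]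
    exact mul_le_mul_of_nonneg_right (hKb t ht1') (by positivity)
  -- the right side
  set I0 : ℂ → ℂ := fun s => mellin (fun t => ((cut T t0 t : ℝ) : ℂ)) (-s) with hI0
  have hI0d : ∀ s : ℂ, 0 < s.re → DifferentiableAt ℂ I0 s := fun s hs =>
    mellin_diff (cut_meas hm t0) (C := |C| * t0 ^ A * t0) (δ := -1)
      (fun t ht => by unfold cut; rw [h0 t ht]; simp)
      (fun t ht => cut_bound ht0 (by linarith) hC t ht) (by linarith)
  set R : ℂ → ℂ := fun s => c * (t0 : ℂ) ^ ((β : ℂ) - s) * (s * Zs s) - (s - 1) * (s - β) * G s +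
    I0 s * ((s - β) * (s * Zs s)) with hR
  have hRd : ∀ s : ℂ, 0 < s.re → DifferentiableAt ℂ R s := by
    intro s hs
    have d1 : DifferentiableAt ℂ (fun s : ℂ => (t0 : ℂ) ^ ((β : ℂ) - s)) s :=
      DifferentiableAt.const_cpow (by fun_prop) (Or.inl ht0c)
    have d2 : DifferentiableAt ℂ Zs s := Zs_differentiable s
    have d3 := hG s hs
    have d4 := hI0d s hs
    simp only [hR]
    fun_prop
  have hRan : AnalyticOnNhd ℂ R {s | 0 < s.re} :=
    DifferentiableOn.analyticOnNhd (fun s hs => (hRd s hs).differentiableWithinAt) (halfplane_open 0)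
  -- the identity to the right of `A`
  have hident : ∀ z : ℂ, A < z.re → complexMGF X μ z * ((z - β) * (z * Zs z)) = R z := by
    intro z hz
    have hzβ : z - β ≠ 0 := by
      intro h
      have : (z - β).re = 0 := by rw [h]; simp
      simp at this
      linarith
    rw [mK_cmgf hK ht0' hpos]
    have hconv : MellinConvergent (fun t => ((T t : ℝ) : ℂ)) (-z) := mellin_conv hm h0 hC hz
    have i1 : IntegrableOn (fun t : ℝ => (t : ℂ) ^ ((β : ℂ) - z - 1)) (Ioi t0) :=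
      integrableOn_Ioi_cpow_of_lt (by simp; linarith) ht0'
    have i2 : IntegrableOn (fun t : ℝ => ((T t : ℝ) : ℂ) * (t : ℂ) ^ (-z - 1)) (Ioi t0) := by
      have : IntegrableOn (fun t : ℝ => (t : ℂ) ^ (-z - 1) • ((T t : ℝ) : ℂ)) (Ioi 0) := hconv
      refine (this.mono_set (Ioi_subset_Ioi ht0'.le)).congr_fun (fun t _ => ?_) measurableSet_Ioi
      simp only [smul_eq_mul]
      ring
    have e1 : ∫ t in Ioi t0, ((K t : ℝ) : ℂ) * (t : ℂ) ^ (-z - 1) =
        c * (∫ t in Ioi t0, (t : ℂ) ^ ((β : ℂ) - z - 1)) - ∫ t in Ioi t0, ((T t : ℝ) : ℂ) * (t : ℂ) ^ (-z - 1) := by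
      rw [← integral_const_mul, ← integral_sub (i1.const_mul _) i2]
      refine setIntegral_congr_fun measurableSet_Ioi fun t ht => ?_
      have ht' : t0 < t := ht
      have htp : 0 < t := by linarith
      have htc : (t : ℂ) ≠ 0 := by exact_mod_cast htp.ne'
      have e2 : (t : ℂ) ^ ((β : ℂ) - z - 1) = ((t ^ β : ℝ) : ℂ) * (t : ℂ) ^ (-z - 1) := by
        rw [Complex.ofReal_cpow htp.le, ← Complex.cpow_add _ _ htc]
        congr 1
        ring
      simp only [hKdef]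
      rw [e2]
      push_cast
      ring
    have e3 : ∫ t in Ioi t0, (t : ℂ) ^ ((β : ℂ) - z - 1) = (t0 : ℂ) ^ ((β : ℂ) - z) / (z - β) := by
      rw [integral_Ioi_cpow_of_lt (by simp; linarith) ht0']
      have : (β : ℂ) - z - 1 + 1 = -(z - β) := by ring
      rw [this, neg_div_neg_eq]
      congr 2
      ring
    rw [e1, e3, mellin_cut ht0' hconv]
    have h5 := hid z hz
    simp only [hR]
    have h6 : (z - 1) * (z - β) * G z = (z - β) * (z * Zs z * mellin (fun t => ((T t : ℝ) : ℂ)) (-z)) := by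
      rw [h5]; ring
    rw [h6]
    field_simp
    ring
  -- Landau
  have hlandau : ∀ σ, β < σ → σ ∈ integrableExpSet X μ := by
    have hden : ∀ σ : ℝ, β < σ → (((σ : ℂ) - β) * ((σ : ℂ) * Zs σ)) ≠ 0 := by
      intro σ hσ
      have h1 : (σ : ℂ) - β ≠ 0 := by
        rw [← Complex.ofReal_sub]
        exact_mod_cast (sub_pos.2 hσ).ne'
      have h2 : (σ : ℂ) ≠ 0 := by exact_mod_cast (hρ0.trans hσ).ne'
      exact mul_ne_zero h1 (mul_ne_zero h2 (Zs_real_ne_zero (hρ0.trans hσ)))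
    refine (Q297.ChL.landau hXm hneg (ψ := fun σ : ℝ => (R σ / (((σ : ℂ) - β) * ((σ : ℂ) * Zs σ))).re)
      (A := β) (B := A + 1) (t₁ := A) (by linarith) (by linarith) ?_ hint ?_).1
    · intro σ hσ
      have hσ0 : 0 < σ := hρ0.trans hσ.1
      have a1 : AnalyticAt ℂ R (σ : ℂ) := hRan _ (by simpa using hσ0)
      have a2 : AnalyticAt ℂ (fun s : ℂ => (s - β) * (s * Zs s)) (σ : ℂ) := by
        have : Differentiable ℂ (fun s : ℂ => (s - β) * (s * Zs s)) :=
          (differentiable_id.sub_const _).mul (differentiable_id.mul Zs_differentiable)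
        exact this.analyticAt _
      exact (a1.div a2 (hden σ hσ.1)).re_ofReal
    · intro σ hσ
      have h1 := hident (σ : ℂ) (by simpa using hσ.1)
      have h2 := hden σ (by linarith [hσ.1])
      show mgf X μ σ = (R σ / (((σ : ℂ) - β) * ((σ : ℂ) * Zs σ))).re
      rw [← h1, mul_div_assoc, div_self h2, mul_one, re_complexMGF_ofReal]
  have hinterior : ∀ z : ℂ, β < z.re → z.re ∈ interior (integrableExpSet X μ) := by
    intro z hz
    rw [mem_interior_iff_mem_nhds]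
    filter_upwards [lt_mem_nhds hz] with t ht using hlandau t ht
  -- the identity to the right of `β`
  have hident2 : ∀ z : ℂ, β < z.re → complexMGF X μ z * ((z - β) * (z * Zs z)) = R z := by
    have a1 : AnalyticOnNhd ℂ (fun z => complexMGF X μ z * ((z - β) * (z * Zs z))) {z | β < z.re} := by
      intro z hz
      have b1 := analyticAt_complexMGF (hinterior z hz)
      have b2 : AnalyticAt ℂ (fun s : ℂ => (s - β) * (s * Zs s)) z := by
        have : Differentiable ℂ (fun s : ℂ => (s - β) * (s * Zs s)) :=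
          (differentiable_id.sub_const _).mul (differentiable_id.mul Zs_differentiable)
        exact this.analyticAt _
      exact b1.mul b2
    have a2 : AnalyticOnNhd ℂ R {z | β < z.re} := hRan.mono (fun z hz => hρ0.trans hz)
    have h1 := a1.eqOn_of_preconnected_of_eventuallyEq a2 (halfplane_preconnected β)
      (z₀ := ((A + 1 : ℝ) : ℂ)) (by simp; linarith) (by
        have : {s : ℂ | A < s.re} ∈ 𝓝 (((A + 1 : ℝ) : ℂ)) := (halfplane_open A).mem_nhds (by simp)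
        filter_upwards [this] with z hz
        exact hident z hz)
    exact h1
  -- the limit
  set g := dslope Zs ρ with hg
  have hgc : ContinuousAt g ρ := continuousAt_dslope_same.2 (Zs_differentiable ρ)
  have hgρ : g ρ = deriv Zs ρ := dslope_same _ _
  have key : ∀ δ : ℝ, 0 < δ → ‖R (ρ + δ)‖ * ‖((β + δ : ℝ) : ℂ) * Zs ((β + δ : ℝ) : ℂ)‖ ≤
      ‖R ((β + δ : ℝ) : ℂ)‖ * (‖ρ + δ - β‖ * (‖ρ + δ‖ * ‖g (ρ + δ)‖)) := by
    intro δ hδ
    have E1 := hident2 ((β + δ : ℝ) : ℂ) (by simp; exact hδ)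
    have E2 := hident2 (ρ + δ) (by rw [Complex.add_re, Complex.ofReal_re]; linarith)
    rw [complexMGF_ofReal] at E1
    have hM : 0 ≤ mgf X μ (β + δ) := mgf_nonneg
    have hcm : ‖complexMGF X μ (ρ + δ)‖ ≤ mgf X μ (β + δ) := by
      have := norm_complexMGF_le_mgf (X := X) (μ := μ) (z := ρ + δ)
      simpa using this
    have hZg : Zs (ρ + δ) = δ * g (ρ + δ) := by
      have := sub_smul_dslope Zs ρ (ρ + δ)
      rw [hZ, sub_zero, add_sub_cancel_left, smul_eq_mul] at this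
      exact this.symm
    have n1 : ‖R ((β + δ : ℝ) : ℂ)‖ = mgf X μ (β + δ) * (δ * ‖((β + δ : ℝ) : ℂ) * Zs ((β + δ : ℝ) : ℂ)‖) := by
      rw [← E1, norm_mul, Complex.norm_real, Real.norm_of_nonneg hM, norm_mul]
      congr 2
      have : ((β + δ : ℝ) : ℂ) - β = (δ : ℂ) := by push_cast; ring
      rw [this, Complex.norm_real, Real.norm_of_nonneg hδ.le]
    have n2 : ‖R (ρ + δ)‖ ≤ mgf X μ (β + δ) * (‖ρ + δ - β‖ * (‖ρ + δ‖ * (δ * ‖g (ρ + δ)‖))) := by
      rw [← E2, norm_mul, norm_mul, norm_mul, hZg, norm_mul, Complex.norm_real, Real.norm_of_nonneg hδ.le]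
      exact mul_le_mul_of_nonneg_right hcm (by positivity)
    rw [n1]
    calc ‖R (ρ + δ)‖ * ‖((β + δ : ℝ) : ℂ) * Zs ((β + δ : ℝ) : ℂ)‖ ≤
        (mgf X μ (β + δ) * (‖ρ + δ - β‖ * (‖ρ + δ‖ * (δ * ‖g (ρ + δ)‖)))) * ‖((β + δ : ℝ) : ℂ) * Zs ((β + δ : ℝ) : ℂ)‖ :=
          mul_le_mul_of_nonneg_right n2 (norm_nonneg _)
      _ = _ := by ring
  have tρ : Tendsto (fun δ : ℝ => ρ + (δ : ℂ)) (𝓝[>] 0) (𝓝 ρ) := by
    have : ContinuousAt (fun δ : ℝ => ρ + (δ : ℂ)) 0 := by fun_prop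
    have h2 := this.tendsto
    simp only [Complex.ofReal_zero, add_zero] at h2
    exact h2.mono_left nhdsWithin_le_nhds
  have tβ : Tendsto (fun δ : ℝ => ((β + δ : ℝ) : ℂ)) (𝓝[>] 0) (𝓝 (β : ℂ)) := by
    have : ContinuousAt (fun δ : ℝ => ((β + δ : ℝ) : ℂ)) 0 := by fun_prop
    have h2 := this.tendsto
    simp only [add_zero] at h2
    exact h2.mono_left nhdsWithin_le_nhds
  have hZc : Continuous Zs := Zs_differentiable.continuous
  have l1 : Tendsto (fun δ : ℝ => ‖R (ρ + δ)‖ * ‖((β + δ : ℝ) : ℂ) * Zs ((β + δ : ℝ) : ℂ)‖) (𝓝[>] 0)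
      (𝓝 (‖R ρ‖ * ‖(β : ℂ) * Zs β‖)) := by
    refine ((hRd ρ hρ0).continuousAt.tendsto.comp tρ).norm.mul ?_
    exact (tβ.mul ((hZc.tendsto _).comp tβ)).norm
  have l2 : Tendsto (fun δ : ℝ => ‖R ((β + δ : ℝ) : ℂ)‖ * (‖ρ + δ - β‖ * (‖ρ + δ‖ * ‖g (ρ + δ)‖))) (𝓝[>] 0)
      (𝓝 (‖R β‖ * (‖ρ - β‖ * (‖ρ‖ * ‖g ρ‖)))) := by
    refine ((hRd β (by simpa using hρ0)).continuousAt.tendsto.comp tβ).norm.mul ?_
    exact ((tρ.sub_const _).norm).mul (tρ.norm.mul (hgc.tendsto.comp tρ).norm)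
  have hfin := le_of_tendsto_of_tendsto l1 l2 (by
    filter_upwards [self_mem_nhdsWithin] with δ hδ using key δ hδ)
  have hRρ : R ρ = -((ρ - 1) * (ρ - β) * G ρ) := by
    simp only [hR]
    rw [hZ]
    ring
  have hRβ : R β = c * ((β : ℂ) * Zs β) := by
    simp only [hR]
    rw [sub_self, Complex.cpow_zero]
    ring
  rw [hRρ, hRβ, norm_neg, norm_mul, norm_mul (ρ - 1), norm_mul (c : ℂ), Complex.norm_real, Real.norm_of_nonneg hc0.le,
    hgρ] at hfin
  have hβZ : 0 < ‖(β : ℂ) * Zs β‖ := norm_pos_iff.2 (mul_ne_zero (by exact_mod_cast hρ0.ne') hZβ)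
  have hρβ' : 0 < ‖ρ - β‖ := norm_pos_iff.2 hρβ
  have h9 : (‖ρ - β‖ * ‖(β : ℂ) * Zs β‖) * (‖ρ - 1‖ * ‖G ρ‖) ≤ (‖ρ - β‖ * ‖(β : ℂ) * Zs β‖) * (c * D) := by
    rw [hD]
    calc (‖ρ - β‖ * ‖(β : ℂ) * Zs β‖) * (‖ρ - 1‖ * ‖G ρ‖) = ‖ρ - 1‖ * ‖ρ - β‖ * ‖G ρ‖ * ‖(β : ℂ) * Zs β‖ := by ring
      _ ≤ _ := hfin
      _ = _ := by ring
  have h10 := le_of_mul_le_mul_left h9 (by positivity)
  linarith

end

end Pool.Agent.H313.FD
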