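import Pool.Agent.H313.FD.B2
import Pool.Agent.H313.FD.A8

/-!
# The Mellin transform of the local discrepancy of the Farey fractions
-/

set_option autoImplicit false

namespace Pool.Agent.H313.FD

open MeasureTheory Filter Topology Set
open Pool.Agent.Q120.FA (ps S E Mt)
open Pool.Agent.H295R2 (Zs Zs_differentiable fz moebius_lseries Zs_ne_zero_of_one_le)

noncomputable section

/-- `n ↦ ψ(n x)` -/
def psC (x : ℝ) : ArithmeticFunction ℂ := ⟨fun n => if n = 0 then 0 else ((ps ((n : ℝ) * x) : ℝ) : ℂ), by simp⟩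

/-- the Möbius function -/
def muC : ArithmeticFunction ℂ := ((ArithmeticFunction.moebius : ArithmeticFunction ℤ) : ArithmeticFunction ℂ)

/-- `-(E + 1/2)` -/
def TT (x t : ℝ) : ℝ := ∑ d ∈ Finset.Icc 1 ⌊t⌋₊, ps ((d : ℝ) * x) * Mt (⌊t⌋₊ / d)

lemma Mt_abs (k : ℕ) : |Mt k| ≤ k := by
  unfold Mt
  refine (Finset.abs_sum_le_sum_abs _ _).trans ?_
  calc ∑ m ∈ Finset.Icc 1 k, |((ArithmeticFunction.moebius m : ℤ) : ℝ)| ≤ ∑ m ∈ Finset.Icc 1 k, (1:ℝ) := by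
        refine Finset.sum_le_sum fun m _ => ?_
        have := ArithmeticFunction.abs_moebius_le_one (n := m)
        exact_mod_cast this
    _ = k := by simp

lemma TT_meas (x : ℝ) : Measurable (TT x) := by
  unfold TT
  exact meas_floor (fun n => ∑ d ∈ Finset.Icc 1 n, ps ((d : ℝ) * x) * Mt (n / d))

lemma TT_zero (x : ℝ) {t : ℝ} (ht : t < 1) : TT x t = 0 := by
  unfold TT
  rw [Nat.floor_eq_zero.2 ht]
  simp

lemma TT_bound_nat (x : ℝ) (n : ℕ) : |∑ d ∈ Finset.Icc 1 n, ps ((d : ℝ) * x) * Mt (n / d)| ≤ (n : ℝ) ^ 2 := by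
  refine (Finset.abs_sum_le_sum_abs _ _).trans ?_
  calc ∑ d ∈ Finset.Icc 1 n, |ps ((d : ℝ) * x) * Mt (n / d)| ≤ ∑ d ∈ Finset.Icc 1 n, (n : ℝ) := by
        refine Finset.sum_le_sum fun d _ => ?_
        rw [abs_mul]
        have h1 := ps_abs ((d : ℝ) * x)
        have h2 := Mt_abs (n / d)
        have h3 : ((n / d : ℕ) : ℝ) ≤ n := by exact_mod_cast Nat.div_le_self n d
        calc |ps ((d : ℝ) * x)| * |Mt (n / d)| ≤ 1 * n :=
              mul_le_mul (by linarith) (h2.trans h3) (abs_nonneg _) (by norm_num)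
          _ = n := one_mul _
    _ = (n : ℝ) ^ 2 := by
        simp
        ring

lemma TT_bound (x : ℝ) {t : ℝ} (ht : 1 ≤ t) : |TT x t| ≤ 1 * t ^ (2:ℝ) := by
  have h1 := TT_bound_nat x ⌊t⌋₊
  have h2 : ((⌊t⌋₊ : ℕ) : ℝ) ≤ t := Nat.floor_le (by linarith)
  unfold TT
  refine h1.trans ?_
  rw [one_mul, Real.rpow_two]
  exact pow_le_pow_left₀ (by positivity) h2 2

lemma psC_summable (x : ℝ) {s : ℂ} (hs : 1 < s.re) : LSeriesSummable (psC x) s := by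
  refine LSeriesSummable_of_bounded_of_one_lt_re (m := 1) (fun n hn => ?_) hs
  show ‖(if n = 0 then (0:ℂ) else ((ps ((n : ℝ) * x) : ℝ) : ℂ))‖ ≤ 1
  rw [if_neg hn, Complex.norm_real, Real.norm_eq_abs]
  have := ps_abs ((n : ℝ) * x)
  linarith

lemma muC_hasSum {s : ℂ} (hs : 1 < s.re) : LSeriesHasSum muC s (fz s) := by
  have h := moebius_lseries hs
  refine (LSeriesHasSum_congr s _ (fun {n} _ => ?_)).1 h
  simp [muC]

lemma sum_psC (x : ℝ) (n : ℕ) : ∑ k ∈ Finset.Icc 1 n, psC x k = ((S n x : ℝ) : ℂ) := by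
  unfold S
  push_cast
  refine Finset.sum_congr rfl fun k hk => ?_
  have : k ≠ 0 := by
    have := (Finset.mem_Icc.1 hk).1
    omega
  show (if k = 0 then (0:ℂ) else ((ps ((k : ℝ) * x) : ℝ) : ℂ)) = _
  rw [if_neg this]

lemma sum_aa (x : ℝ) (n : ℕ) : ∑ k ∈ Finset.Icc 1 n, (psC x * muC) k =
    ((∑ d ∈ Finset.Icc 1 n, ps ((d : ℝ) * x) * Mt (n / d) : ℝ) : ℂ) := by
  have h := ArithmeticFunction.sum_Ioc_mul_eq_sum_sum (psC x) muC n
  have e : ∀ m : ℕ, Finset.Ioc 0 m = Finset.Icc 1 m := fun m => rfl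
  rw [e] at h
  rw [h]
  push_cast
  refine Finset.sum_congr rfl fun k hk => ?_
  have hk0 : k ≠ 0 := by
    have := (Finset.mem_Icc.1 hk).1
    omega
  have e1 : psC x k = ((ps ((k : ℝ) * x) : ℝ) : ℂ) := by
    show (if k = 0 then (0:ℂ) else ((ps ((k : ℝ) * x) : ℝ) : ℂ)) = _
    rw [if_neg hk0]
  rw [e1, e]
  congr 1
  unfold Mt muC
  push_cast
  refine Finset.sum_congr rfl fun m _ => ?_
  simp

/-- an integral over `(1,∞)` as a Mellin transform -/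
lemma mellin_of_floor {g : ℕ → ℝ} (hg : g 0 = 0) (s : ℂ) :
    ∫ t in Ioi (1:ℝ), ((g ⌊t⌋₊ : ℝ) : ℂ) * (t : ℂ) ^ (-(s + 1)) = mellin (fun t : ℝ => ((g ⌊t⌋₊ : ℝ) : ℂ)) (-s) := by
  unfold mellin
  have hu : Ioi (0:ℝ) = Ioc 0 1 ∪ Ioi 1 := (Ioc_union_Ioi_eq_Ioi zero_le_one).symm
  have h1 : ∀ᵐ t : ℝ, t ∈ Ioi (0:ℝ) → (t : ℂ) ^ (-s - 1) • ((g ⌊t⌋₊ : ℝ) : ℂ) =
      (Ioi (1:ℝ)).indicator (fun t : ℝ => ((g ⌊t⌋₊ : ℝ) : ℂ) * (t : ℂ) ^ (-(s + 1))) t := by
    have : ∀ᵐ t : ℝ, t ≠ 1 := by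
      rw [ae_iff]
      simp
    filter_upwards [this] with t ht1 ht0
    by_cases h : 1 < t
    · rw [indicator_of_mem (show t ∈ Ioi (1:ℝ) from h), smul_eq_mul, mul_comm]
      congr 2
      ring
    · rw [indicator_of_notMem (show t ∉ Ioi (1:ℝ) from h)]
      have : t < 1 := lt_of_le_of_ne (not_lt.1 h) ht1
      rw [Nat.floor_eq_zero.2 this, hg]
      simp
  rw [setIntegral_congr_ae measurableSet_Ioi h1, setIntegral_indicator measurableSet_Ioi,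
    inter_eq_self_of_subset_right (Ioi_subset_Ioi zero_le_one)]

lemma F_eq_LSeries (x : ℝ) {s : ℂ} (hs : 1 < s.re) : LSeries (psC x) s = F s x := by
  have hO : (fun n => ∑ k ∈ Finset.Icc 1 n, psC x k) =O[atTop] fun n : ℕ => (n : ℝ) ^ (1:ℝ) := by
    refine Asymptotics.IsBigO.of_bound 1 (Eventually.of_forall fun n => ?_)
    rw [sum_psC, Complex.norm_real, Real.norm_eq_abs, Real.rpow_one, one_mul, Real.norm_of_nonneg (by positivity)]
    unfold S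
    refine (Finset.abs_sum_le_sum_abs _ _).trans ?_
    calc ∑ d ∈ Finset.Icc 1 n, |ps ((d : ℝ) * x)| ≤ ∑ d ∈ Finset.Icc 1 n, (1:ℝ) := by
          refine Finset.sum_le_sum fun d _ => ?_
          have := ps_abs ((d : ℝ) * x)
          linarith
      _ = n := by simp
  rw [LSeries_eq_mul_integral _ zero_le_one hs (psC_summable x hs) hO]
  unfold F
  congr 1
  simp_rw [sum_psC]
  exact mellin_of_floor (g := fun n => S n x) (S_zero x) s

/-- the identity `s (s-1) ζ(s) ∫ T(t) t^(-s-1) dt = (s-1) F(s,x)` for `Re s > 2` -/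
lemma TT_mellin (x : ℝ) {s : ℂ} (hs : 2 < s.re) :
    s * Zs s * mellin (fun t => ((TT x t : ℝ) : ℂ)) (-s) = (s - 1) * F s x := by
  have hs1 : 1 < s.re := by linarith
  set aa : ArithmeticFunction ℂ := psC x * muC with haa
  have hO : (fun n => ∑ k ∈ Finset.Icc 1 n, (fun n => aa n) k) =O[atTop] fun n : ℕ => (n : ℝ) ^ (2:ℝ) := by
    refine Asymptotics.IsBigO.of_bound 1 (Eventually.of_forall fun n => ?_)
    simp only [haa]
    rw [sum_aa, Complex.norm_real, Real.norm_eq_abs, Real.rpow_two, one_mul, Real.norm_of_nonneg (by positivity)]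
    exact TT_bound_nat x n
  have h1 : LSeries (fun n => aa n) s = F s x * fz s := by
    rw [haa, ArithmeticFunction.LSeries_mul' (psC_summable x hs1) (muC_hasSum hs1).LSeriesSummable, F_eq_LSeries x hs1,
      (muC_hasSum hs1).LSeries_eq]
  have hsum : LSeriesSummable (fun n => aa n) s :=
    ArithmeticFunction.LSeriesSummable_mul (psC_summable x hs1) (muC_hasSum hs1).LSeriesSummable
  rw [LSeries_eq_mul_integral (fun n => aa n) (by norm_num) hs hsum hO] at h1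
  simp only [haa] at h1
  simp_rw [sum_aa] at h1
  rw [mellin_of_floor (g := fun n => ∑ d ∈ Finset.Icc 1 n, ps ((d : ℝ) * x) * Mt (n / d)) (by simp) s] at h1
  have hZ := Zs_ne_zero_of_one_le (s := s) (by linarith)
  unfold fz at h1
  have h2 : s * mellin (fun t => ((TT x t : ℝ) : ℂ)) (-s) = F s x * ((s - 1) / Zs s) := h1
  rw [mul_right_comm, h2]
  field_simp

lemma F_diff {x : ℝ} (hx : Slow x) {s : ℂ} (hs : 0 < s.re) : DifferentiableAt ℂ (fun s => F s x) s := by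
  unfold F
  obtain ⟨C, hC0, hC⟩ := hx.2 (s.re / 2) (by linarith)
  refine differentiableAt_id.mul ?_
  refine mellin_diff (f := fun t => S ⌊t⌋₊ x) (C := C) (δ := s.re / 2) (meas_floor (fun n => S n x)) ?_ ?_ (by linarith)
  · intro t ht
    have : ⌊t⌋₊ = 0 := Nat.floor_eq_zero.2 ht
    rw [this, S_zero]
  · intro t ht
    refine (hC _).trans (mul_le_mul_of_nonneg_left ?_ hC0)
    exact floor_rpow_le (by linarith) (by linarith)

lemma TT_eq {x : ℝ} (h0 : 0 ≤ x) (h1 : x ≤ 1) {t : ℝ} (ht : 1 ≤ t) : TT x t = -E ⌊t⌋₊ x - 1 / 2 := by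
  have hN : 1 ≤ ⌊t⌋₊ := by
    rw [Nat.one_le_floor_iff]
    exact ht
  rw [Pool.Agent.Q277.FA.E_eq _ hN h0 h1]
  unfold TT
  have : ∀ d : ℕ, Mt (⌊t⌋₊ / d) * ps ((d : ℝ) * x) = ps ((d : ℝ) * x) * Mt (⌊t⌋₊ / d) := fun d => mul_comm _ _
  simp_rw [this]
  ring

/-- **Oscillation at a point**: both signs. -/
theorem osc_point {x : ℝ} (h0 : 0 < x) (h1 : x < 1) (hx : Slow x) {ρ : ℂ} (hρ0 : 0 < ρ.re) (hρ1 : ρ.re < 1)
    (hZ : Zs ρ = 0) (hF : F ρ x ≠ 0) :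
    ∃ c : ℝ, 0 < c ∧ (∀ N₀ : ℕ, ∃ N : ℕ, N₀ ≤ N ∧ c * (N : ℝ) ^ ρ.re ≤ E N x) ∧
      (∀ N₀ : ℕ, ∃ N : ℕ, N₀ ≤ N ∧ E N x ≤ -(c * (N : ℝ) ^ ρ.re)) := by
  obtain ⟨c1, hc1, H1⟩ := osc (T := TT x) (TT_meas x) (fun t ht => TT_zero x ht) (C := 1) (A := 2) (by norm_num)
    (fun t ht => TT_bound x ht) (G := fun s => F s x) (fun s hs => F_diff hx hs) (fun s hs => TT_mellin x hs) hρ0 hρ1 hZ hF
  obtain ⟨c2, hc2, H2⟩ := osc (T := fun t => -TT x t) (TT_meas x).neg (fun t ht => by rw [TT_zero x ht, neg_zero])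
    (C := 1) (A := 2) (by norm_num) (fun t ht => by rw [abs_neg]; exact TT_bound x ht) (G := fun s => -F s x)
    (fun s hs => (F_diff hx hs).neg) (fun s hs => by
      have := TT_mellin x hs
      have e : mellin (fun t => ((-TT x t : ℝ) : ℂ)) (-s) = -mellin (fun t => ((TT x t : ℝ) : ℂ)) (-s) := by
        unfold mellin
        rw [← integral_neg]
        refine integral_congr_ae (Eventually.of_forall fun t => ?_)
        simp
      rw [e, mul_neg, this, mul_neg]) hρ0 hρ1 hZ (neg_ne_zero.2 hF)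
  have hfl : ∀ t : ℝ, 1 ≤ t → ((⌊t⌋₊ : ℕ) : ℝ) ^ ρ.re ≤ t ^ ρ.re := fun t ht =>
    floor_rpow_le hρ0.le (by linarith)
  have htop : ∀ᶠ t : ℝ in atTop, 1 / (c2 / 2) ≤ t ^ ρ.re := (tendsto_rpow_atTop hρ0).eventually_ge_atTop _
  obtain ⟨t2, ht2⟩ := eventually_atTop.1 htop
  refine ⟨min c1 (c2 / 2), by positivity, fun N₀ => ?_, fun N₀ => ?_⟩
  · obtain ⟨t, ht, hlt⟩ := H2 (max (max t2 1) (N₀ + 1))
    have ht1 : 1 ≤ t := ((le_max_right _ _).trans (le_max_left _ _)).trans ht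
    have ht3 : (N₀ : ℝ) ≤ t := by
      have := (le_max_right (max t2 1) ((N₀ : ℝ) + 1)).trans ht
      linarith
    refine ⟨⌊t⌋₊, Nat.le_floor ht3, ?_⟩
    have e := TT_eq h0.le h1.le ht1
    rw [e] at hlt
    have h5 := ht2 t (((le_max_left _ _).trans (le_max_left _ _)).trans ht)
    rw [div_le_iff₀ (by positivity)] at h5
    have h6 := hfl t ht1
    have h7 : 0 ≤ ((⌊t⌋₊ : ℕ) : ℝ) ^ ρ.re := by positivity
    have h8 : min c1 (c2 / 2) * ((⌊t⌋₊ : ℕ) : ℝ) ^ ρ.re ≤ (c2 / 2) * t ^ ρ.re :=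
      mul_le_mul (min_le_right _ _) h6 h7 (by positivity)
    nlinarith
  · obtain ⟨t, ht, hlt⟩ := H1 (max 1 (N₀ + 1))
    have ht1 : 1 ≤ t := (le_max_left _ _).trans ht
    have ht3 : (N₀ : ℝ) ≤ t := by
      have := (le_max_right (1:ℝ) ((N₀ : ℝ) + 1)).trans ht
      linarith
    refine ⟨⌊t⌋₊, Nat.le_floor ht3, ?_⟩
    have e := TT_eq h0.le h1.le ht1
    rw [e] at hlt
    have h6 := hfl t ht1
    have h7 : 0 ≤ ((⌊t⌋₊ : ℕ) : ℝ) ^ ρ.re := by positivity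
    have h8 : min c1 (c2 / 2) * ((⌊t⌋₊ : ℕ) : ℝ) ^ ρ.re ≤ c1 * t ^ ρ.re :=
      mul_le_mul (min_le_left _ _) h6 h7 (by positivity)
    nlinarith

end

end Pool.Agent.H313.FD
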