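import Pool.Agent.H313.FD.B3
import Pool.Graph.R_seed8.H295R2.T5
import Pool.Graph.R_seed8.H295R2.R4

/-!
# The upper bound at every slow point
-/

set_option autoImplicit false
set_option maxHeartbeats 1000000

namespace Pool.Agent.H313.FD

open MeasureTheory Filter Topology Set
open Pool.Agent.Q120.FA (ps S E Mt)
open Pool.Agent.H295R2 (Zs Nice avg Lap T5 avg_avg_sub_le floor_exp mu abs_mu_le)

noncomputable section

/-- the truncated and normalised sum -/
def kN (x δ : ℝ) (N : ℕ) (u : ℝ) : ℝ := (N : ℝ) ^ (-δ) * S (min ⌊Real.exp u⌋₊ N) x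

lemma kN_meas (x δ : ℝ) (N : ℕ) : Measurable (kN x δ N) := by
  unfold kN
  refine Measurable.const_mul ?_ _
  have h1 : Measurable (fun t : ℝ => S (min ⌊t⌋₊ N) x) := meas_floor (fun n => S (min n N) x)
  exact h1.comp Real.measurable_exp

lemma kN_bound {x δ C : ℝ} (hδ : 0 < δ) (hC : 0 ≤ C) (h : ∀ n : ℕ, |S n x| ≤ C * (n : ℝ) ^ δ) {N : ℕ} (hN : 1 ≤ N) (u : ℝ) :
    |kN x δ N u| ≤ C := by
  have hN0 : (0:ℝ) < N := by exact_mod_cast hN
  unfold kN
  rw [abs_mul, abs_of_pos (by positivity : 0 < (N : ℝ) ^ (-δ))]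
  have h1 := h (min ⌊Real.exp u⌋₊ N)
  have h2 : ((min ⌊Real.exp u⌋₊ N : ℕ) : ℝ) ^ δ ≤ (N : ℝ) ^ δ := by
    refine Real.rpow_le_rpow (Nat.cast_nonneg _) ?_ hδ.le
    exact_mod_cast min_le_right _ _
  calc (N : ℝ) ^ (-δ) * |S (min ⌊Real.exp u⌋₊ N) x| ≤ (N : ℝ) ^ (-δ) * (C * (N : ℝ) ^ δ) :=
        mul_le_mul_of_nonneg_left (h1.trans (mul_le_mul_of_nonneg_left h2 hC)) (by positivity)
    _ = C * ((N : ℝ) ^ (-δ) * (N : ℝ) ^ δ) := by ring
    _ = C := by rw [← Real.rpow_add hN0, neg_add_cancel, Real.rpow_zero, mul_one]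

/-- window indicator -/
def win (h : ℝ) (n : ℕ) (u : ℝ) : ℝ := if Real.exp u < n ∧ (n : ℝ) ≤ Real.exp (u + h) then 1 else 0

lemma win_nonneg (h : ℝ) (n : ℕ) (u : ℝ) : 0 ≤ win h n u := by
  unfold win; split_ifs <;> norm_num

lemma kN_diff {x δ : ℝ} (hδ : 0 < δ) {N : ℕ} (hN : 1 ≤ N) {h : ℝ} (hh : 0 < h) (u : ℝ) :
    |kN x δ N (u + h) - kN x δ N u| ≤ ∑ n ∈ Finset.Icc 1 N, win h n u := by
  have hN0 : (0:ℝ) < N := by exact_mod_cast hN
  have hN1 : (1:ℝ) ≤ N := by exact_mod_cast hN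
  unfold kN
  rw [← mul_sub, abs_mul, abs_of_pos (by positivity : 0 < (N : ℝ) ^ (-δ))]
  have h1 : (N : ℝ) ^ (-δ) ≤ 1 := Real.rpow_le_one_of_one_le_of_nonpos hN1 (by linarith)
  set a := min ⌊Real.exp u⌋₊ N with ha
  set b := min ⌊Real.exp (u + h)⌋₊ N with hb
  have hab : a ≤ b := by
    rw [ha, hb]
    exact min_le_min_right _ (Nat.floor_le_floor (Real.exp_le_exp.2 (by linarith)))
  have h2 : S b x - S a x = ∑ n ∈ Finset.Ioc a b, ps ((n : ℝ) * x) := by
    unfold S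
    have e1 : Finset.Icc 1 b = Finset.Ioc 0 b := rfl
    have e2 : Finset.Icc 1 a = Finset.Ioc 0 a := rfl
    rw [e1, e2, ← Finset.sum_Ioc_consecutive _ (Nat.zero_le _) hab]
    ring
  have h3 : |S b x - S a x| ≤ ∑ n ∈ Finset.Icc 1 N, win h n u := by
    rw [h2]
    refine (Finset.abs_sum_le_sum_abs _ _).trans ?_
    have hsub : Finset.Ioc a b ⊆ Finset.Icc 1 N := by
      intro n hn
      rw [Finset.mem_Ioc] at hn
      rw [Finset.mem_Icc]
      exact ⟨by omega, hn.2.trans (min_le_right _ _)⟩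
    calc ∑ n ∈ Finset.Ioc a b, |ps ((n : ℝ) * x)| ≤ ∑ n ∈ Finset.Ioc a b, win h n u := by
          refine Finset.sum_le_sum fun n hn => ?_
          rw [Finset.mem_Ioc] at hn
          have hnN : n ≤ N := hn.2.trans (min_le_right _ _)
          have h4 : ⌊Real.exp u⌋₊ < n := by
            have := hn.1
            rw [ha, min_lt_iff] at this
            omega
          have h5 : n ≤ ⌊Real.exp (u + h)⌋₊ := hn.2.trans (min_le_left _ _)
          have h6 : Real.exp u < n := (Nat.floor_lt (Real.exp_pos _).le).1 h4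
          have h7 : (n : ℝ) ≤ Real.exp (u + h) := (Nat.le_floor_iff (Real.exp_pos _).le).1 h5
          unfold win
          rw [if_pos ⟨h6, h7⟩]
          have := ps_abs ((n : ℝ) * x)
          linarith
      _ ≤ ∑ n ∈ Finset.Icc 1 N, win h n u := Finset.sum_le_sum_of_subset_of_nonneg hsub (fun n _ _ => win_nonneg h n u)
  have h8 := abs_nonneg (S b x - S a x)
  nlinarith

lemma win_eq {h : ℝ} {n : ℕ} (hn : 1 ≤ n) (u : ℝ) :
    win h n u = (Ico (Real.log n - h) (Real.log n)).indicator (fun _ => (1:ℝ)) u := by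
  have hn0 : (0:ℝ) < n := by exact_mod_cast hn
  unfold win
  by_cases hu : u ∈ Ico (Real.log n - h) (Real.log n)
  · rw [indicator_of_mem hu, if_pos]
    refine ⟨?_, ?_⟩
    · rw [← Real.lt_log_iff_exp_lt hn0]; exact hu.2
    · rw [← Real.log_le_iff_le_exp hn0]; linarith [hu.1]
  · rw [indicator_of_notMem hu, if_neg]
    rintro ⟨h1, h2⟩
    apply hu
    rw [← Real.lt_log_iff_exp_lt hn0] at h1
    rw [← Real.log_le_iff_le_exp hn0] at h2
    exact ⟨by linarith, h1⟩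

lemma win_int {σ h : ℝ} (hσ : 0 < σ) (hσ2 : σ ≤ 2) (hh : 0 < h) (hh1 : h ≤ 1) {n : ℕ} (hn : 1 ≤ n) :
    Integrable (fun u => win h n u * Real.exp (-(2 * σ * u))) ∧
      ∫ u, win h n u * Real.exp (-(2 * σ * u)) ≤ h * (Real.exp 4 * (n : ℝ) ^ (-(2 * σ))) := by
  have hn0 : (0:ℝ) < n := by exact_mod_cast hn
  have e : (fun u => win h n u * Real.exp (-(2 * σ * u))) =
      (Ico (Real.log n - h) (Real.log n)).indicator (fun u => Real.exp (-(2 * σ * u))) := by
    funext u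
    rw [win_eq hn]
    by_cases hu : u ∈ Ico (Real.log n - h) (Real.log n)
    · rw [indicator_of_mem hu, indicator_of_mem hu, one_mul]
    · rw [indicator_of_notMem hu, indicator_of_notMem hu, zero_mul]
  have hi : IntegrableOn (fun u : ℝ => Real.exp (-(2 * σ * u))) (Ico (Real.log n - h) (Real.log n)) := by
    refine (Continuous.integrableOn_Icc (by fun_prop)).mono_set Ico_subset_Icc_self
  rw [e]
  refine ⟨(integrable_indicator_iff measurableSet_Ico).2 hi, ?_⟩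
  rw [integral_indicator measurableSet_Ico]
  have hb : ∀ u ∈ Ico (Real.log n - h) (Real.log n), ‖Real.exp (-(2 * σ * u))‖ ≤ Real.exp 4 * (n : ℝ) ^ (-(2 * σ)) := by
    intro u hu
    rw [Real.norm_of_nonneg (Real.exp_pos _).le, Real.rpow_def_of_pos hn0, ← Real.exp_add]
    apply Real.exp_le_exp.2
    have := hu.1
    nlinarith
  have h1 := norm_setIntegral_le_of_norm_le_const (μ := volume) (s := Ico (Real.log n - h) (Real.log n))
    (by rw [Real.volume_Ico]; exact ENNReal.ofReal_lt_top) hb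
  rw [measureReal_def, Real.volume_Ico] at h1
  have h2 : Real.log n - (Real.log n - h) = h := by ring
  rw [h2, ENNReal.toReal_ofReal hh.le] at h1
  have h3 := le_trans (le_abs_self _) h1
  linarith

lemma kN_trans {x δ C σ : ℝ} (hδ : 0 < δ) (hC : 0 ≤ C) (h : ∀ n : ℕ, |S n x| ≤ C * (n : ℝ) ^ δ)
    (hσ : 1 / 2 < σ) (hσ2 : σ ≤ 2) {N : ℕ} (hN : 1 ≤ N) {r : ℝ} (hr : 0 < r) (hr1 : r ≤ 1) :
    ∫ u, ‖((kN x δ N (u + r) : ℝ) : ℂ) - ((kN x δ N u : ℝ) : ℂ)‖ ^ 2 * Real.exp (-(2 * σ * u)) ≤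
      (2 * C * (Real.exp 4 * ∑' n : ℕ, (n : ℝ) ^ (-(2 * σ)))) * r := by
  have hsum : Summable (fun n : ℕ => (n : ℝ) ^ (-(2 * σ))) := Real.summable_nat_rpow.2 (by linarith)
  have hint : ∀ n ∈ Finset.Icc 1 N, Integrable (fun u => 2 * C * (win r n u * Real.exp (-(2 * σ * u)))) := by
    intro n hn
    exact (win_int (by linarith) hσ2 hr hr1 (Finset.mem_Icc.1 hn).1).1.const_mul _
  have hI : Integrable (fun u => ∑ n ∈ Finset.Icc 1 N, 2 * C * (win r n u * Real.exp (-(2 * σ * u)))) :=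
    integrable_finsetSum _ hint
  have hpt : ∀ u, ‖((kN x δ N (u + r) : ℝ) : ℂ) - ((kN x δ N u : ℝ) : ℂ)‖ ^ 2 * Real.exp (-(2 * σ * u)) ≤
      ∑ n ∈ Finset.Icc 1 N, 2 * C * (win r n u * Real.exp (-(2 * σ * u))) := by
    intro u
    rw [← Complex.ofReal_sub, Complex.norm_real, Real.norm_eq_abs, ← Finset.mul_sum, ← Finset.sum_mul, ← mul_assoc]
    apply mul_le_mul_of_nonneg_right _ (Real.exp_pos _).le
    have h1 := kN_diff hδ hN hr (x := x) u
    have h2 : |kN x δ N (u + r) - kN x δ N u| ≤ 2 * C := by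
      have e1 := kN_bound hδ hC h hN (u + r)
      have e2 := kN_bound hδ hC h hN u
      have := abs_sub (kN x δ N (u + r)) (kN x δ N u)
      linarith
    rw [pow_two]
    exact mul_le_mul h2 h1 (abs_nonneg _) (by positivity)
  calc ∫ u, ‖((kN x δ N (u + r) : ℝ) : ℂ) - ((kN x δ N u : ℝ) : ℂ)‖ ^ 2 * Real.exp (-(2 * σ * u)) ≤
      ∫ u, ∑ n ∈ Finset.Icc 1 N, 2 * C * (win r n u * Real.exp (-(2 * σ * u))) := by
        refine integral_mono_of_nonneg (Eventually.of_forall fun u => by positivity) hI (Eventually.of_forall hpt)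
    _ = ∑ n ∈ Finset.Icc 1 N, ∫ u, 2 * C * (win r n u * Real.exp (-(2 * σ * u))) := integral_finsetSum _ hint
    _ ≤ ∑ n ∈ Finset.Icc 1 N, 2 * C * (r * (Real.exp 4 * (n : ℝ) ^ (-(2 * σ)))) := by
        refine Finset.sum_le_sum fun n hn => ?_
        rw [integral_const_mul]
        exact mul_le_mul_of_nonneg_left (win_int (by linarith) hσ2 hr hr1 (Finset.mem_Icc.1 hn).1).2 (by positivity)
    _ = 2 * C * r * Real.exp 4 * ∑ n ∈ Finset.Icc 1 N, (n : ℝ) ^ (-(2 * σ)) := by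
        rw [Finset.mul_sum]
        refine Finset.sum_congr rfl fun n _ => ?_
        ring
    _ ≤ 2 * C * r * Real.exp 4 * ∑' n : ℕ, (n : ℝ) ^ (-(2 * σ)) := by
        apply mul_le_mul_of_nonneg_left _ (by positivity)
        exact hsum.sum_le_tsum _ (fun n _ => by positivity)
    _ = _ := by ring

/-- **The upper bound.** -/
theorem E_upper {x : ℝ} (h0 : 0 < x) (h1 : x < 1) (hx : Slow x) {θ : ℝ} (hθ : 1 / 2 ≤ θ) (hθ1 : θ ≤ 1)
    (hz : ∀ s : ℂ, θ < s.re → Zs s ≠ 0) {ε : ℝ} (hε : 0 < ε) :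
    ∃ C : ℝ, 0 < C ∧ ∀ N : ℕ, 1 ≤ N → |E N x| ≤ C * (N : ℝ) ^ (θ + ε) := by
  -- parameters
  set e : ℝ := min (ε / 5) (1 / 4) with he
  have he0 : 0 < e := lt_min (by positivity) (by norm_num)
  have he1 : e ≤ 1 / 4 := min_le_right _ _
  have he2 : 5 * e ≤ ε := by
    have := min_le_left (ε / 5) (1 / 4 : ℝ)
    rw [← he] at this
    linarith
  obtain ⟨C, hC0, hC⟩ := hx.2 e he0
  set σ : ℝ := θ + e with hσ
  have hσh : 1 / 2 < σ := by linarith
  have hσ2 : σ ≤ 2 := by linarith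
  set Z : ℝ := ∑' n : ℕ, (n : ℝ) ^ (-(2 * σ)) with hZ
  have hZ0 : 0 ≤ Z := tsum_nonneg fun n => by positivity
  set B : ℝ := C + 2 * C * (Real.exp 4 * Z) + 1 with hB
  have hB0 : 0 < B := by positivity
  obtain ⟨K, hK0, hK⟩ := T5 (θ := θ) (σ := σ) (ε := e) (B := B) (by linarith) hz (by linarith) hσ2 he0 he1 hB0
  refine ⟨K * 4 ^ (3 * e) + 1, by positivity, fun N hN => ?_⟩
  have hN0 : (0:ℝ) < N := by exact_mod_cast hN
  have hN1 : (1:ℝ) ≤ N := by exact_mod_cast hN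
  set k : ℝ → ℂ := fun u => ((kN x e N u : ℝ) : ℂ) with hk
  have hnice : Nice k B 0 (Real.log 1 - B) := by
    refine ⟨Complex.measurable_ofReal.comp (kN_meas x e N), fun u => ?_, fun u hu => ?_⟩
    · simp only [hk]
      rw [Complex.norm_real, Real.norm_eq_abs, zero_mul, Real.exp_zero, mul_one]
      refine (kN_bound he0 hC0 hC hN u).trans ?_
      have : 0 ≤ 2 * C * (Real.exp 4 * Z) := by positivity
      linarith
    · simp only [hk]
      rw [Real.log_one, zero_sub] at hu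
      have h2 : ⌊Real.exp u⌋₊ = 0 := by
        rw [Nat.floor_eq_zero, Real.exp_lt_one_iff]
        linarith
      unfold kN
      rw [h2, Nat.zero_min, S_zero, mul_zero, Complex.ofReal_zero]
  have hη0 : (0:ℝ) < 1 / (4 * N) := by positivity
  have hmain := hK k 1 le_rfl hnice (fun r hr hr1 => by
    rw [Real.one_rpow, mul_one]
    refine (kN_trans he0 hC0 hC hσh hσ2 hN hr hr1).trans ?_
    apply mul_le_mul_of_nonneg_right _ hr.le
    rw [← hZ]
    linarith) (1 / (4 * N)) (Real.log N) hη0 (by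
      rw [mul_one, div_le_one (by positivity)]
      linarith)
  -- values of the averages
  have h2η : 2 * (1 / (4 * (N:ℝ))) = 1 / (2 * N) := by field_simp; norm_num
  have hval : ∀ m : ℕ, 0 < m → avg (1 / (4 * N)) (avg (1 / (4 * N)) k) (Real.log N - Real.log m) =
      (((N : ℝ) ^ (-e) * S (N / m) x : ℝ) : ℂ) := by
    intro m hm
    have hm' : (0:ℝ) < m := by exact_mod_cast hm
    have := avg_avg_sub_le hnice (u := Real.log N - Real.log m) (ε := 0) (c := (((N : ℝ) ^ (-e) * S (N / m) x : ℝ) : ℂ)) hη0 (by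
      intro w hw0 hw
      rw [h2η] at hw
      have h3 := (floor_exp hN hm hw0 hw).1
      simp only [hk]
      unfold kN
      rw [Real.exp_add, Real.exp_sub, Real.exp_log hN0, Real.exp_log hm', h3, min_eq_left (Nat.div_le_self _ _), sub_self,
        norm_zero])
    exact sub_eq_zero.1 (norm_le_zero_iff.1 this)
  have htsum : (∑' m : ℕ, ((ArithmeticFunction.moebius m : ℤ) : ℂ) * avg (1 / (4 * N)) (avg (1 / (4 * N)) k) (Real.log N - Real.log m)) =
      (((N : ℝ) ^ (-e) * TT x N : ℝ) : ℂ) := by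
    have e1 : (∑' m : ℕ, ((ArithmeticFunction.moebius m : ℤ) : ℂ) * avg (1 / (4 * N)) (avg (1 / (4 * N)) k) (Real.log N - Real.log m)) =
        ∑ m ∈ Finset.Icc 1 N, ((ArithmeticFunction.moebius m : ℤ) : ℂ) * (((N : ℝ) ^ (-e) * S (N / m) x : ℝ) : ℂ) := by
      rw [tsum_eq_sum (s := Finset.Icc 1 N)]
      · refine Finset.sum_congr rfl fun m hm => ?_
        rw [hval m (Finset.mem_Icc.1 hm).1]
      · intro m hm
        rw [Finset.mem_Icc, not_and_or] at hm
        rcases Nat.eq_zero_or_pos m with rfl | hm0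
        · simp
        · rw [hval m hm0, Nat.div_eq_of_lt (by omega), S_zero]
          simp
    rw [e1]
    have e2 : TT x N = ∑ m ∈ Finset.Icc 1 N, mu m * S (N / m) x := by
      unfold TT S
      rw [Nat.floor_natCast]
      rw [Pool.Agent.H295R2.sum_swap_div N mu (fun d => ps ((d : ℝ) * x))]
      rfl
    rw [e2, Finset.mul_sum]
    push_cast
    refine Finset.sum_congr rfl fun m _ => ?_
    have : ((ArithmeticFunction.moebius m : ℤ) : ℂ) = ((mu m : ℝ) : ℂ) := by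
      unfold mu; push_cast; rfl
    rw [this]
    ring
  rw [htsum, Complex.norm_real, Real.norm_eq_abs, abs_mul, abs_of_pos (by positivity : 0 < (N : ℝ) ^ (-e)),
    Real.one_rpow, mul_one] at hmain
  have h5 : Real.exp (σ * Real.log N) = (N : ℝ) ^ σ := by
    rw [Real.rpow_def_of_pos hN0, mul_comm]
  have h6 : (1 / (4 * (N:ℝ))) ^ (-(3 * e)) = 4 ^ (3 * e) * (N : ℝ) ^ (3 * e) := by
    rw [one_div, Real.inv_rpow (by positivity), ← Real.rpow_neg (by positivity), neg_neg, Real.mul_rpow (by norm_num) hN0.le]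
  rw [h5, h6] at hmain
  have h7 : |TT x N| ≤ K * 4 ^ (3 * e) * (N : ℝ) ^ (θ + ε) := by
    have h8 : |TT x N| = (N : ℝ) ^ e * ((N : ℝ) ^ (-e) * |TT x N|) := by
      rw [← mul_assoc, ← Real.rpow_add hN0, add_neg_cancel, Real.rpow_zero, one_mul]
    rw [h8]
    calc (N : ℝ) ^ e * ((N : ℝ) ^ (-e) * |TT x N|) ≤ (N : ℝ) ^ e * (K * (N : ℝ) ^ σ * (4 ^ (3 * e) * (N : ℝ) ^ (3 * e))) :=
          mul_le_mul_of_nonneg_left hmain (by positivity)
      _ = K * 4 ^ (3 * e) * ((N : ℝ) ^ e * (N : ℝ) ^ σ * (N : ℝ) ^ (3 * e)) := by ring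
      _ = K * 4 ^ (3 * e) * (N : ℝ) ^ (e + σ + 3 * e) := by
          rw [← Real.rpow_add hN0, ← Real.rpow_add hN0]
      _ ≤ K * 4 ^ (3 * e) * (N : ℝ) ^ (θ + ε) := by
          apply mul_le_mul_of_nonneg_left _ (by positivity)
          apply Real.rpow_le_rpow_of_exponent_le hN1
          linarith
  have h9 := TT_eq h0.le h1.le hN1
  rw [Nat.floor_natCast] at h9
  have h10 : (1:ℝ) ≤ (N : ℝ) ^ (θ + ε) := Real.one_le_rpow hN1 (by linarith)
  have h11 : |E N x| ≤ |TT x N| + 1 / 2 := by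
    have e1 : E N x = -(TT x N) - 1 / 2 := by rw [h9]; ring
    rw [e1]
    have := abs_sub (-(TT x N)) (1 / 2 : ℝ)
    rw [abs_neg, abs_of_pos (by norm_num : (0:ℝ) < 1 / 2)] at this
    exact this
  nlinarith

end

end Pool.Agent.H313.FD
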