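import Pool.Agent.H313.FD.C1
import Pool.Graph.R_seed8.H295R2.T6b

/-!
# The zeros seen at a point
-/

set_option autoImplicit false

namespace Pool.Agent.H313.FD

open MeasureTheory Filter Topology Set
open Pool.Agent.Q120.FA (ps S E Mt)
open Pool.Agent.H295R2 (Zs Zs_eq zeta_of_Zs zetaSup zetaSup_free half_le_zetaSup zetaSup_le_one zset_bdd zset_nonempty)

noncomputable section

lemma Zs_of_zeta {s : ℂ} (hs : riemannZeta s = 0) (h1 : s.re < 1) : Zs s = 0 := by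
  have hne : s ≠ 1 := by
    rintro rfl
    simp at h1
  rw [← Zs_eq hne, hs, mul_zero]

lemma zeros_countable : {ρ : ℂ | riemannZeta ρ = 0}.Countable := by
  have h1 : {ρ : ℂ | riemannZeta ρ = 0} ⊆ ⋃ n : ℕ, (Metric.closedBall (0:ℂ) n ∩ riemannZetaZeros) := by
    intro ρ hρ
    obtain ⟨n, hn⟩ := exists_nat_ge ‖ρ‖
    refine mem_iUnion.2 ⟨n, ?_, hρ⟩
    rw [mem_closedBall_zero_iff]
    exact hn
  refine (countable_iUnion fun n => ?_).mono h1
  exact ((isCompact_closedBall (0:ℂ) n).inter_riemannZetaZeros_finite).countable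

/-- the zero `ρ` is seen at the point `x`, on both sides -/
def Seen (ρ : ℂ) (x : ℝ) : Prop :=
  ∃ c : ℝ, 0 < c ∧ (∃ᶠ N : ℕ in atTop, c * (N : ℝ) ^ ρ.re ≤ E N x) ∧ (∃ᶠ N : ℕ in atTop, E N x ≤ -(c * (N : ℝ) ^ ρ.re))

lemma seen_of {x : ℝ} (h0 : 0 < x) (h1 : x < 1) (hx : Slow x) {ρ : ℂ} (hz : riemannZeta ρ = 0) (hρ0 : 0 < ρ.re)
    (hρ1 : ρ.re < 1) (hF : F ρ x ≠ 0) : Seen ρ x := by
  obtain ⟨c, hc, H1, H2⟩ := osc_point h0 h1 hx hρ0 hρ1 (Zs_of_zeta hz hρ1) hF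
  exact ⟨c, hc, frequently_atTop.2 H1, frequently_atTop.2 H2⟩

/-- **At almost every point all the zeros are seen.** -/
theorem ae_seen : ∀ᵐ x : ℝ, x ∈ Ioo (0:ℝ) 1 → ∀ ρ : ℂ, riemannZeta ρ = 0 → 0 < ρ.re → ρ.re < 1 → Seen ρ x := by
  have h1 : ∀ᵐ x : ℝ, ∀ ρ ∈ {ρ : ℂ | riemannZeta ρ = 0}, (0 < ρ.re → ρ.re < 1 → x ∈ Ioo (0:ℝ) 1 → F ρ x ≠ 0) := by
    rw [ae_ball_iff zeros_countable]
    intro ρ _
    by_cases h : 0 < ρ.re ∧ ρ.re < 1
    · filter_upwards [F_ne_zero_ae h.1 h.2] with x hx _ _ hmem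
      exact hx hmem
    · refine Eventually.of_forall fun x h0 h1 => absurd ⟨h0, h1⟩ h
  filter_upwards [h1, ae_slow] with x hx hs hmem ρ hz hρ0 hρ1
  exact seen_of hmem.1 hmem.2 hs hz hρ0 hρ1 (hx ρ hz hρ0 hρ1 hmem)

/-- **At `1/(a+x)`, `a` large.** -/
theorem seen_shift {x : ℝ} (h0 : 0 < x) (hx : Slow x) {ρ : ℂ} (hz : riemannZeta ρ = 0) (hρ0 : 0 < ρ.re) (hρ1 : ρ.re < 1) :
    ∀ᶠ a : ℕ in atTop, Seen ρ (1 / (a + x)) := by
  obtain ⟨c, C, hc, hC, hlow⟩ := hh_lower hρ0 hρ1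
  have htop : Tendsto (fun n : ℕ => c * (n : ℝ) ^ (1 - ρ.re)) atTop atTop :=
    ((tendsto_rpow_atTop (by linarith : 0 < 1 - ρ.re)).comp tendsto_natCast_atTop_atTop).const_mul_atTop hc
  filter_upwards [htop.eventually_gt_atTop (C + ‖F ρ x‖), eventually_ge_atTop 1] with a ha1 ha2
  have hw := step_mem (a := fun _ => a) (fun _ => ha2) 0 h0
  have hs := slow_step h0 hx ha2
  refine seen_of hw.1 hw.2 hs hz hρ0 hρ1 ?_
  rw [F_step hρ0 hρ1 h0 hx ha2]
  intro h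
  have h2 : hh ρ (1 / (a + x)) = ((1 / (a + x) : ℝ) : ℂ) ^ ρ * F ρ x := sub_eq_zero.1 h
  have h3 : c * (1 / ((a : ℝ) + x)) ^ (ρ.re - 1) - C ≤ ‖hh ρ (1 / (a + x))‖ := hlow _ hw.1 hw.2
  have h4 : ‖hh ρ (1 / (a + x))‖ ≤ ‖F ρ x‖ := by
    rw [h2, norm_mul, Complex.norm_cpow_eq_rpow_re_of_pos hw.1]
    have h9 : (1 / ((a : ℝ) + x)) ^ ρ.re ≤ 1 := Real.rpow_le_one hw.1.le hw.2.le hρ0.le
    exact mul_le_of_le_one_left (norm_nonneg _) h9
  have h12 : (a : ℝ) ^ (1 - ρ.re) ≤ (1 / ((a : ℝ) + x)) ^ (ρ.re - 1) := by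
    have ha' : (1:ℝ) ≤ a := by exact_mod_cast ha2
    rw [one_div, Real.inv_rpow (by positivity), ← Real.rpow_neg (by positivity)]
    have : -(ρ.re - 1) = 1 - ρ.re := by ring
    rw [this]
    exact Real.rpow_le_rpow (by positivity) (by linarith) (by linarith)
  have h13 : c * (a : ℝ) ^ (1 - ρ.re) ≤ c * (1 / ((a : ℝ) + x)) ^ (ρ.re - 1) := mul_le_mul_of_nonneg_left h12 hc.le
  linarith

/-- quadratic irrationals are not Liouville with an exponent above `2` -/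
lemma quad_not_liouville {x : ℝ} (hirr : Irrational x) {a b c : ℤ} (ha : a ≠ 0)
    (hroot : (a : ℝ) * x ^ 2 + b * x + c = 0) (p : ℝ) (hp : 2 < p) : ¬ LiouvilleWith p x := by
  rintro ⟨K, hK⟩
  set f : Polynomial ℤ := Polynomial.C a * Polynomial.X ^ 2 + Polynomial.C b * Polynomial.X + Polynomial.C c with hf
  have hdeg : f.natDegree = 2 := Polynomial.natDegree_quadratic ha
  have f0 : f ≠ 0 := by
    intro h
    rw [h] at hdeg
    simp at hdeg
  have fa : Polynomial.eval x (Polynomial.map (algebraMap ℤ ℝ) f) = 0 := by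
    rw [hf]
    simp
    exact hroot
  obtain ⟨A, hA, hlow⟩ := Liouville.exists_pos_real_of_irrational_root hirr f0 fa
  rw [hdeg] at hlow
  have ht : Tendsto (fun n : ℕ => (n : ℝ) ^ (p - 2)) atTop atTop :=
    (tendsto_rpow_atTop (by linarith)).comp tendsto_natCast_atTop_atTop
  obtain ⟨n, ⟨m, _, hm⟩, hn1, hn2⟩ := (hK.and_eventually ((eventually_ge_atTop 1).and (ht.eventually_ge_atTop (K * A)))).exists
  obtain ⟨b', rfl⟩ : ∃ b' : ℕ, n = b' + 1 := ⟨n - 1, by omega⟩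
  have h1 := hlow m b'
  push_cast at hm hn2
  have hb : (0:ℝ) < (b' : ℝ) + 1 := by positivity
  have h2 : ((b' : ℝ) + 1) ^ 2 * (|x - m / (b' + 1)| * A) < ((b' : ℝ) + 1) ^ 2 * (K / ((b' : ℝ) + 1) ^ p * A) := by
    apply mul_lt_mul_of_pos_left _ (by positivity)
    exact mul_lt_mul_of_pos_right hm hA
  have h3 : ((b' : ℝ) + 1) ^ 2 * (K / ((b' : ℝ) + 1) ^ p * A) = K * A / ((b' : ℝ) + 1) ^ (p - 2) := by
    rw [Real.rpow_sub hb, Real.rpow_two]
    field_simp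
  rw [h3] at h2
  have h4 : K * A / ((b' : ℝ) + 1) ^ (p - 2) ≤ 1 := by
    rw [div_le_one (by positivity)]
    exact hn2
  linarith

lemma slow_sqrt_two : Slow (√2) := by
  refine slow_of_not_liouville irrational_sqrt_two fun p hp => ?_
  refine quad_not_liouville irrational_sqrt_two (a := 1) (b := 0) (c := -2) one_ne_zero ?_ p hp
  norm_num

/-- a zero to the right of `θ` -/
lemma exists_zero_of_not_free {θ : ℝ} (hθ : 0 ≤ θ) (h : ¬ ∀ s : ℂ, θ < s.re → riemannZeta s ≠ 0) :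
    ∃ ρ : ℂ, riemannZeta ρ = 0 ∧ θ < ρ.re ∧ 0 < ρ.re ∧ ρ.re < 1 := by
  push Not at h
  obtain ⟨ρ, h1, h2⟩ := h
  refine ⟨ρ, h2, h1, by linarith, ?_⟩
  by_contra hcon
  exact riemannZeta_ne_zero_of_one_le_re (not_lt.1 hcon) h2

lemma Zs_free {θ : ℝ} (hθ : 0 ≤ θ) (h : ∀ s : ℂ, θ < s.re → riemannZeta s ≠ 0) : ∀ s : ℂ, θ < s.re → Zs s ≠ 0 :=
  fun s hs hz => h s hs (zeta_of_Zs hz (by linarith)).1

/-- a seen zero excludes the one-sided bounds -/
lemma seen_excludes {x : ℝ} {ρ : ℂ} (h : Seen ρ x) {τ : ℝ} (hτ : τ < ρ.re) :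
    (¬ ∃ C : ℝ, ∀ N : ℕ, 1 ≤ N → E N x ≤ C * (N : ℝ) ^ τ) ∧ (¬ ∃ C : ℝ, ∀ N : ℕ, 1 ≤ N → -(C * (N : ℝ) ^ τ) ≤ E N x) := by
  obtain ⟨c, hc, H1, H2⟩ := h
  have ht : ∀ C : ℝ, ∀ᶠ N : ℕ in atTop, C / c < (N : ℝ) ^ (ρ.re - τ) := fun C =>
    ((tendsto_rpow_atTop (by linarith : 0 < ρ.re - τ)).comp tendsto_natCast_atTop_atTop).eventually_gt_atTop _
  have key : ∀ C : ℝ, ∀ᶠ N : ℕ in atTop, 1 ≤ N ∧ C * (N : ℝ) ^ τ < c * (N : ℝ) ^ ρ.re := by
    intro C
    filter_upwards [ht C, eventually_ge_atTop 1] with N h1 h2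
    refine ⟨h2, ?_⟩
    have hN : (0:ℝ) < N := by exact_mod_cast h2
    rw [div_lt_iff₀ hc] at h1
    have e : (N : ℝ) ^ ρ.re = (N : ℝ) ^ (ρ.re - τ) * (N : ℝ) ^ τ := by
      rw [← Real.rpow_add hN]; congr 1; ring
    rw [e, ← mul_assoc]
    exact mul_lt_mul_of_pos_right (by linarith) (by positivity)
  constructor
  · rintro ⟨C, hC⟩
    obtain ⟨N, h1, h2, h3⟩ := (H1.and_eventually (key C)).exists
    have := hC N h2
    linarith
  · rintro ⟨C, hC⟩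
    obtain ⟨N, h1, h2, h3⟩ := (H2.and_eventually (key C)).exists
    have := hC N h2
    linarith

/-- the upper bound, for the supremum of the real parts of the zeros -/
theorem E_upper_sup {x : ℝ} (h0 : 0 < x) (h1 : x < 1) (hx : Slow x) {ε : ℝ} (hε : 0 < ε) :
    ∃ C : ℝ, 0 < C ∧ ∀ N : ℕ, 1 ≤ N → |E N x| ≤ C * (N : ℝ) ^ (zetaSup + ε) :=
  E_upper h0 h1 hx half_le_zetaSup zetaSup_le_one zetaSup_free hε

/-- the exponent at a point where all zeros are seen -/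
theorem limsup_eq {x : ℝ} (h0 : 0 < x) (h1 : x < 1) (hx : Slow x)
    (hseen : ∀ ρ : ℂ, riemannZeta ρ = 0 → 0 < ρ.re → ρ.re < 1 → Seen ρ x) :
    limsup (fun N : ℕ => Real.log |E N x| / Real.log N) atTop = zetaSup := by
  set f : ℕ → ℝ := fun N => Real.log |E N x| / Real.log N with hf
  have hlogtop : Tendsto (fun N : ℕ => Real.log (N : ℝ)) atTop atTop := Real.tendsto_log_atTop.comp tendsto_natCast_atTop_atTop
  -- eventual upper bounds
  have hup : ∀ η : ℝ, 0 < η → ∀ᶠ N : ℕ in atTop, f N ≤ zetaSup + η := by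
    intro η hη
    obtain ⟨C, hC0, hC⟩ := E_upper_sup h0 h1 hx (ε := η / 2) (by positivity)
    have hev : ∀ᶠ N : ℕ in atTop, Real.log C ≤ η / 2 * Real.log N :=
      (hlogtop.const_mul_atTop (by positivity : 0 < η / 2)).eventually_ge_atTop _
    filter_upwards [hev, eventually_ge_atTop 2] with N h2 h3
    have hN2 : (2:ℝ) ≤ N := by exact_mod_cast h3
    have hN0 : (0:ℝ) < N := by linarith
    have hlog : 0 < Real.log N := Real.log_pos (by linarith)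
    simp only [hf]
    rw [div_le_iff₀ hlog]
    rcases eq_or_ne (E N x) 0 with he | he
    · rw [he, abs_zero, Real.log_zero]
      have := half_le_zetaSup
      positivity
    · have h4 := Real.log_le_log (abs_pos.2 he) (hC N (by omega))
      rw [Real.log_mul hC0.ne' (by positivity), Real.log_rpow hN0] at h4
      nlinarith
  have hlow : ∀ η : ℝ, 0 < η → ∃ᶠ N : ℕ in atTop, zetaSup - η ≤ f N := by
    intro η hη
    obtain ⟨y, ⟨ρ, hρ, rfl⟩, hy⟩ := exists_lt_of_lt_csSup zset_nonempty (show zetaSup - η / 2 < zetaSup by linarith)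
    obtain ⟨c, hc, H1, -⟩ := hseen ρ hρ.1 hρ.2.1 hρ.2.2
    have hev : ∀ᶠ N : ℕ in atTop, -Real.log c ≤ η / 2 * Real.log N :=
      (hlogtop.const_mul_atTop (by positivity : 0 < η / 2)).eventually_ge_atTop _
    refine (H1.and_eventually (hev.and (eventually_ge_atTop 2))).mono ?_
    rintro N ⟨h2, h3, h4⟩
    have hN2 : (2:ℝ) ≤ N := by exact_mod_cast h4
    have hN0 : (0:ℝ) < N := by linarith
    have hlog : 0 < Real.log N := Real.log_pos (by linarith)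
    simp only [hf]
    rw [le_div_iff₀ hlog]
    have h5 : Real.log (c * (N : ℝ) ^ ρ.re) ≤ Real.log |E N x| :=
      Real.log_le_log (by positivity) (h2.trans (le_abs_self _))
    rw [Real.log_mul hc.ne' (by positivity), Real.log_rpow hN0] at h5
    nlinarith
  have hbdd : IsBoundedUnder (· ≤ ·) atTop f := ⟨zetaSup + 1, by simpa using hup 1 one_pos⟩
  have hcobdd : IsCoboundedUnder (· ≤ ·) atTop f :=
    IsCoboundedUnder.of_frequently_ge (hlow 1 one_pos)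
  apply le_antisymm
  · refine le_of_forall_pos_le_add fun η hη => ?_
    exact limsup_le_of_le hcobdd (hup η hη)
  · refine le_of_forall_pos_le_add fun η hη => ?_
    have := le_limsup_of_frequently_le (hlow η hη) hbdd
    linarith

end

end Pool.Agent.H313.FD
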