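import Pool.Agent.H313.FD.L1

/-!
# The lower bound at points with irrationality exponent above `3`
-/

set_option autoImplicit false
set_option maxHeartbeats 1000000

namespace Pool.Agent.H313.FD

open MeasureTheory Filter Topology Set
open Pool.Agent.Q120.FA (ps S E Mt)

noncomputable section

lemma ii_of_bdd {f : ℝ → ℝ} (hm : Measurable f) {B a b : ℝ} (hab : a ≤ b) (h : ∀ u ∈ Ioc a b, |f u| ≤ B) :
    IntervalIntegrable f volume a b := by
  rw [intervalIntegrable_iff_integrableOn_Ioc_of_le hab]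
  refine Integrable.mono' (g := fun _ => B) (integrableOn_const (by rw [Real.volume_Ioc]; exact ENNReal.ofReal_ne_top))
    hm.aestronglyMeasurable ?_
  refine (ae_restrict_mem measurableSet_Ioc).mono fun u hu => ?_
  rw [Real.norm_eq_abs]
  exact h u hu

lemma S_abs_le (n : ℕ) (x : ℝ) : |S n x| ≤ n := by
  unfold S
  refine (Finset.abs_sum_le_sum_abs _ _).trans ?_
  calc ∑ d ∈ Finset.Icc 1 n, |ps ((d : ℝ) * x)| ≤ ∑ d ∈ Finset.Icc 1 n, (1:ℝ) := by
        refine Finset.sum_le_sum fun d _ => ?_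
        have := ps_abs ((d : ℝ) * x)
        linarith
    _ = n := by simp

lemma Sf_ii (x : ℝ) {W : ℝ} (hW : 0 ≤ W) : IntervalIntegrable (fun u : ℝ => S ⌊u⌋₊ x) volume 0 W := by
  refine ii_of_bdd (meas_floor (fun n => S n x)) hW (B := W) fun u hu => ?_
  exact (S_abs_le _ _).trans ((Nat.floor_le hu.1.le).trans hu.2)

/-- the second difference of the integral of `S` -/
def JJ (x W : ℝ) : ℝ := (∫ u in (0:ℝ)..W, S ⌊u⌋₊ x) - 4 * ∫ u in (0:ℝ)..(W / 2), S ⌊u⌋₊ x

lemma J_lower {q : ℕ} (hq : 1 ≤ q) {a : ℤ} (ha : IsCoprime a (q : ℤ)) {x : ℝ} (hx : Irrational x) {W : ℝ}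
    (hW : W * (2 * q * |x - (a : ℝ) / q|) = 1) : W ^ 2 / (24 * q) - 12 * q * W ≤ |JJ x W| := by
  have hqr : (1 : ℝ) ≤ q := by exact_mod_cast hq
  have hq0 : (0 : ℝ) < q := by linarith
  set δ := |x - (a : ℝ) / q| with hδ
  have hδ0 : 0 ≤ δ := abs_nonneg _
  have hδp : 0 < δ := by
    rcases eq_or_lt_of_le hδ0 with h | h
    · rw [← h] at hW; simp at hW
    · exact h
  have hWe : W = 1 / (2 * q * δ) := by
    rw [eq_div_iff (by positivity)]
    exact hW
  have hW0 : 0 < W := by rw [hWe]; positivity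
  obtain ⟨s, hs, H⟩ := S_near_abs hq ha hx
  rw [← hδ] at H
  have hWδ : W * δ = 1 / (2 * q) := by rw [hWe]; field_simp
  set g : ℝ → ℝ := fun u => δ * u ^ 2 / 2 - u / (2 * q) with hg
  have hgc : Continuous g := by fun_prop
  have hb : ∀ w : ℝ, 0 ≤ w → w ≤ W → |s * (∫ u in (0:ℝ)..w, S ⌊u⌋₊ x) - ∫ u in (0:ℝ)..w, g u| ≤ 4 * q * w := by
    intro w hw0 hwW
    rw [← intervalIntegral.integral_const_mul, ← intervalIntegral.integral_sub ((Sf_ii x hw0).const_mul s) (hgc.intervalIntegrable _ _)]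
    have h2 := intervalIntegral.norm_integral_le_of_norm_le_const (a := 0) (b := w)
      (f := fun u => s * S ⌊u⌋₊ x - g u) (C := 4 * q) (fun u hu => by
        rw [uIoc_of_le hw0] at hu
        rw [Real.norm_eq_abs]
        refine H u hu.1.le ?_
        calc u * δ ≤ W * δ := mul_le_mul_of_nonneg_right (hu.2.trans hwW) hδ0
          _ = 1 / (2 * q) := hWδ
          _ < 1 / q := by
              apply one_div_lt_one_div_of_lt hq0
              linarith)
    rw [sub_zero, abs_of_nonneg hw0, Real.norm_eq_abs] at h2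
    exact h2
  have hgi : ∀ w : ℝ, ∫ u in (0:ℝ)..w, g u = δ * w ^ 3 / 6 - w ^ 2 / (4 * q) := by
    intro w
    simp only [hg]
    rw [intervalIntegral.integral_sub]
    · have e1 : (fun u : ℝ => δ * u ^ 2 / 2) = fun u => (δ / 2) * u ^ 2 := by funext u; ring
      have e2 : (fun u : ℝ => u / (2 * (q : ℝ))) = fun u => (1 / (2 * (q : ℝ))) * u := by funext u; ring
      rw [e1, e2, intervalIntegral.integral_const_mul, intervalIntegral.integral_const_mul, integral_pow, integral_id]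
      push_cast
      field_simp
      ring
    · exact Continuous.intervalIntegrable (by fun_prop) _ _
    · exact Continuous.intervalIntegrable (by fun_prop) _ _
  have h1 := hb W hW0.le le_rfl
  have h2 := hb (W / 2) (by positivity) (by linarith)
  rw [hgi] at h1 h2
  set I1 := ∫ u in (0:ℝ)..W, S ⌊u⌋₊ x
  set I2 := ∫ u in (0:ℝ)..(W / 2), S ⌊u⌋₊ x
  have h3 : |s * JJ x W - δ * W ^ 3 / 12| ≤ 12 * q * W := by
    have e : s * JJ x W - δ * W ^ 3 / 12 =
        (s * I1 - (δ * W ^ 3 / 6 - W ^ 2 / (4 * q))) - 4 * (s * I2 - (δ * (W / 2) ^ 3 / 6 - (W / 2) ^ 2 / (4 * q))) := by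
      unfold JJ
      ring
    rw [e]
    refine (abs_sub _ _).trans ?_
    rw [abs_mul, abs_of_pos (by norm_num : (0:ℝ) < 4)]
    linarith
  have h4 : |s * JJ x W| = |JJ x W| := by rw [abs_mul, hs, one_mul]
  have h5 : δ * W ^ 3 / 12 = W ^ 2 / (24 * q) := by
    have : δ * W ^ 3 = (W * δ) * W ^ 2 := by ring
    rw [this, hWδ]
    field_simp
    ring
  rw [← h4, ← h5]
  have h6 := abs_sub_abs_le_abs_sub (δ * W ^ 3 / 12) (s * JJ x W)
  rw [abs_sub_comm, abs_of_nonneg (by positivity : 0 ≤ δ * W ^ 3 / 12)] at h6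
  linarith

/-- triangular numbers -/
def tri (n : ℕ) : ℝ := ∑ m ∈ Finset.Icc 1 n, (m : ℝ)

lemma tri_eq (n : ℕ) : tri n = (n : ℝ) * (n + 1) / 2 := sum_id_Icc n

lemma tri_diff (r : ℕ) (hr : 1 ≤ r) : |tri r - 4 * tri (r / 2)| ≤ r := by
  rw [tri_eq, tri_eq]
  have hr' : (1:ℝ) ≤ r := by exact_mod_cast hr
  rcases Nat.even_or_odd' r with ⟨k, rfl | rfl⟩
  · have e : 2 * k / 2 = k := by omega
    rw [e]
    push_cast
    have hk : (0:ℝ) ≤ k := Nat.cast_nonneg _
    rw [abs_le]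
    constructor <;> nlinarith
  · have e : (2 * k + 1) / 2 = k := by omega
    rw [e]
    push_cast
    have hk : (0:ℝ) ≤ k := Nat.cast_nonneg _
    rw [abs_le]
    constructor <;> nlinarith

lemma J_upper {x C τ : ℝ} (hτ : 0 < τ) (hC : ∀ t : ℝ, 1 ≤ t → |TT x t| ≤ C * t ^ τ) {W : ℝ} (hW : 1 ≤ W) :
    |JJ x W| ≤ C / τ * W ^ (1 + τ) := by
  have hW0 : 0 < W := by linarith
  have hC0 : 0 ≤ C := by
    have := (abs_nonneg _).trans (hC 1 le_rfl)
    simpa using this
  set M := ⌊W⌋₊ with hM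
  -- boundedness of T
  have hTb : ∀ v : ℝ, v ≤ W → |TT x v| ≤ C * W ^ τ := by
    intro v hv
    rcases lt_or_ge v 1 with h | h
    · rw [TT_zero x h, abs_zero]
      positivity
    · exact (hC v h).trans (mul_le_mul_of_nonneg_left (Real.rpow_le_rpow (by linarith) hv hτ.le) hC0)
  -- truncated integrals as integrals over `(0, W)`
  have htr : ∀ w : ℝ, 0 ≤ w → w ≤ W → ∫ v in (0:ℝ)..w, TT x v = ∫ v in (0:ℝ)..W, (if v ≤ w then TT x v else 0) := by
    intro w hw0 hwW
    rw [intervalIntegral.integral_of_le hw0, intervalIntegral.integral_of_le hW0.le]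
    have e1 : ∀ v : ℝ, (if v ≤ w then TT x v else 0) = (Iic w).indicator (TT x) v := by
      intro v
      by_cases h : v ≤ w
      · rw [if_pos h, indicator_of_mem (show v ∈ Iic w from h)]
      · rw [if_neg h, indicator_of_notMem (show v ∉ Iic w from h)]
    simp_rw [e1]
    rw [setIntegral_indicator measurableSet_Iic]
    congr 2
    rw [Ioc_inter_Iic, min_eq_right hwW]
  -- the scaling
  have hsc : ∀ m ∈ Finset.Icc 1 M, ∀ w : ℝ, 0 ≤ w → w ≤ W → ∫ u in (0:ℝ)..w, TT x (u / m) =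
      (m : ℝ) * ∫ v in (0:ℝ)..W, (if v ≤ w / m then TT x v else 0) := by
    intro m hm w hw0 hwW
    have hm1 : (1:ℝ) ≤ m := by exact_mod_cast (Finset.mem_Icc.1 hm).1
    have hm0 : (0:ℝ) < m := by linarith
    rw [← htr (w / m) (by positivity) ((div_le_self hw0 hm1).trans hwW)]
    have := intervalIntegral.integral_comp_div (a := 0) (b := w) (TT x) hm0.ne'
    rw [zero_div, smul_eq_mul] at this
    exact this
  have hTi : ∀ m ∈ Finset.Icc 1 M, ∀ w : ℝ, 0 ≤ w → w ≤ W → IntervalIntegrable (fun u => TT x (u / m)) volume 0 w := by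
    intro m hm w hw0 hwW
    have hm1 : (1:ℝ) ≤ m := by exact_mod_cast (Finset.mem_Icc.1 hm).1
    refine ii_of_bdd ((TT_meas x).comp (measurable_id.div_const _)) hw0 (B := C * W ^ τ) fun u hu => ?_
    exact hTb _ ((div_le_self hu.1.le hm1).trans (hu.2.trans hwW))
  have hint : ∀ w : ℝ, 0 ≤ w → w ≤ W → ∫ u in (0:ℝ)..w, S ⌊u⌋₊ x =
      ∑ m ∈ Finset.Icc 1 M, (m : ℝ) * ∫ v in (0:ℝ)..W, (if v ≤ w / m then TT x v else 0) := by
    intro w hw0 hwW
    rw [← Finset.sum_congr rfl fun m hm => hsc m hm w hw0 hwW, ← intervalIntegral.integral_finsetSum fun m hm => hTi m hm w hw0 hwW]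
    refine intervalIntegral.integral_congr fun u hu => ?_
    rw [uIcc_of_le hw0] at hu
    exact S_floor_eq hu.1 (Nat.floor_le_floor (hu.2.trans hwW))
  have hii : ∀ w : ℝ, IntervalIntegrable (fun v => if v ≤ w then TT x v else 0) volume 0 W := by
    intro w
    refine ii_of_bdd (Measurable.ite measurableSet_Iic (TT_meas x) measurable_const) hW0.le (B := C * W ^ τ) fun u hu => ?_
    split_ifs
    · exact hTb _ hu.2
    · rw [abs_zero]; positivity
  have hJ : JJ x W = ∫ v in (0:ℝ)..W, ∑ m ∈ Finset.Icc 1 M, ((m : ℝ) * (if v ≤ W / m then TT x v else 0) -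
      4 * ((m : ℝ) * (if v ≤ W / 2 / m then TT x v else 0))) := by
    rw [intervalIntegral.integral_finsetSum fun m _ => ((hii _).const_mul _).sub (((hii _).const_mul _).const_mul _)]
    unfold JJ
    rw [hint W hW0.le le_rfl, hint (W / 2) (by positivity) (by linarith), Finset.mul_sum, ← Finset.sum_sub_distrib]
    refine Finset.sum_congr rfl fun m _ => ?_
    rw [intervalIntegral.integral_sub ((hii _).const_mul _) (((hii _).const_mul _).const_mul _),
      intervalIntegral.integral_const_mul, intervalIntegral.integral_const_mul, intervalIntegral.integral_const_mul]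
  rw [hJ]
  -- pointwise bound
  have hpt : ∀ v ∈ Ioc (0:ℝ) W, ‖∑ m ∈ Finset.Icc 1 M, ((m : ℝ) * (if v ≤ W / m then TT x v else 0) -
      4 * ((m : ℝ) * (if v ≤ W / 2 / m then TT x v else 0)))‖ ≤ C * W * v ^ (τ - 1) := by
    intro v hv
    have hv0 := hv.1
    rw [Real.norm_eq_abs]
    rcases lt_or_ge v 1 with h | h
    · have : ∀ m ∈ Finset.Icc 1 M, ((m : ℝ) * (if v ≤ W / m then TT x v else 0) -
          4 * ((m : ℝ) * (if v ≤ W / 2 / m then TT x v else 0))) = 0 := by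
        intro m _
        rw [TT_zero x h]
        simp
      rw [Finset.sum_eq_zero this, abs_zero]
      positivity
    · have hfl : ∀ w : ℝ, 0 ≤ w → w ≤ W → ∑ m ∈ Finset.Icc 1 M, (m : ℝ) * (if v ≤ w / m then TT x v else 0) =
          tri ⌊w / v⌋₊ * TT x v := by
        intro w hw0 hwW
        unfold tri
        rw [Finset.sum_mul]
        have hsub : Finset.Icc 1 ⌊w / v⌋₊ ⊆ Finset.Icc 1 M := by
          apply Finset.Icc_subset_Icc_right
          apply Nat.floor_le_floor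
          exact (div_le_self hw0 h).trans hwW
        rw [← Finset.sum_subset hsub (f := fun m : ℕ => (m : ℝ) * (if v ≤ w / m then TT x v else 0))]
        · refine Finset.sum_congr rfl fun m hm => ?_
          have hm1 : (1:ℝ) ≤ m := by exact_mod_cast (Finset.mem_Icc.1 hm).1
          have hm2 := (Finset.mem_Icc.1 hm).2
          have h2 : (m : ℝ) ≤ w / v := (Nat.le_floor_iff (by positivity)).1 hm2
          rw [if_pos]
          rw [le_div_iff₀ (by linarith)]
          rw [le_div_iff₀ hv0] at h2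
          linarith
        · intro m hm hm'
          have hm1 : (1:ℝ) ≤ m := by exact_mod_cast (Finset.mem_Icc.1 hm).1
          rw [if_neg, mul_zero]
          intro hle
          apply hm'
          rw [Finset.mem_Icc]
          refine ⟨(Finset.mem_Icc.1 hm).1, Nat.le_floor ?_⟩
          rw [le_div_iff₀ (by linarith)] at hle
          rw [le_div_iff₀ hv0]
          linarith
      rw [Finset.sum_sub_distrib, ← Finset.mul_sum, hfl W hW0.le le_rfl, hfl (W / 2) (by positivity) (by linarith)]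
      have h3 : ⌊W / 2 / v⌋₊ = ⌊W / v⌋₊ / 2 := by
        have : W / 2 / v = (W / v) / (2:ℕ) := by push_cast; field_simp
        rw [this, Nat.floor_div_natCast]
      rw [h3]
      have hr1 : 1 ≤ ⌊W / v⌋₊ := by
        rw [Nat.one_le_floor_iff, le_div_iff₀ hv0, one_mul]
        exact hv.2
      have e : tri ⌊W / v⌋₊ * TT x v - 4 * (tri (⌊W / v⌋₊ / 2) * TT x v) =
          (tri ⌊W / v⌋₊ - 4 * tri (⌊W / v⌋₊ / 2)) * TT x v := by ring
      rw [e, abs_mul]
      have h4 := tri_diff _ hr1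
      have h5 : ((⌊W / v⌋₊ : ℕ) : ℝ) ≤ W / v := Nat.floor_le (by positivity)
      calc |tri ⌊W / v⌋₊ - 4 * tri (⌊W / v⌋₊ / 2)| * |TT x v| ≤ (W / v) * (C * v ^ τ) :=
            mul_le_mul (h4.trans h5) (hC v h) (abs_nonneg _) (by positivity)
        _ = C * W * v ^ (τ - 1) := by
            rw [Real.rpow_sub_one hv0.ne']
            ring
  have hbi : IntervalIntegrable (fun v : ℝ => C * W * v ^ (τ - 1)) volume 0 W :=
    (intervalIntegral.intervalIntegrable_rpow' (by linarith)).const_mul _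
  have h6 := intervalIntegral.norm_integral_le_of_norm_le hW0.le (Eventually.of_forall hpt) hbi
  rw [Real.norm_eq_abs] at h6
  refine h6.trans (le_of_eq ?_)
  rw [intervalIntegral.integral_const_mul, integral_rpow (Or.inl (by linarith))]
  have e1 : τ - 1 + 1 = τ := by ring
  rw [e1, Real.zero_rpow hτ.ne', sub_zero, Real.rpow_add hW0, Real.rpow_one]
  ring

/-- **The lower bound.** -/
theorem E_lower {x : ℝ} (h0 : 0 < x) (h1 : x < 1) (hx : Irrational x) {p : ℝ} (hp : 3 < p) (hL : LiouvilleWith p x)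
    {τ : ℝ} (hτ : τ < 1 - 1 / (p - 1)) : ¬ ∃ C : ℝ, ∀ N : ℕ, 1 ≤ N → |E N x| ≤ C * (N : ℝ) ^ τ := by
  rintro ⟨C0, hC0⟩
  -- a positive exponent
  set τ' : ℝ := max τ (1 / 4) with hτ'
  have hp1 : 0 < p - 1 := by linarith
  have hinv : 1 / (p - 1) < 1 / 2 := by
    apply one_div_lt_one_div_of_lt <;> linarith
  have hinv0 : 0 < 1 / (p - 1) := by positivity
  have hτ0 : 0 < τ' := lt_of_lt_of_le (by norm_num) (le_max_right _ _)
  have hτ1 : τ' < 1 - 1 / (p - 1) := max_lt hτ (by linarith)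
  -- the bound for T
  set C : ℝ := |C0| + 1 with hC
  have hTT : ∀ t : ℝ, 1 ≤ t → |TT x t| ≤ C * t ^ τ' := by
    intro t ht
    have hN : 1 ≤ ⌊t⌋₊ := by
      rw [Nat.one_le_floor_iff]; exact ht
    have hN1 : (1:ℝ) ≤ (⌊t⌋₊ : ℕ) := by exact_mod_cast hN
    rw [TT_eq h0.le h1.le ht]
    have h2 := hC0 _ hN
    have h3 : ((⌊t⌋₊ : ℕ) : ℝ) ^ τ ≤ t ^ τ' := by
      calc ((⌊t⌋₊ : ℕ) : ℝ) ^ τ ≤ ((⌊t⌋₊ : ℕ) : ℝ) ^ τ' := Real.rpow_le_rpow_of_exponent_le hN1 (le_max_left _ _)
        _ ≤ t ^ τ' := Real.rpow_le_rpow (by linarith) (Nat.floor_le (by linarith)) hτ0.le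
    have h4 : (1:ℝ) ≤ t ^ τ' := Real.one_le_rpow ht hτ0.le
    have h5 : |-E ⌊t⌋₊ x - 1 / 2| ≤ |E ⌊t⌋₊ x| + 1 / 2 := by
      have := abs_sub (-E ⌊t⌋₊ x) (1 / 2)
      rw [abs_neg, abs_of_pos (by norm_num : (0:ℝ) < 1 / 2)] at this
      exact this
    have h6 : C0 * ((⌊t⌋₊ : ℕ) : ℝ) ^ τ ≤ |C0| * t ^ τ' :=
      mul_le_mul (le_abs_self _) h3 (by positivity) (abs_nonneg _)
    rw [hC]
    nlinarith [abs_nonneg C0]
  obtain ⟨K0, hK0⟩ := hL
  set K : ℝ := |K0| + 1 with hK
  have hKp : 0 < K := by positivity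
  -- the final inequality fails for large W
  have hev : ∀ᶠ W : ℝ in atTop, 288 * (2 * K * W) ^ (2 / (p - 1)) + 24 * (C / τ') * (2 * K * W) ^ (1 / (p - 1)) * W ^ τ' < W := by
    have ha : 2 / (p - 1) - 1 < 0 := by
      have : 2 / (p - 1) = 2 * (1 / (p - 1)) := by ring
      rw [this]; linarith
    have hb : 1 / (p - 1) + τ' - 1 < 0 := by linarith
    have t1 : Tendsto (fun W : ℝ => 288 * (2 * K) ^ (2 / (p - 1)) * W ^ (-(1 - 2 / (p - 1))) +
        24 * (C / τ') * (2 * K) ^ (1 / (p - 1)) * W ^ (-(1 - 1 / (p - 1) - τ'))) atTop (𝓝 (288 * (2 * K) ^ (2 / (p - 1)) * 0 +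
        24 * (C / τ') * (2 * K) ^ (1 / (p - 1)) * 0)) :=
      ((tendsto_rpow_neg_atTop (by linarith)).const_mul _).add ((tendsto_rpow_neg_atTop (by linarith)).const_mul _)
    rw [mul_zero, mul_zero, add_zero] at t1
    filter_upwards [t1.eventually_lt_const one_pos, eventually_ge_atTop 1] with W h2 h3
    have hW0 : 0 < W := by linarith
    have e1 : (2 * K * W) ^ (2 / (p - 1)) = (2 * K) ^ (2 / (p - 1)) * (W ^ (-(1 - 2 / (p - 1))) * W) := by
      rw [Real.mul_rpow (by positivity) hW0.le]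
      congr 1
      conv_rhs => rw [← Real.rpow_one W, ← Real.rpow_mul hW0.le, one_mul, ← Real.rpow_add hW0]
      congr 1; ring
    have e2 : (2 * K * W) ^ (1 / (p - 1)) * W ^ τ' = (2 * K) ^ (1 / (p - 1)) * (W ^ (-(1 - 1 / (p - 1) - τ')) * W) := by
      rw [Real.mul_rpow (by positivity) hW0.le, mul_assoc]
      congr 1
      conv_rhs => rw [← Real.rpow_one W, ← Real.rpow_mul hW0.le, one_mul, ← Real.rpow_add hW0]
      rw [← Real.rpow_add hW0]
      congr 1; ring
    calc 288 * (2 * K * W) ^ (2 / (p - 1)) + 24 * (C / τ') * (2 * K * W) ^ (1 / (p - 1)) * W ^ τ'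
        = 288 * (2 * K * W) ^ (2 / (p - 1)) + 24 * (C / τ') * ((2 * K * W) ^ (1 / (p - 1)) * W ^ τ') := by ring
      _ = (288 * (2 * K) ^ (2 / (p - 1)) * W ^ (-(1 - 2 / (p - 1))) +
          24 * (C / τ') * (2 * K) ^ (1 / (p - 1)) * W ^ (-(1 - 1 / (p - 1) - τ'))) * W := by rw [e1, e2]; ring
      _ < 1 * W := mul_lt_mul_of_pos_right h2 hW0
      _ = W := one_mul W
  obtain ⟨W0, hW0⟩ := eventually_atTop.1 hev
  -- a good approximation
  have ht : Tendsto (fun n : ℕ => (n : ℝ) ^ (p - 1) / (2 * K)) atTop atTop :=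
    ((tendsto_rpow_atTop hp1).comp tendsto_natCast_atTop_atTop).atTop_div_const (by positivity)
  obtain ⟨n, ⟨m, hne, hm⟩, hn1, hn2⟩ :=
    (hK0.and_eventually ((eventually_ge_atTop 1).and (ht.eventually_ge_atTop (max W0 1)))).exists
  have hn0 : (0:ℝ) < n := by exact_mod_cast hn1
  set r : ℚ := (m : ℚ) / n with hr
  have hrr : ((r : ℚ) : ℝ) = (m : ℝ) / n := by rw [hr]; push_cast; rfl
  have hrr2 : ((r : ℚ) : ℝ) = (r.num : ℝ) / (r.den : ℝ) := by exact_mod_cast (Rat.num_div_den r).symm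
  have hqd : r.den ≤ n := by
    have h2 : ((r.den : ℤ)) ∣ (n : ℤ) := by
      have := Rat.den_dvd m (n : ℤ)
      rw [Rat.divInt_eq_div] at this
      rw [hr]
      exact_mod_cast this
    exact Nat.le_of_dvd hn1 (by exact_mod_cast h2)
  have hq1 : 1 ≤ r.den := r.den_pos
  have hqr : (1:ℝ) ≤ r.den := by exact_mod_cast hq1
  have hqn : (r.den : ℝ) ≤ n := by exact_mod_cast hqd
  have hco : IsCoprime r.num (r.den : ℤ) :=
    Int.isCoprime_iff_gcd_eq_one.2 (by simpa [Int.gcd, Nat.Coprime] using r.reduced)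
  set q := r.den with hq
  set δ := |x - (r.num : ℝ) / q| with hδ
  have hδm : δ = |x - m / n| := by rw [hδ, ← hrr2, hrr]
  have hδ0 : 0 < δ := by
    rw [hδm, abs_pos, sub_ne_zero]
    exact hne
  have hδK : δ < K / (n : ℝ) ^ p := by
    rw [hδm]
    refine lt_of_lt_of_le hm ?_
    apply div_le_div_of_nonneg_right _ (by positivity)
    rw [hK]
    have := le_abs_self K0
    linarith
  set W : ℝ := 1 / (2 * q * δ) with hW
  have hWp : 0 < W := by rw [hW]; positivity
  -- W is large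
  have hWn : (n : ℝ) ^ (p - 1) / (2 * K) ≤ W := by
    rw [hW, div_le_div_iff₀ (by positivity) (by positivity), one_mul]
    have h2 : δ * (n : ℝ) ^ p < K := by
      rwa [lt_div_iff₀ (by positivity)] at hδK
    have h3 : (n : ℝ) ^ (p - 1) * n = (n : ℝ) ^ p := by
      rw [Real.rpow_sub_one hn0.ne']
      field_simp
    calc (n : ℝ) ^ (p - 1) * (2 * q * δ) ≤ (n : ℝ) ^ (p - 1) * (2 * n * δ) := by
          apply mul_le_mul_of_nonneg_left _ (by positivity)
          apply mul_le_mul_of_nonneg_right _ hδ0.le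
          linarith
      _ = 2 * (δ * ((n : ℝ) ^ (p - 1) * n)) := by ring
      _ = 2 * (δ * (n : ℝ) ^ p) := by rw [h3]
      _ ≤ 2 * K := by linarith
  have hWbig : max W0 1 ≤ W := hn2.trans hWn
  have hW1 : 1 ≤ W := (le_max_right _ _).trans hWbig
  -- q in terms of W
  have hqW : (q : ℝ) ≤ (2 * K * W) ^ (1 / (p - 1)) := by
    have h2 : (q : ℝ) ^ (p - 1) ≤ 2 * K * W := by
      rw [div_le_iff₀ (by positivity)] at hWn
      calc (q : ℝ) ^ (p - 1) ≤ (n : ℝ) ^ (p - 1) := Real.rpow_le_rpow (by linarith) hqn hp1.le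
        _ ≤ 2 * K * W := by linarith
    calc (q : ℝ) = ((q : ℝ) ^ (p - 1)) ^ (1 / (p - 1)) := by
          rw [← Real.rpow_mul (by linarith), mul_one_div_cancel hp1.ne', Real.rpow_one]
      _ ≤ (2 * K * W) ^ (1 / (p - 1)) := Real.rpow_le_rpow (by positivity) h2 hinv0.le
  have hqW2 : (q : ℝ) ^ 2 ≤ (2 * K * W) ^ (2 / (p - 1)) := by
    calc (q : ℝ) ^ 2 ≤ ((2 * K * W) ^ (1 / (p - 1))) ^ 2 := pow_le_pow_left₀ (by linarith) hqW 2
      _ = (2 * K * W) ^ (2 / (p - 1)) := by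
          rw [← Real.rpow_natCast ((2 * K * W) ^ (1 / (p - 1))) 2, ← Real.rpow_mul (by positivity)]
          congr 1
          push_cast
          ring
  have hlo := J_lower hq1 hco hx (W := W) (by
    rw [← hδ, hW]
    field_simp)
  have hup := J_upper hτ0 hTT hW1
  have h3 : W ^ 2 / (24 * q) ≤ 12 * q * W + C / τ' * W ^ (1 + τ') := by linarith
  have hq0 : (0:ℝ) < q := by linarith
  rw [div_le_iff₀ (by positivity), Real.rpow_add hWp, Real.rpow_one] at h3
  have h4 : W ≤ 288 * (q:ℝ) ^ 2 + 24 * (C / τ') * q * W ^ τ' := by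
    have h5 : W * W ≤ W * (288 * (q:ℝ) ^ 2 + 24 * (C / τ') * q * W ^ τ') := by
      calc W * W = W ^ 2 := by ring
        _ ≤ _ := h3
        _ = _ := by ring
    exact le_of_mul_le_mul_left h5 hWp
  have h5 := hW0 W ((le_max_left _ _).trans hWbig)
  have hCτ : 0 ≤ C / τ' := by positivity
  have h6 : 24 * (C / τ') * q * W ^ τ' ≤ 24 * (C / τ') * (2 * K * W) ^ (1 / (p - 1)) * W ^ τ' := by
    apply mul_le_mul_of_nonneg_right _ (by positivity)
    exact mul_le_mul_of_nonneg_left hqW (by positivity)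
  linarith

end

end Pool.Agent.H313.FD
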