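import Pool.Agent.H313.FD.U2
import Pool.Agent.H313.FD.L2
import Pool.Graph.R_seed8.H353R3.S6

/-!
# Assembly
-/

set_option autoImplicit false

namespace Pool.Agent.H313.FD

open MeasureTheory Filter Topology Set
open Pool.Agent.Q120.FA (ps S E Mt)
open Pool.Agent.H295R2 (Zs zetaSup zetaSup_free half_le_zetaSup zetaSup_le_one zset_bdd zset_nonempty)

noncomputable section

/-- `|E_N(x)| = O(N^(θ+ε))` for all `ε > 0` -/
def Bd (θ x : ℝ) : Prop := ∀ ε : ℝ, 0 < ε → ∃ C : ℝ, ∀ N : ℕ, 1 ≤ N → |E N x| ≤ C * (N : ℝ) ^ (θ + ε)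

/-- the bound from above -/
def Up (θ x : ℝ) : Prop := ∀ ε : ℝ, 0 < ε → ∃ C : ℝ, ∀ N : ℕ, 1 ≤ N → E N x ≤ C * (N : ℝ) ^ (θ + ε)

/-- the bound from below -/
def Lo (θ x : ℝ) : Prop := ∀ ε : ℝ, 0 < ε → ∃ C : ℝ, ∀ N : ℕ, 1 ≤ N → -(C * (N : ℝ) ^ (θ + ε)) ≤ E N x

lemma Bd.up {θ x : ℝ} (h : Bd θ x) : Up θ x := fun ε hε => by
  obtain ⟨C, hC⟩ := h ε hε
  exact ⟨C, fun N hN => (le_abs_self _).trans (hC N hN)⟩

lemma Bd.lo {θ x : ℝ} (h : Bd θ x) : Lo θ x := fun ε hε => by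
  obtain ⟨C, hC⟩ := h ε hε
  exact ⟨C, fun N hN => by
    have := (neg_abs_le (E N x))
    have := hC N hN
    linarith⟩

lemma not_up {θ x : ℝ} {ρ : ℂ} (h : Seen ρ x) (hθ : θ < ρ.re) : ¬ Up θ x := fun hU => by
  obtain ⟨C, hC⟩ := hU ((ρ.re - θ) / 2) (by linarith)
  exact (seen_excludes h (τ := θ + (ρ.re - θ) / 2) (by linarith)).1 ⟨C, hC⟩

lemma not_lo {θ x : ℝ} {ρ : ℂ} (h : Seen ρ x) (hθ : θ < ρ.re) : ¬ Lo θ x := fun hU => by
  obtain ⟨C, hC⟩ := hU ((ρ.re - θ) / 2) (by linarith)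
  exact (seen_excludes h (τ := θ + (ρ.re - θ) / 2) (by linarith)).2 ⟨C, hC⟩

lemma three_le {τ : ℝ} (h : 1 / 2 ≤ τ) (h1 : τ < 1) : 3 ≤ 1 + 1 / (1 - τ) := by
  have : 2 ≤ 1 / (1 - τ) := by
    rw [le_div_iff₀ (by linarith)]
    linarith
  linarith

lemma exponent_eq {τ : ℝ} (h1 : τ < 1) : 1 - 1 / (1 + 1 / (1 - τ) - 1) = τ := by
  have : 0 < 1 - τ := by linarith
  field_simp
  ring

/-- the bound fails at the points of large irrationality exponent -/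
theorem bd_imp {τ : ℝ} (hτ : 1 / 2 ≤ τ) (hτ1 : τ < 1) {x : ℝ} (h0 : 0 < x)
    (h1 : x < 1) (hx : Irrational x) (hB : Bd τ x) : ∀ p : ℝ, 1 + 1 / (1 - τ) < p → ¬ LiouvilleWith p x := by
  have h3 := three_le hτ hτ1
  intro p hp hL
  have hp1 : 0 < p - 1 := by linarith
  have h4 : τ < 1 - 1 / (p - 1) := by
    have h5 : 1 / (1 - τ) < p - 1 := by linarith
    rw [div_lt_iff₀ (by linarith)] at h5
    have h6 : 1 / (p - 1) < 1 - τ := by
      rw [div_lt_iff₀ hp1]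
      linarith
    linarith
  set τ' := (τ + (1 - 1 / (p - 1))) / 2 with hτ'
  obtain ⟨C, hC⟩ := hB (τ' - τ) (by linarith)
  refine E_lower h0 h1 hx (by linarith) hL (τ := τ') (by linarith) ⟨C, fun N hN => ?_⟩
  have := hC N hN
  rwa [add_sub_cancel] at this

/-- the bound holds exactly at the points of small irrationality exponent -/
theorem bd_iff {τ : ℝ} (hτ : 1 / 2 ≤ τ) (hτ1 : τ < 1) (hz : ∀ s : ℂ, τ < s.re → Zs s ≠ 0) {x : ℝ} (h0 : 0 < x)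
    (h1 : x < 1) (hx : Irrational x) : Bd τ x ↔ ∀ p : ℝ, 1 + 1 / (1 - τ) < p → ¬ LiouvilleWith p x := by
  have h3 := three_le hτ hτ1
  refine ⟨bd_imp hτ hτ1 h0 h1 hx, fun hL ε hε => ?_⟩
  obtain ⟨C, _, hC⟩ := E_upper_kappa h0 h1 hx (κ := 1 + 1 / (1 - τ)) (by linarith) hL hτ hτ1.le hz hε
  refine ⟨C, fun N hN => ?_⟩
  have := hC N hN
  rwa [exponent_eq hτ1, max_self] at this

lemma bd_of_slow {θ : ℝ} (hθ : 1 / 2 ≤ θ) (hθ1 : θ ≤ 1) (hz : ∀ s : ℂ, θ < s.re → Zs s ≠ 0) {x : ℝ} (h0 : 0 < x)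
    (h1 : x < 1) (hx : Slow x) : Bd θ x := fun ε hε => by
  obtain ⟨C, _, hC⟩ := E_upper h0 h1 hx hθ hθ1 hz hε
  exact ⟨C, hC⟩

/-- `y > 0` is irrational, with irrationality exponent `2` -/
def Dio (y : ℝ) : Prop := 0 < y ∧ Irrational y ∧ ∀ p : ℝ, 2 < p → ¬ LiouvilleWith p y

lemma Dio.slow {y : ℝ} (h : Dio y) : Slow y := slow_of_not_liouville h.2.1 h.2.2

lemma dio_sqrt_two : Dio (√2) := by
  refine ⟨by positivity, irrational_sqrt_two, fun p hp => ?_⟩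
  refine quad_not_liouville irrational_sqrt_two (a := 1) (b := 0) (c := -2) one_ne_zero ?_ p hp
  norm_num

/-- the equivalent forms -/
def Forms (θ y : ℝ) : List Prop :=
  [∀ x : ℝ, x ∈ Ioo (0:ℝ) 1 → Irrational x → (Bd θ x ↔ ∀ p : ℝ, 1 + 1 / (1 - θ) < p → ¬ LiouvilleWith p x),
    ∀ᵐ x : ℝ, x ∈ Ioo (0:ℝ) 1 → Bd θ x,
    volume {x : ℝ | x ∈ Ioo (0:ℝ) 1 ∧ Up θ x} ≠ 0,
    volume {x : ℝ | x ∈ Ioo (0:ℝ) 1 ∧ Lo θ x} ≠ 0,
    ∀ a : ℕ, 1 ≤ a → Bd θ (1 / (a + y)),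
    ∃ᶠ a : ℕ in atTop, Up θ (1 / (a + y)),
    ∃ᶠ a : ℕ in atTop, Lo θ (1 / (a + y))]

lemma pos_of_ae {P : ℝ → Prop} (h : ∀ᵐ x : ℝ, x ∈ Ioo (0:ℝ) 1 → P x) : volume {x : ℝ | x ∈ Ioo (0:ℝ) 1 ∧ P x} ≠ 0 := by
  intro h0
  have h1 : ∀ᵐ x : ℝ, x ∉ {x : ℝ | x ∈ Ioo (0:ℝ) 1 ∧ P x} := by
    rw [ae_iff]
    exact measure_mono_null (fun x hx => not_not.1 hx) h0
  have h2 : ∀ᵐ x : ℝ, x ∉ Ioo (0:ℝ) 1 := by
    filter_upwards [h, h1] with x h3 h4 h5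
    exact h4 ⟨h5, h3 h5⟩
  rw [ae_iff] at h2
  have h4 : volume (Ioo (0:ℝ) 1) = 0 := measure_mono_null (fun z hz => not_not.2 hz) h2
  rw [Real.volume_Ioo] at h4
  norm_num at h4

lemma null_of_ae {P : ℝ → Prop} (h : ∀ᵐ x : ℝ, x ∈ Ioo (0:ℝ) 1 → ¬ P x) : volume {x : ℝ | x ∈ Ioo (0:ℝ) 1 ∧ P x} = 0 := by
  have h1 : ∀ᵐ x : ℝ, x ∉ {x : ℝ | x ∈ Ioo (0:ℝ) 1 ∧ P x} := by
    filter_upwards [h] with x hx hmem
    exact hx hmem.1 hmem.2
  rw [ae_iff] at h1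
  refine measure_mono_null (fun x hx => ?_) h1
  exact not_not.2 hx

theorem forms_tfae {θ : ℝ} (hθ : 1 / 2 ≤ θ) (hθ1 : θ < 1) {y : ℝ} (hy : Dio y) :
    ((∀ s : ℂ, θ < s.re → riemannZeta s ≠ 0) :: Forms θ y).TFAE := by
  have hslow : ∀ᵐ x : ℝ, ∀ p : ℝ, 2 < p → ¬ LiouvilleWith p x := ae_not_liouvilleWith
  unfold Forms
  tfae_have 1 → 2 := fun h x hx hirr => bd_iff hθ hθ1 (Zs_free (by linarith) h) hx.1 hx.2 hirr
  tfae_have 2 → 3 := by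
    intro h
    have h3 := three_le hθ hθ1
    filter_upwards [hslow, ae_slow] with x hx hs hmem
    exact (h x hmem hs.1).2 fun p hp => hx p (by linarith)
  tfae_have 3 → 4 := fun h => pos_of_ae (h.mono fun x hx hmem => (hx hmem).up)
  tfae_have 3 → 5 := fun h => pos_of_ae (h.mono fun x hx hmem => (hx hmem).lo)
  tfae_have 4 → 1 := by
    intro h
    by_contra hcon
    obtain ⟨ρ, hz, hρ, hρ0, hρ1⟩ := exists_zero_of_not_free (by linarith) hcon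
    apply h
    refine null_of_ae ?_
    filter_upwards [ae_seen] with x hx hmem
    exact not_up (hx hmem ρ hz hρ0 hρ1) hρ
  tfae_have 5 → 1 := by
    intro h
    by_contra hcon
    obtain ⟨ρ, hz, hρ, hρ0, hρ1⟩ := exists_zero_of_not_free (by linarith) hcon
    apply h
    refine null_of_ae ?_
    filter_upwards [ae_seen] with x hx hmem
    exact not_lo (hx hmem ρ hz hρ0 hρ1) hρ
  tfae_have 1 → 6 := by
    intro h a ha
    have hw := step_mem (a := fun _ => a) (fun _ => ha) 0 hy.1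
    exact bd_of_slow hθ hθ1.le (Zs_free (by linarith) h) hw.1 hw.2 (slow_step hy.1 hy.slow ha)
  tfae_have 6 → 7 := fun h => ((eventually_ge_atTop 1).mono fun a ha => (h a ha).up).frequently
  tfae_have 6 → 8 := fun h => ((eventually_ge_atTop 1).mono fun a ha => (h a ha).lo).frequently
  tfae_have 7 → 1 := by
    intro h
    by_contra hcon
    obtain ⟨ρ, hz, hρ, hρ0, hρ1⟩ := exists_zero_of_not_free (by linarith) hcon
    obtain ⟨a, h1, h2⟩ := (h.and_eventually (seen_shift hy.1 hy.slow hz hρ0 hρ1)).exists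
    exact not_up h2 hρ h1
  tfae_have 8 → 1 := by
    intro h
    by_contra hcon
    obtain ⟨ρ, hz, hρ, hρ0, hρ1⟩ := exists_zero_of_not_free (by linarith) hcon
    obtain ⟨a, h1, h2⟩ := (h.and_eventually (seen_shift hy.1 hy.slow hz hρ0 hρ1)).exists
    exact not_lo h2 hρ h1
  tfae_finish

lemma rh_free : RiemannHypothesis ↔ ∀ s : ℂ, 1 / 2 < s.re → riemannZeta s ≠ 0 := by
  constructor
  · intro h s hs hz
    have hne1 : s ≠ 1 := by
      rintro rfl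
      exact riemannZeta_one_ne_zero hz
    have := h s hz (by
      rintro ⟨n, rfl⟩
      simp at hs
      have h2 : (0:ℝ) ≤ n := n.cast_nonneg
      linarith) hne1
    linarith
  · intro h
    exact H353.RH_of fun s hs _ => h s hs

end

end Pool.Agent.H313.FD
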