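import Pool.Agent.H313.FD.B3

/-!
# The sums `S(n; x)` near a rational number
-/

set_option autoImplicit false

namespace Pool.Agent.H313.FD

open MeasureTheory Filter Topology Set
open Pool.Agent.Q120.FA (ps S E Mt)

noncomputable section

lemma ps_shift {q : ℕ} (hq : 1 ≤ q) (a : ℤ) (n : ℕ) {t : ℝ} (h0 : 0 ≤ t) (h1 : t < 1 / q) :
    ps ((n : ℝ) * ((a : ℝ) / q) + t) = ps ((n : ℝ) * ((a : ℝ) / q)) + t := by
  have hqr : (0 : ℝ) < q := by exact_mod_cast hq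
  set y : ℝ := (n : ℝ) * ((a : ℝ) / q) with hy
  have h2 : Int.fract y ≤ 1 - 1 / q := by
    have e : Int.fract y = (((n : ℤ) * a - q * ⌊y⌋ : ℤ) : ℝ) / q := by
      unfold Int.fract
      push_cast
      rw [hy]
      field_simp
    have h3 : Int.fract y < 1 := Int.fract_lt_one y
    rw [e, div_lt_one hqr] at h3
    have h4 : ((n : ℤ) * a - q * ⌊y⌋ : ℤ) < (q : ℤ) := by exact_mod_cast h3
    have h5 : ((n : ℤ) * a - q * ⌊y⌋ : ℤ) ≤ (q : ℤ) - 1 := by omega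
    have h6 : (((n : ℤ) * a - q * ⌊y⌋ : ℤ) : ℝ) ≤ (q : ℝ) - 1 := by exact_mod_cast h5
    rw [e, div_le_iff₀ hqr, sub_mul, one_div_mul_cancel hqr.ne', one_mul]
    exact h6
  unfold ps
  have h3 : Int.fract (y + t) = Int.fract y + t := by
    rw [Int.fract_eq_iff]
    refine ⟨by have := Int.fract_nonneg y; linarith, by linarith, ⌊y⌋, ?_⟩
    unfold Int.fract
    ring
  rw [h3]
  ring

lemma S_rat {q : ℕ} (hq : 1 ≤ q) {a : ℤ} (ha : IsCoprime a (q : ℤ)) (n : ℕ) :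
    |S n ((a : ℝ) / q) + n / (2 * q)| ≤ q := by
  have hqr : (1 : ℝ) ≤ q := by exact_mod_cast hq
  have hq0 : (0 : ℝ) < q := by linarith
  have hdm : n / q * q + n % q = n := Nat.div_add_mod' n q
  have hR : n % q < q := Nat.mod_lt _ hq
  set L := n / q
  set R := n % q
  have h1 : S n ((a : ℝ) / q) = L * (-(1/2) : ℝ) + ∑ r ∈ Finset.range R, ps ((((L * q + r : ℕ) : ℝ) + 1) * ((a : ℝ) / q)) := by
    conv_lhs => rw [← hdm]
    rw [Pool.Agent.Q65.FA.S_dec]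
    congr 1
    have h2 : ∀ j ∈ Finset.range L, ∑ r ∈ Finset.range q, ps (((j : ℝ) * q + r + 1) * ((a : ℝ) / q)) = -(1/2) := by
      intro j _
      have := Pool.Agent.Q65.FA.herm q hq a ha ((j : ℝ) * q * ((a : ℝ) / q))
      have e2 : (q : ℝ) * ((j : ℝ) * q * ((a : ℝ) / q)) = ((j * q * a : ℤ) : ℝ) := by
        push_cast
        field_simp
      have e3 : ps ((q : ℝ) * ((j : ℝ) * q * ((a : ℝ) / q))) = -(1/2) := by
        rw [e2]
        unfold ps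
        rw [Int.fract_intCast]
        norm_num
      rw [← e3, ← this]
      refine Finset.sum_congr rfl fun r _ => ?_
      congr 1
      ring
    rw [Finset.sum_congr rfl h2, Finset.sum_const, Finset.card_range, nsmul_eq_mul]
  have h2 : |∑ r ∈ Finset.range R, ps ((((L * q + r : ℕ) : ℝ) + 1) * ((a : ℝ) / q))| ≤ R / 2 := by
    refine (Finset.abs_sum_le_sum_abs _ _).trans ?_
    refine (Finset.sum_le_sum fun r _ => ps_abs _).trans ?_
    simp
    linarith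
  have hRq : (R : ℝ) ≤ q := by exact_mod_cast hR.le
  have hn : (n : ℝ) = L * q + R := by exact_mod_cast hdm.symm
  have h3 : (n : ℝ) / (2 * q) = L / 2 + R / (2 * q) := by
    rw [hn]; field_simp
  have h4 : (R : ℝ) / (2 * q) ≤ 1 / 2 := by
    rw [div_le_div_iff₀ (by positivity) (by norm_num)]
    linarith
  have h5 : 0 ≤ (R : ℝ) / (2 * q) := by positivity
  rw [h1, h3]
  rw [abs_le] at h2 ⊢
  constructor <;> linarith [h2.1, h2.2]

lemma sum_id_Icc' (n : ℕ) : ∑ d ∈ Finset.Icc 1 n, (d : ℝ) = (n : ℝ) * (n + 1) / 2 := sum_id_Icc n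

lemma S_near {q : ℕ} (hq : 1 ≤ q) {a : ℤ} (ha : IsCoprime a (q : ℤ)) {δ : ℝ} (hδ : 0 ≤ δ) {n : ℕ}
    (hn : (n : ℝ) * δ < 1 / q) : |S n ((a : ℝ) / q + δ) - (δ * (n : ℝ) ^ 2 / 2 - n / (2 * q))| ≤ 2 * (q : ℝ) := by
  have hqr : (1 : ℝ) ≤ q := by exact_mod_cast hq
  have hq0 : (0 : ℝ) < q := by linarith
  have h1 : S n ((a : ℝ) / q + δ) = S n ((a : ℝ) / q) + δ * ((n : ℝ) * (n + 1) / 2) := by
    rw [← sum_id_Icc' n, Finset.mul_sum]
    unfold S
    rw [← Finset.sum_add_distrib]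
    refine Finset.sum_congr rfl fun d hd => ?_
    have hdn : (d : ℝ) ≤ n := by exact_mod_cast (Finset.mem_Icc.1 hd).2
    have h2 : (d : ℝ) * ((a : ℝ) / q + δ) = (d : ℝ) * ((a : ℝ) / q) + d * δ := by ring
    rw [h2, ps_shift hq a d (by positivity) (lt_of_le_of_lt (mul_le_mul_of_nonneg_right hdn hδ) hn)]
    ring
  have h2 := S_rat hq ha n
  have h3 : 0 ≤ (n : ℝ) * δ := by positivity
  have h4 : (n : ℝ) * δ ≤ 1 := by
    have : 1 / (q : ℝ) ≤ 1 := by rw [div_le_one hq0]; exact hqr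
    linarith
  rw [h1]
  rw [abs_le] at h2 ⊢
  constructor <;> nlinarith [h2.1, h2.2]

lemma ps_neg {y : ℝ} (hy : Irrational y) : ps (-y) = -ps y := by
  unfold ps
  rw [Int.fract_neg]
  · ring
  · intro h
    rw [Int.fract_eq_zero_iff] at h
    obtain ⟨k, hk⟩ := h
    exact hy ⟨k, by push_cast; exact hk⟩

lemma S_neg' {x : ℝ} (hx : Irrational x) (n : ℕ) : S n (-x) = -S n x := by
  unfold S
  rw [← Finset.sum_neg_distrib]
  refine Finset.sum_congr rfl fun d hd => ?_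
  have hd0 : d ≠ 0 := by
    have := (Finset.mem_Icc.1 hd).1
    omega
  rw [mul_neg, ps_neg (hx.natCast_mul hd0)]

lemma S_near_abs {q : ℕ} (hq : 1 ≤ q) {a : ℤ} (ha : IsCoprime a (q : ℤ)) {x : ℝ} (hx : Irrational x) :
    ∃ s : ℝ, |s| = 1 ∧ ∀ u : ℝ, 0 ≤ u → u * |x - (a : ℝ) / q| < 1 / q →
      |s * S ⌊u⌋₊ x - (|x - (a : ℝ) / q| * u ^ 2 / 2 - u / (2 * q))| ≤ 4 * (q : ℝ) := by
  have hqr : (1 : ℝ) ≤ q := by exact_mod_cast hq
  have hq0 : (0 : ℝ) < q := by linarith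
  set δ := |x - (a : ℝ) / q| with hδ
  have hδ0 : 0 ≤ δ := abs_nonneg _
  -- integers
  have key : ∃ s : ℝ, |s| = 1 ∧ ∀ n : ℕ, (n : ℝ) * δ < 1 / q →
      |s * S n x - (δ * (n : ℝ) ^ 2 / 2 - n / (2 * q))| ≤ 2 * (q : ℝ) := by
    rcases le_total ((a : ℝ) / q) x with h | h
    · have e : δ = x - (a : ℝ) / q := abs_of_nonneg (by linarith)
      refine ⟨1, by simp, fun n hn => ?_⟩
      have := S_near hq ha hδ0 hn
      have e2 : (a : ℝ) / q + δ = x := by rw [e]; ring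
      rw [e2] at this
      rwa [one_mul]
    · have e : δ = (a : ℝ) / q - x := by rw [hδ, abs_of_nonpos (by linarith)]; ring
      refine ⟨-1, by simp, fun n hn => ?_⟩
      have ha' : IsCoprime (-a) (q : ℤ) := ha.neg_left
      have := S_near hq ha' hδ0 hn
      have e2 : ((-a : ℤ) : ℝ) / q + δ = -x := by rw [e]; push_cast; ring
      rw [e2, S_neg' hx] at this
      rwa [neg_one_mul]
  obtain ⟨s, hs, H⟩ := key
  refine ⟨s, hs, fun u hu hlt => ?_⟩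
  have hfl : ((⌊u⌋₊ : ℕ) : ℝ) ≤ u := Nat.floor_le hu
  have hfl2 : u < ((⌊u⌋₊ : ℕ) : ℝ) + 1 := Nat.lt_floor_add_one u
  set n := ⌊u⌋₊
  have hn0 : (0:ℝ) ≤ n := Nat.cast_nonneg _
  have h1 := H n (lt_of_le_of_lt (mul_le_mul_of_nonneg_right hfl hδ0) hlt)
  have h2 : u * δ ≤ 1 := by
    have : 1 / (q : ℝ) ≤ 1 := by rw [div_le_one hq0]; exact hqr
    linarith
  have h3 : |(δ * u ^ 2 / 2 - u / (2 * q)) - (δ * (n : ℝ) ^ 2 / 2 - n / (2 * q))| ≤ 2 * (q : ℝ) := by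
    have e1 : (δ * u ^ 2 / 2 - u / (2 * q)) - (δ * (n : ℝ) ^ 2 / 2 - n / (2 * q)) =
        δ * ((u - n) * (u + n)) / 2 - (u - n) / (2 * q) := by field_simp; ring
    rw [e1]
    have h4 : 0 ≤ (u - n) / (2 * q) := div_nonneg (by linarith) (by linarith)
    have h5 : (u - n) / (2 * q) ≤ 1 := by
      rw [div_le_one (by positivity)]
      linarith
    have h6 : (u - n) * (u + n) ≤ 2 * u := by nlinarith
    have h7 : 0 ≤ (u - n) * (u + n) := mul_nonneg (by linarith) (by linarith)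
    have h8 : δ * ((u - n) * (u + n)) ≤ δ * (2 * u) := mul_le_mul_of_nonneg_left h6 hδ0
    have h9 : 0 ≤ δ * ((u - n) * (u + n)) := mul_nonneg hδ0 h7
    rw [abs_le]
    constructor <;> nlinarith
  have e : s * S n x - (δ * u ^ 2 / 2 - u / (2 * q)) =
      (s * S n x - (δ * (n : ℝ) ^ 2 / 2 - n / (2 * q))) - ((δ * u ^ 2 / 2 - u / (2 * q)) - (δ * (n : ℝ) ^ 2 / 2 - n / (2 * q))) := by ring
  rw [e]
  have := abs_sub (s * S n x - (δ * (n : ℝ) ^ 2 / 2 - n / (2 * q))) ((δ * u ^ 2 / 2 - u / (2 * q)) - (δ * (n : ℝ) ^ 2 / 2 - n / (2 * q)))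
  linarith

/-- Möbius inversion -/
lemma S_eq_sum_TT (x : ℝ) (n : ℕ) : S n x = ∑ m ∈ Finset.Icc 1 n, TT x ((n / m : ℕ) : ℝ) := by
  have e0 : psC x = ((ArithmeticFunction.zeta : ArithmeticFunction ℕ) : ArithmeticFunction ℂ) * (psC x * muC) := by
    have h1 : muC * ((ArithmeticFunction.zeta : ArithmeticFunction ℕ) : ArithmeticFunction ℂ) = 1 := by
      unfold muC
      exact ArithmeticFunction.coe_moebius_mul_coe_zeta
    rw [mul_comm, mul_assoc, h1, mul_one]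
  have h := ArithmeticFunction.sum_Ioc_mul_eq_sum_sum ((ArithmeticFunction.zeta : ArithmeticFunction ℕ) : ArithmeticFunction ℂ)
    (psC x * muC) n
  rw [← e0] at h
  have e : ∀ m : ℕ, Finset.Ioc 0 m = Finset.Icc 1 m := fun m => rfl
  rw [e, sum_psC] at h
  have h2 : ∑ m ∈ Finset.Icc 1 n, ((ArithmeticFunction.zeta : ArithmeticFunction ℕ) : ArithmeticFunction ℂ) m *
      ∑ k ∈ Finset.Ioc 0 (n / m), (psC x * muC) k = ((∑ m ∈ Finset.Icc 1 n, TT x ((n / m : ℕ) : ℝ) : ℝ) : ℂ) := by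
    push_cast
    refine Finset.sum_congr rfl fun m hm => ?_
    have hm0 : m ≠ 0 := by
      have := (Finset.mem_Icc.1 hm).1
      omega
    rw [e, sum_aa]
    have e2 : ((ArithmeticFunction.zeta : ArithmeticFunction ℕ) : ArithmeticFunction ℂ) m = 1 := by
      rw [ArithmeticFunction.natCoe_apply, ArithmeticFunction.zeta_apply_ne hm0]
      simp
    rw [e2, one_mul]
    unfold TT
    rw [Nat.floor_natCast]
  rw [h2] at h
  exact_mod_cast h

/-- for real arguments -/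
lemma S_floor_eq {x u : ℝ} (_hu : 0 ≤ u) {M : ℕ} (hM : ⌊u⌋₊ ≤ M) : S ⌊u⌋₊ x = ∑ m ∈ Finset.Icc 1 M, TT x (u / m) := by
  rw [S_eq_sum_TT]
  have h1 : ∀ m : ℕ, TT x (u / m) = TT x ((⌊u⌋₊ / m : ℕ) : ℝ) := by
    intro m
    unfold TT
    rw [Nat.floor_div_natCast, Nat.floor_natCast]
  simp_rw [h1]
  refine Finset.sum_subset (Finset.Icc_subset_Icc_right hM) fun m hm hm' => ?_
  rw [Finset.mem_Icc] at hm hm'
  have : ⌊u⌋₊ / m = 0 := Nat.div_eq_of_lt (by omega)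
  rw [this]
  simp [TT]

end

end Pool.Agent.H313.FD
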