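import Pool.Agent.H313.FD.D1

/-!
# Perron's formula and Plancherel's theorem, with a bound in mean square
(the argument of `Pool.Agent.H295R2.T5`, without a uniform bound for the kernel)
-/

set_option autoImplicit false
set_option maxHeartbeats 1000000

namespace Pool.Agent.H313.FD

open MeasureTheory Filter Topology Set
open Pool.Agent.H295R2

noncomputable section

theorem PP {θ σ ε B : ℝ} (hθ : 1/4 ≤ θ) (hz : ∀ s : ℂ, θ < s.re → Zs s ≠ 0) (hσ : θ < σ)
    (hσ2 : σ ≤ 2) (hε : 0 < ε) (hε1 : ε ≤ 1/4) (hB : 0 < B) :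
    ∃ C > 0, ∀ (k : ℝ → ℂ) (B' u₀ : ℝ), Nice k B' 0 u₀ →
      (∫ u, ‖k u‖ ^ 2 * Real.exp (-(2 * σ * u)) ≤ B) →
      (∀ h : ℝ, 0 < h → h ≤ 1 → ∫ u, ‖k (u + h) - k u‖ ^ 2 * Real.exp (-(2 * σ * u)) ≤ B * h) →
      ∀ η x : ℝ, 0 < η → η ≤ 1 →
        ‖∑' m : ℕ, (ArithmeticFunction.moebius m : ℂ) * avg η (avg η k) (x - Real.log m)‖
          ≤ C * Real.exp (σ * x) * η ^ (-(3 * ε)) := by
  obtain ⟨Cf, hCf0, hCf⟩ := fz_bound hθ hz hσ hε
  obtain ⟨Cf2, hCf20, hCf2⟩ := fz_bound hθ hz hσ (ε := 1 / 2) (by norm_num)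
  have hσ4 : 1 / 4 ≤ σ := by linarith
  have hσ0 : 0 < σ := by linarith
  set r : ℝ := (2:ℝ) ^ (-ε) with hr
  have hr0 : 0 < r := by rw [hr]; positivity
  have hr1 : r < 1 := by
    rw [hr]; exact Real.rpow_lt_one_of_one_lt_of_neg (by norm_num) (by linarith)
  have hr1' : 0 < 1 - r := by linarith
  set K0 : ℝ := 100 * Cf * (B + 2) with hK0
  set K1 : ℝ := 1650 * Cf * (4 * B + 2) with hK1
  have hK0' : 0 < K0 := by rw [hK0]; positivity
  have hK1' : 0 < K1 := by rw [hK1]; positivity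
  refine ⟨K0 + K1 / (1 - r), by positivity, fun k B' u₀ hk hk2 hdiff η x hη hη1 => ?_⟩
  have hper := perron (x := x) hθ hz hσ hσ2 hk hη hη1
  rw [hper.tsum_eq]
  -- notation
  set L : ℝ → ℝ := fun ξ => ‖Lap k (σ + 2 * Real.pi * ξ * Complex.I)‖ with hL
  set w : ℝ → ℝ := fun ξ => ‖phi η (σ + 2 * Real.pi * ξ * Complex.I)‖ ^ 2 *
    ‖fz (σ + 2 * Real.pi * ξ * Complex.I)‖ with hw
  have hL0 : ∀ ξ, 0 ≤ L ξ := fun ξ => norm_nonneg _
  have hw0 : ∀ ξ, 0 ≤ w ξ := fun ξ => by simp only [hw]; positivity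
  have hPH : ∀ ξ : ℝ, ‖PH η x k (σ + 2 * Real.pi * ξ * Complex.I)‖ = Real.exp (σ * x) * (L ξ * w ξ) := by
    intro ξ
    unfold PH
    rw [norm_mul, norm_mul, norm_mul, norm_pow]
    have h1 : ‖Complex.exp (((σ : ℂ) + 2 * Real.pi * ξ * Complex.I) * x)‖ = Real.exp (σ * x) := by
      rw [Complex.norm_exp]
      congr 1
      simp
    rw [h1]
    simp only [hL, hw]
    ring
  -- integrability
  have hPHint : Integrable (fun ξ : ℝ => PH η x k (σ + 2 * Real.pi * ξ * Complex.I)) := by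
    obtain ⟨Bd, hBd⟩ := PH_bound (x := x) hk hη hη1 hσ0 hCf2
    refine scale_integrable (vertical_integrable (B := Bd) ?_ ?_)
    · intro s hs
      have hs0 : s ≠ 0 := by rintro rfl; simp at hs; linarith
      have e1 : DifferentiableAt ℂ (Lap k) s := hk.Lap_differentiableAt (by linarith)
      have e2 := phi_differentiableAt hη hs0
      have e3 := fz_differentiableAt (hz s (by linarith))
      have : DifferentiableAt ℂ (PH η x k) s := by
        unfold PH
        fun_prop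
      exact this.continuousAt
    · intro s hs
      exact hBd s hs.ge (hs.le.trans hσ2)
  have hLw : Integrable (fun ξ => L ξ * w ξ) := by
    have h1 := hPHint.norm.const_mul (Real.exp (-(σ * x)))
    refine h1.congr (Eventually.of_forall fun ξ => ?_)
    simp only
    rw [hPH ξ, ← mul_assoc, ← Real.exp_add]
    simp
  have hL2 : Integrable (fun ξ => L ξ ^ 2) := (plancherel_Lap hk hσ0).1
  have hηε : (1:ℝ) ≤ η ^ (-(3 * ε)) := Real.one_le_rpow_of_pos_of_le_one_of_nonpos hη hη1 (by linarith)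
  set E : ℝ := η ^ (-(3 * ε)) with hE
  have hE0 : 0 < E := by rw [hE]; positivity
  have hη2 : η ^ (-(2 * ε)) ≤ η ^ (-(3 * ε)) := by
    apply Real.rpow_le_rpow_of_exponent_ge hη hη1
    linarith
  -- the ball
  have hball : ∫ ξ in tball 1, L ξ * w ξ ≤ K0 * E := by
    have h1 : ∫ ξ in tball 1, L ξ ^ 2 ≤ B := by
      refine (setIntegral_le_integral hL2 (Eventually.of_forall fun ξ => by positivity)).trans ?_
      obtain ⟨_, p2⟩ := plancherel_Lap hk hσ0
      simp only [hL]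
      rw [p2]
      exact hk2
    have h2 := t5_amgm (W := 200 * Cf * 1 ^ ε) (V := 2 * 1) (lam := 1) (tball_meas 1) hL0 hL2
      (fun ξ hξ => t5_w_ball hη hη1 hσ4 hσ2 hε hε1 hCf0 hCf le_rfl hξ) (by positivity)
      hLw.integrableOn h1 (by positivity) (tball_volume zero_le_one) one_pos
    refine h2.trans ?_
    rw [Real.one_rpow]
    have e1 : 200 * Cf * 1 * (1 * B + 2 * 1 / 1) / 2 = K0 * 1 := by rw [hK0]; ring
    rw [e1]
    exact mul_le_mul_of_nonneg_left hηε hK0'.le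
  -- the bands
  have hband : ∀ j : ℕ, ∫ ξ in tband (2 ^ j), L ξ * w ξ ≤ K1 * E * r ^ j := by
    intro j
    set R : ℝ := 2 ^ j with hR
    have hR1 : 1 ≤ R := by
      rw [hR]
      exact one_le_pow₀ (by norm_num)
    have hR0 : 0 < R := by linarith
    have h1 : ∫ ξ in tband R, L ξ ^ 2 ≤ 8 * B / R := by
      refine (t5_band hk hσ0 hR1).trans ?_
      have h2 := hdiff (1 / (2 * R)) (by positivity) (by
        rw [div_le_one (by positivity)]; linarith)
      calc 16 * ∫ u, ‖k (u + 1 / (2 * R)) - k u‖ ^ 2 * Real.exp (-(2 * σ * u))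
          ≤ 16 * (B * (1 / (2 * R))) := mul_le_mul_of_nonneg_left h2 (by norm_num)
        _ = _ := by field_simp; ring
    have hV : volume (tband R) ≤ ENNReal.ofReal (4 * R) := by
      refine (measure_mono tband_subset).trans ((tball_volume (by positivity)).trans ?_)
      apply ENNReal.ofReal_le_ofReal
      linarith
    have h2 := t5_amgm (W := 1650 * Cf * R ^ (-ε) * η ^ (-(2 * ε))) (V := 4 * R)
      (lam := R) (tband_meas R) hL0 hL2
      (fun ξ hξ => t5_w_band hη hη1 hσ4 hσ2 hε hε1 hCf0 hCf hR1 hξ) (by positivity)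
      hLw.integrableOn h1 (by positivity) hV (by positivity)
    refine h2.trans ?_
    have e1 : R * (8 * B / R) = 8 * B := by field_simp
    have e2 : 4 * R / R = 4 := by field_simp
    rw [e1, e2]
    have e3 : R ^ (-ε) ≤ r ^ j := by
      rw [hR, hr, ← Real.rpow_natCast ((2:ℝ) ^ (-ε)) j,
        ← Real.rpow_mul (by norm_num), mul_comm (-ε) (j:ℝ), Real.rpow_mul (by norm_num), Real.rpow_natCast]
    calc 1650 * Cf * R ^ (-ε) * η ^ (-(2 * ε)) * (8 * B + 4) / 2
        = K1 * (η ^ (-(2 * ε))) * R ^ (-ε) := by rw [hK1]; ring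
      _ ≤ K1 * (η ^ (-(3 * ε))) * r ^ j := by gcongr
  -- induction
  have hind : ∀ J : ℕ, ∫ ξ in tball (2 ^ J), L ξ * w ξ ≤
      K0 * E + K1 * E * ∑ j ∈ Finset.range J, r ^ j := by
    intro J
    induction J with
    | zero => simpa using hball
    | succ J ih =>
      have h1 : (2:ℝ) ^ (J + 1) = 2 * (2 ^ J) := by ring
      rw [h1, tball_double (by positivity), setIntegral_union tball_disj (tband_meas _)
        hLw.integrableOn hLw.integrableOn, Finset.sum_range_succ, mul_add]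
      linarith [hband J]
  have hgeom : ∀ J : ℕ, ∑ j ∈ Finset.range J, r ^ j ≤ 1 / (1 - r) := by
    intro J
    have h1 := (summable_geometric_of_lt_one hr0.le hr1).sum_le_tsum (Finset.range J)
      (fun j _ => by positivity)
    rw [tsum_geometric_of_lt_one hr0.le hr1] at h1
    rwa [one_div]
  have hbound : ∀ J : ℕ, ∫ ξ in tball (2 ^ J), L ξ * w ξ ≤ (K0 + K1 / (1 - r)) * E := by
    intro J
    refine (hind J).trans ?_
    calc K0 * E + K1 * E * ∑ j ∈ Finset.range J, r ^ j ≤ K0 * E + K1 * E * (1 / (1 - r)) := by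
          gcongr
          exact hgeom J
      _ = _ := by ring
  -- the limit
  have hmono : Monotone fun J : ℕ => tball (2 ^ J) := by
    intro a b hab ξ hξ
    have h1 : |2 * Real.pi * ξ| ≤ 2 ^ a := hξ
    show |2 * Real.pi * ξ| ≤ 2 ^ b
    have h2 : (2:ℝ) ^ a ≤ 2 ^ b := pow_le_pow_right₀ (by norm_num) hab
    linarith
  have hunion : (⋃ J : ℕ, tball (2 ^ J)) = univ := by
    rw [eq_univ_iff_forall]
    intro ξ
    rw [mem_iUnion]
    obtain ⟨J, hJ⟩ := pow_unbounded_of_one_lt |2 * Real.pi * ξ| (one_lt_two (α := ℝ))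
    exact ⟨J, hJ.le⟩
  have hlim := tendsto_setIntegral_of_monotone (μ := volume) (f := fun ξ => L ξ * w ξ)
    (fun J : ℕ => tball_meas (2 ^ J)) hmono hLw.integrableOn
  rw [hunion, setIntegral_univ] at hlim
  have hfin : ∫ ξ, L ξ * w ξ ≤ (K0 + K1 / (1 - r)) * E :=
    le_of_tendsto' hlim hbound
  calc ‖∫ ξ : ℝ, PH η x k (σ + 2 * Real.pi * ξ * Complex.I)‖
      ≤ ∫ ξ : ℝ, ‖PH η x k (σ + 2 * Real.pi * ξ * Complex.I)‖ := norm_integral_le_integral_norm _
    _ = Real.exp (σ * x) * ∫ ξ, L ξ * w ξ := by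
        simp_rw [hPH]
        rw [integral_const_mul]
    _ ≤ Real.exp (σ * x) * ((K0 + K1 / (1 - r)) * E) :=
        mul_le_mul_of_nonneg_left hfin (Real.exp_pos _).le
    _ = _ := by rw [hE]; ring

end

end Pool.Agent.H313.FD
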