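import Pool.Agent.H313.FD.U1

/-!
# The upper bound at every irrational point
-/

set_option autoImplicit false
set_option maxHeartbeats 1000000

namespace Pool.Agent.H313.FD

open MeasureTheory Filter Topology Set
open Pool.Agent.Q120.FA (ps S E Mt)
open Pool.Agent.H295R2 (Zs Nice avg Lap avg_avg_sub_le floor_exp mu abs_mu_le integral_ind_exp integrable_ind_exp)

noncomputable section

/-- sums of `ψ(θ + n x)` over `N` consecutive `n` are `O(N^δ)`, uniformly in the shift -/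
def Grow (δ x : ℝ) : Prop :=
  ∃ A : ℝ, 0 ≤ A ∧ ∀ (N : ℕ) (θ : ℝ), |∑ r ∈ Finset.range N, ps (θ + ((r : ℝ) + 1) * x)| ≤ A * (N : ℝ) ^ δ

lemma grow_of_not_liouville {x δ : ℝ} (hx : Irrational x) (hδ : 0 < δ) (hδ1 : δ < 1)
    (hL : ¬ LiouvilleWith (1 + 1 / (1 - δ)) x) : Grow δ x := by
  obtain ⟨N0, hN0⟩ := dirichlet_slow hx hδ hδ1 hL
  have h2d : (2 : ℝ)⁻¹ ^ δ < 1 := Real.rpow_lt_one (by norm_num) (by norm_num) hδ
  have h2d0 : 0 < (2 : ℝ)⁻¹ ^ δ := by positivity
  set A : ℝ := N0 + 4 / (1 - (2 : ℝ)⁻¹ ^ δ) with hA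
  have hA1 : (N0 : ℝ) ≤ A := by
    rw [hA]
    have : 0 ≤ 4 / (1 - (2 : ℝ)⁻¹ ^ δ) := div_nonneg (by norm_num) (by linarith)
    linarith
  have hA0 : 0 ≤ A := (Nat.cast_nonneg _).trans hA1
  have hA2 : 4 ≤ A * (1 - (2 : ℝ)⁻¹ ^ δ) := by
    rw [hA, add_mul, div_mul_cancel₀ _ (by linarith)]
    have : 0 ≤ (N0 : ℝ) * (1 - (2 : ℝ)⁻¹ ^ δ) := mul_nonneg (Nat.cast_nonneg _) (by linarith)
    linarith
  refine ⟨A, hA0, ?_⟩
  intro N
  induction N using Nat.strong_induction_on with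
  | _ N ih =>
    intro θ
    rcases Nat.eq_zero_or_pos N with rfl | hNpos
    · simp
      positivity
    have hNr : (1 : ℝ) ≤ N := by exact_mod_cast hNpos
    rcases lt_or_ge N N0 with hlt | hge
    · refine (abs_range_ps x θ N).trans ?_
      have h1 : (1 : ℝ) ≤ (N : ℝ) ^ δ := Real.one_le_rpow hNr hδ.le
      have h2 : (N : ℝ) ≤ N0 := by exact_mod_cast hlt.le
      nlinarith
    · obtain ⟨q, a, hq1, hqN, hco, hβ, hqδ⟩ := hN0 N hge hNpos
      have hqr : (0 : ℝ) < q := by exact_mod_cast hq1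
      have hdm : N / q * q + N % q = N := Nat.div_add_mod' N q
      have hRq : N % q < q := Nat.mod_lt _ hq1
      have hL1 : 1 ≤ N / q := Nat.div_pos hqN hq1
      have hRN : N % q < N := by nlinarith
      have hR2 : 2 * (N % q) ≤ N := by nlinarith
      set L := N / q
      set R := N % q
      have hNr0 : (0 : ℝ) < N := by linarith
      have hsplit : ∑ r ∈ Finset.range N, ps (θ + ((r : ℝ) + 1) * x) =
          ∑ j ∈ Finset.range L, ∑ r ∈ Finset.range q, ps (θ + (((j * q + r : ℕ) : ℝ) + 1) * x) +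
          ∑ r ∈ Finset.range R, ps ((θ + (L : ℝ) * q * x) + ((r : ℝ) + 1) * x) := by
        conv_lhs => rw [← hdm]
        rw [Finset.sum_range_add, Pool.Agent.Q65.FA.sum_blocks (fun r : ℕ => ps (θ + ((r : ℝ) + 1) * x))]
        congr 1
        refine Finset.sum_congr rfl fun r _ => ?_
        congr 1
        push_cast
        ring
      rw [hsplit]
      have hb : ∀ j ∈ Finset.range L, |∑ r ∈ Finset.range q, ps (θ + (((j * q + r : ℕ) : ℝ) + 1) * x)| ≤ 4 := by
        intro j _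
        have := Pool.Agent.Q65.FA.block q hq1 a hco (θ + (j : ℝ) * q * x) (x - (a : ℝ) / q) hβ
        refine le_trans (le_of_eq ?_) this
        congr 1
        refine Finset.sum_congr rfl fun r _ => ?_
        congr 1
        push_cast
        field_simp
        ring
      have h1 : |∑ j ∈ Finset.range L, ∑ r ∈ Finset.range q, ps (θ + (((j * q + r : ℕ) : ℝ) + 1) * x)| ≤ 4 * (N : ℝ) ^ δ := by
        refine (Finset.abs_sum_le_sum_abs _ _).trans ((Finset.sum_le_sum hb).trans ?_)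
        simp only [Finset.sum_const, Finset.card_range, nsmul_eq_mul]
        have h2 : (L : ℝ) * q ≤ N := by exact_mod_cast Nat.div_mul_le_self N q
        have h3 : (N : ℝ) = (N : ℝ) ^ δ * (N : ℝ) ^ (1 - δ) := by
          rw [← Real.rpow_add hNr0]
          norm_num
        have h4 : (L : ℝ) ≤ (N : ℝ) ^ δ := by
          have h5 : 0 < (N : ℝ) ^ (1 - δ) := by positivity
          have h6 : (L : ℝ) * (N : ℝ) ^ (1 - δ) ≤ (N : ℝ) ^ δ * (N : ℝ) ^ (1 - δ) := by
            rw [← h3]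
            refine le_trans ?_ h2
            exact mul_le_mul_of_nonneg_left hqδ (Nat.cast_nonneg _)
          exact le_of_mul_le_mul_right h6 h5
        linarith
      have h2 := ih R hRN (θ + (L : ℝ) * q * x)
      have h3 : (R : ℝ) ^ δ ≤ (2 : ℝ)⁻¹ ^ δ * (N : ℝ) ^ δ := by
        rw [← Real.mul_rpow (by norm_num) (by positivity)]
        apply Real.rpow_le_rpow (Nat.cast_nonneg _) _ hδ.le
        have : (2 : ℝ) * R ≤ N := by exact_mod_cast hR2
        linarith
      have h4 : 0 ≤ (N : ℝ) ^ δ := by positivity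
      calc _ ≤ _ := abs_add_le _ _
        _ ≤ 4 * (N : ℝ) ^ δ + A * ((2 : ℝ)⁻¹ ^ δ * (N : ℝ) ^ δ) :=
            add_le_add h1 (h2.trans (mul_le_mul_of_nonneg_left h3 hA0))
        _ ≤ A * (N : ℝ) ^ δ := by nlinarith

/-- the truncated sum -/
def kM' (x : ℝ) (N : ℕ) (u : ℝ) : ℝ := S (min ⌊Real.exp u⌋₊ N) x

lemma kM'_meas (x : ℝ) (N : ℕ) : Measurable (kM' x N) := by
  unfold kM'
  have h1 : Measurable (fun t : ℝ => S (min ⌊t⌋₊ N) x) := meas_floor (fun n => S (min n N) x)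
  exact h1.comp Real.measurable_exp

lemma S_diff {x δ A : ℝ} (hA : ∀ (N : ℕ) (θ : ℝ), |∑ r ∈ Finset.range N, ps (θ + ((r : ℝ) + 1) * x)| ≤ A * (N : ℝ) ^ δ)
    {a b : ℕ} (hab : a ≤ b) : |S b x - S a x| ≤ A * ((b - a : ℕ) : ℝ) ^ δ := by
  obtain ⟨L, rfl⟩ := Nat.exists_eq_add_of_le hab
  rw [Nat.add_sub_cancel_left]
  have h := hA L (a * x)
  have e : S (a + L) x - S a x = ∑ r ∈ Finset.range L, ps (a * x + ((r : ℝ) + 1) * x) := by
    rw [Pool.Agent.Q65.FA.S_eq, Pool.Agent.Q65.FA.S_eq, Finset.sum_range_add, add_sub_cancel_left]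
    refine Finset.sum_congr rfl fun r _ => ?_
    congr 1
    push_cast
    ring
  rw [e]
  exact h

lemma win_count {h : ℝ} (_hh : 0 < h) (N : ℕ) (u : ℝ) :
    ((min ⌊Real.exp (u + h)⌋₊ N - min ⌊Real.exp u⌋₊ N : ℕ) : ℝ) ≤ ∑ n ∈ Finset.Icc 1 N, win h n u := by
  set a := min ⌊Real.exp u⌋₊ N with ha
  set b := min ⌊Real.exp (u + h)⌋₊ N with hb
  have hsub : Finset.Ioc a b ⊆ Finset.Icc 1 N := by
    intro n hn
    rw [Finset.mem_Ioc] at hn
    rw [Finset.mem_Icc]
    exact ⟨by omega, hn.2.trans (min_le_right _ _)⟩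
  have e : ((b - a : ℕ) : ℝ) = ∑ n ∈ Finset.Ioc a b, (1:ℝ) := by
    rw [Finset.sum_const, Nat.card_Ioc, nsmul_eq_mul, mul_one]
  rw [e]
  calc ∑ n ∈ Finset.Ioc a b, (1:ℝ) ≤ ∑ n ∈ Finset.Ioc a b, win h n u := by
        refine Finset.sum_le_sum fun n hn => ?_
        rw [Finset.mem_Ioc] at hn
        have hnN : n ≤ N := hn.2.trans (min_le_right _ _)
        have h4 : ⌊Real.exp u⌋₊ < n := by
          have := hn.1
          rw [ha, min_lt_iff] at this
          omega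
        have h5 : n ≤ ⌊Real.exp (u + h)⌋₊ := hn.2.trans (min_le_left _ _)
        have h6 : Real.exp u < n := (Nat.floor_lt (Real.exp_pos _).le).1 h4
        have h7 : (n : ℝ) ≤ Real.exp (u + h) := (Nat.le_floor_iff (Real.exp_pos _).le).1 h5
        unfold win
        rw [if_pos ⟨h6, h7⟩]
    _ ≤ ∑ n ∈ Finset.Icc 1 N, win h n u := Finset.sum_le_sum_of_subset_of_nonneg hsub (fun n _ _ => win_nonneg h n u)

/-- `L^(2δ) ≤ 3 L e^(ω u)`, `ω = max(0, 2δ-1)` -/
lemma count_pow {δ h u : ℝ} (hδ : 0 < δ) (hδ1 : δ < 1) (_hh : 0 < h) (hh1 : h ≤ 1) (N : ℕ) :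
    ((min ⌊Real.exp (u + h)⌋₊ N - min ⌊Real.exp u⌋₊ N : ℕ) : ℝ) ^ (2 * δ) ≤
      3 * ((min ⌊Real.exp (u + h)⌋₊ N - min ⌊Real.exp u⌋₊ N : ℕ) : ℝ) * Real.exp (max 0 (2 * δ - 1) * u) := by
  set L := min ⌊Real.exp (u + h)⌋₊ N - min ⌊Real.exp u⌋₊ N with hL
  rcases Nat.eq_zero_or_pos L with h0 | hpos
  · rw [h0]
    simp only [CharP.cast_eq_zero]
    rw [Real.zero_rpow (by positivity)]
    simp
  have hL1 : (1:ℝ) ≤ L := by exact_mod_cast hpos
  have hL0 : (0:ℝ) < L := by linarith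
  have hLle : (L : ℝ) ≤ Real.exp (u + h) := by
    have h1 : L ≤ ⌊Real.exp (u + h)⌋₊ := by omega
    exact (Nat.le_floor_iff (Real.exp_pos _).le).1 h1
  rcases le_or_gt (2 * δ) 1 with h1 | h1
  · rw [max_eq_left (by linarith), zero_mul, Real.exp_zero, mul_one]
    calc (L : ℝ) ^ (2 * δ) ≤ (L : ℝ) ^ (1:ℝ) := Real.rpow_le_rpow_of_exponent_le hL1 h1
      _ = L := Real.rpow_one _
      _ ≤ 3 * L := by linarith
  · rw [max_eq_right (by linarith)]
    have e : (L : ℝ) ^ (2 * δ) = L * (L : ℝ) ^ (2 * δ - 1) := by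
      rw [Real.rpow_sub_one hL0.ne']
      field_simp
    have h2 : (L : ℝ) ^ (2 * δ - 1) ≤ 3 * Real.exp ((2 * δ - 1) * u) := by
      calc (L : ℝ) ^ (2 * δ - 1) ≤ (Real.exp (u + h)) ^ (2 * δ - 1) := Real.rpow_le_rpow hL0.le hLle (by linarith)
        _ = Real.exp ((u + h) * (2 * δ - 1)) := (Real.exp_mul _ _).symm
        _ = Real.exp (h * (2 * δ - 1)) * Real.exp ((2 * δ - 1) * u) := by
            rw [← Real.exp_add]; congr 1; ring
        _ ≤ 3 * Real.exp ((2 * δ - 1) * u) := by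
            apply mul_le_mul_of_nonneg_right _ (Real.exp_pos _).le
            have h3 : Real.exp (h * (2 * δ - 1)) ≤ Real.exp 1 := Real.exp_le_exp.2 (by nlinarith)
            have := Real.exp_one_lt_d9
            linarith
    rw [e]
    calc (L : ℝ) * (L : ℝ) ^ (2 * δ - 1) ≤ L * (3 * Real.exp ((2 * δ - 1) * u)) := mul_le_mul_of_nonneg_left h2 hL0.le
      _ = _ := by ring

/-- **The upper bound.** -/
theorem E_upper_gen {x : ℝ} (h0 : 0 < x) (h1 : x < 1) {δ : ℝ} (hδ : 0 < δ) (hδ1 : δ < 1) (hx : Grow δ x)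
    {θ : ℝ} (hθ : 1 / 2 ≤ θ) (hθ1 : θ ≤ 1)
    (hz : ∀ s : ℂ, θ < s.re → Zs s ≠ 0) {ε : ℝ} (hε : 0 < ε) :
    ∃ C : ℝ, 0 < C ∧ ∀ N : ℕ, 1 ≤ N → |E N x| ≤ C * (N : ℝ) ^ (max θ δ + ε) := by
  obtain ⟨A, hA0, hA⟩ := hx
  -- parameters
  set e : ℝ := min (ε / 4) (1 / 4) with he
  have he0 : 0 < e := lt_min (by positivity) (by norm_num)
  have he1 : e ≤ 1 / 4 := min_le_right _ _
  have he2 : 4 * e ≤ ε := by
    have := min_le_left (ε / 4) (1 / 4 : ℝ)
    rw [← he] at this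
    linarith
  set τ : ℝ := max θ δ with hτ
  have hτθ : θ ≤ τ := le_max_left _ _
  have hτδ : δ ≤ τ := le_max_right _ _
  have hτ1 : τ ≤ 1 := max_le hθ1 hδ1.le
  set σ : ℝ := τ + e with hσ
  have hσ2 : σ ≤ 2 := by linarith
  have hσ0 : 0 < σ := by linarith
  set ω : ℝ := max 0 (2 * δ - 1) with hω
  set σ' : ℝ := σ - ω / 2 with hσ'
  have hω0 : 0 ≤ ω := le_max_left _ _
  have hσh : 1 / 2 < σ' := by
    rcases le_total (2 * δ - 1) 0 with h | h
    · have : ω = 0 := max_eq_left h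
      rw [hσ', this]
      linarith
    · have : ω = 2 * δ - 1 := max_eq_right h
      rw [hσ', this]
      linarith
  have hσ2' : σ' ≤ 2 := by linarith
  set Z : ℝ := ∑' n : ℕ, (n : ℝ) ^ (-(2 * σ')) with hZ
  have hZ0 : 0 ≤ Z := tsum_nonneg fun n => by positivity
  have hZsum : Summable (fun n : ℕ => (n : ℝ) ^ (-(2 * σ'))) := Real.summable_nat_rpow.2 (by linarith)
  have hσδ : 0 < σ - δ := by linarith
  set B : ℝ := A ^ 2 / (2 * (σ - δ)) + 3 * A ^ 2 * (Real.exp 4 * Z) + 1 with hB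
  have hB0 : 0 < B := by positivity
  obtain ⟨K, hK0, hK⟩ := PP (θ := θ) (σ := σ) (ε := e) (B := B) (by linarith) hz (by linarith) hσ2 he0 he1 hB0
  refine ⟨K * 4 ^ (3 * e) + 1, by positivity, fun N hN => ?_⟩
  have hN0 : (0:ℝ) < N := by exact_mod_cast hN
  have hN1 : (1:ℝ) ≤ N := by exact_mod_cast hN
  set k : ℝ → ℂ := fun u => ((kM' x N u : ℝ) : ℂ) with hk
  have hSb : ∀ n : ℕ, |S n x| ≤ A * (n : ℝ) ^ δ := by
    intro n
    have := S_diff hA (Nat.zero_le n)
    rw [S_zero, sub_zero, Nat.sub_zero] at this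
    exact this
  have hneg : ∀ u : ℝ, u < 0 → kM' x N u = 0 := by
    intro u hu
    have h2 : ⌊Real.exp u⌋₊ = 0 := by
      rw [Nat.floor_eq_zero, Real.exp_lt_one_iff]
      exact hu
    unfold kM'
    rw [h2, Nat.zero_min, S_zero]
  have hnice : Nice k (A * (N : ℝ) ^ δ) 0 0 := by
    refine ⟨Complex.measurable_ofReal.comp (kM'_meas x N), fun u => ?_, fun u hu => ?_⟩
    · simp only [hk]
      rw [Complex.norm_real, Real.norm_eq_abs, zero_mul, Real.exp_zero, mul_one]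
      unfold kM'
      refine (hSb _).trans (mul_le_mul_of_nonneg_left ?_ hA0)
      refine Real.rpow_le_rpow (Nat.cast_nonneg _) ?_ hδ.le
      exact_mod_cast min_le_right _ _
    · simp only [hk]
      rw [hneg u hu, Complex.ofReal_zero]
  -- mean square
  have hms : ∫ u, ‖k u‖ ^ 2 * Real.exp (-(2 * σ * u)) ≤ B := by
    have hb : -(2 * (σ - δ)) < 0 := by linarith
    have i1 := integral_ind_exp hb (A ^ 2) 0
    have h2 : ∫ u : ℝ, ‖k u‖ ^ 2 * Real.exp (-(2 * σ * u)) ≤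
        ∫ u, (Ici (0:ℝ)).indicator (fun u => A ^ 2 * Real.exp (-(2 * (σ - δ)) * u)) u := by
      apply integral_mono_of_nonneg (Eventually.of_forall fun u => by positivity)
        (integrable_ind_exp hb (A ^ 2) 0)
      refine Eventually.of_forall fun u => ?_
      simp only [hk]
      rw [Complex.norm_real, Real.norm_eq_abs]
      by_cases hu : u ∈ Ici (0:ℝ)
      · rw [indicator_of_mem hu]
        have h3 : |kM' x N u| ≤ A * Real.exp (δ * u) := by
          unfold kM'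
          refine (hSb _).trans (mul_le_mul_of_nonneg_left ?_ hA0)
          have h4 : ((min ⌊Real.exp u⌋₊ N : ℕ) : ℝ) ≤ Real.exp u := by
            have h5 : ((min ⌊Real.exp u⌋₊ N : ℕ) : ℝ) ≤ (⌊Real.exp u⌋₊ : ℝ) := by exact_mod_cast min_le_left _ _
            exact h5.trans (Nat.floor_le (Real.exp_pos _).le)
          calc ((min ⌊Real.exp u⌋₊ N : ℕ) : ℝ) ^ δ ≤ (Real.exp u) ^ δ := Real.rpow_le_rpow (Nat.cast_nonneg _) h4 hδ.le
            _ = Real.exp (δ * u) := by rw [← Real.exp_mul]; ring_nf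
        have h4 : |kM' x N u| ^ 2 ≤ (A * Real.exp (δ * u)) ^ 2 := pow_le_pow_left₀ (abs_nonneg _) h3 2
        calc |kM' x N u| ^ 2 * Real.exp (-(2 * σ * u)) ≤ (A * Real.exp (δ * u)) ^ 2 * Real.exp (-(2 * σ * u)) :=
              mul_le_mul_of_nonneg_right h4 (Real.exp_pos _).le
          _ = A ^ 2 * (Real.exp (δ * u) * Real.exp (δ * u) * Real.exp (-(2 * σ * u))) := by ring
          _ = A ^ 2 * Real.exp (-(2 * (σ - δ)) * u) := by
              rw [← Real.exp_add, ← Real.exp_add]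
              congr 2
              ring
      · rw [indicator_of_notMem hu, hneg u (by simpa using hu)]
        simp
    refine h2.trans ?_
    rw [i1]
    have e1 : A ^ 2 * (-Real.exp (-(2 * (σ - δ)) * 0) / -(2 * (σ - δ))) = A ^ 2 / (2 * (σ - δ)) := by
      rw [mul_zero, Real.exp_zero, neg_div_neg_eq]
      ring
    rw [e1, hB]
    have : 0 ≤ 3 * A ^ 2 * (Real.exp 4 * Z) := by positivity
    linarith
  -- translations
  have htr : ∀ r : ℝ, 0 < r → r ≤ 1 → ∫ u, ‖k (u + r) - k u‖ ^ 2 * Real.exp (-(2 * σ * u)) ≤ B * r := by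
    intro r hr hr1
    have hint : ∀ n ∈ Finset.Icc 1 N, Integrable (fun u => 3 * A ^ 2 * (win r n u * Real.exp (-(2 * σ' * u)))) := by
      intro n hn
      exact (win_int (by linarith) hσ2' hr hr1 (Finset.mem_Icc.1 hn).1).1.const_mul _
    have hI : Integrable (fun u => ∑ n ∈ Finset.Icc 1 N, 3 * A ^ 2 * (win r n u * Real.exp (-(2 * σ' * u)))) :=
      integrable_finsetSum _ hint
    have hpt : ∀ u, ‖k (u + r) - k u‖ ^ 2 * Real.exp (-(2 * σ * u)) ≤
        ∑ n ∈ Finset.Icc 1 N, 3 * A ^ 2 * (win r n u * Real.exp (-(2 * σ' * u))) := by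
      intro u
      simp only [hk]
      rw [← Complex.ofReal_sub, Complex.norm_real, Real.norm_eq_abs, ← Finset.mul_sum, ← Finset.sum_mul]
      have hab : min ⌊Real.exp u⌋₊ N ≤ min ⌊Real.exp (u + r)⌋₊ N :=
        min_le_min_right _ (Nat.floor_le_floor (Real.exp_le_exp.2 (by linarith)))
      have h2 := S_diff hA hab
      have h3 := count_pow (u := u) hδ hδ1 hr hr1 N
      have h4 := win_count hr N u
      set L := min ⌊Real.exp (u + r)⌋₊ N - min ⌊Real.exp u⌋₊ N with hL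
      have h5 : |kM' x N (u + r) - kM' x N u| ^ 2 ≤ A ^ 2 * (L : ℝ) ^ (2 * δ) := by
        have h6 : |kM' x N (u + r) - kM' x N u| ≤ A * (L : ℝ) ^ δ := h2
        have h7 := pow_le_pow_left₀ (abs_nonneg _) h6 2
        have e7 : ((L : ℝ) ^ δ) ^ 2 = (L : ℝ) ^ (2 * δ) := by
          rw [← Real.rpow_natCast ((L : ℝ) ^ δ) 2, ← Real.rpow_mul (Nat.cast_nonneg _)]
          congr 1
          push_cast
          ring
        rw [mul_pow, e7] at h7
        exact h7
      have h8 : Real.exp (ω * u) * Real.exp (-(2 * σ * u)) = Real.exp (-(2 * σ' * u)) := by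
        rw [← Real.exp_add]
        congr 1
        rw [hσ']
        ring
      calc |kM' x N (u + r) - kM' x N u| ^ 2 * Real.exp (-(2 * σ * u))
          ≤ (A ^ 2 * (3 * L * Real.exp (ω * u))) * Real.exp (-(2 * σ * u)) := by
            apply mul_le_mul_of_nonneg_right _ (Real.exp_pos _).le
            exact h5.trans (mul_le_mul_of_nonneg_left h3 (by positivity))
        _ = 3 * A ^ 2 * L * (Real.exp (ω * u) * Real.exp (-(2 * σ * u))) := by ring
        _ = 3 * A ^ 2 * (L * Real.exp (-(2 * σ' * u))) := by rw [h8]; ring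
        _ ≤ 3 * A ^ 2 * ((∑ n ∈ Finset.Icc 1 N, win r n u) * Real.exp (-(2 * σ' * u))) := by
            apply mul_le_mul_of_nonneg_left _ (by positivity)
            exact mul_le_mul_of_nonneg_right h4 (Real.exp_pos _).le
    calc ∫ u, ‖k (u + r) - k u‖ ^ 2 * Real.exp (-(2 * σ * u)) ≤
        ∫ u, ∑ n ∈ Finset.Icc 1 N, 3 * A ^ 2 * (win r n u * Real.exp (-(2 * σ' * u))) :=
          integral_mono_of_nonneg (Eventually.of_forall fun u => by positivity) hI (Eventually.of_forall hpt)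
      _ = ∑ n ∈ Finset.Icc 1 N, ∫ u, 3 * A ^ 2 * (win r n u * Real.exp (-(2 * σ' * u))) := integral_finsetSum _ hint
      _ ≤ ∑ n ∈ Finset.Icc 1 N, 3 * A ^ 2 * (r * (Real.exp 4 * (n : ℝ) ^ (-(2 * σ')))) := by
          refine Finset.sum_le_sum fun n hn => ?_
          rw [integral_const_mul]
          exact mul_le_mul_of_nonneg_left (win_int (by linarith) hσ2' hr hr1 (Finset.mem_Icc.1 hn).1).2 (by positivity)
      _ = 3 * A ^ 2 * r * Real.exp 4 * ∑ n ∈ Finset.Icc 1 N, (n : ℝ) ^ (-(2 * σ')) := by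
          rw [Finset.mul_sum]
          refine Finset.sum_congr rfl fun n _ => ?_
          ring
      _ ≤ 3 * A ^ 2 * r * Real.exp 4 * Z := by
          apply mul_le_mul_of_nonneg_left _ (by positivity)
          exact hZsum.sum_le_tsum _ (fun n _ => by positivity)
      _ = (3 * A ^ 2 * (Real.exp 4 * Z)) * r := by ring
      _ ≤ B * r := by
          apply mul_le_mul_of_nonneg_right _ hr.le
          rw [hB]
          have : 0 ≤ A ^ 2 / (2 * (σ - δ)) := by positivity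
          linarith
  have hη0 : (0:ℝ) < 1 / (4 * N) := by positivity
  have hmain := hK k _ _ hnice hms htr (1 / (4 * N)) (Real.log N) hη0 (by
      rw [div_le_one (by positivity)]
      linarith)
  -- values of the averages
  have h2η : 2 * (1 / (4 * (N:ℝ))) = 1 / (2 * N) := by field_simp; norm_num
  have hval : ∀ m : ℕ, 0 < m → avg (1 / (4 * N)) (avg (1 / (4 * N)) k) (Real.log N - Real.log m) =
      ((S (N / m) x : ℝ) : ℂ) := by
    intro m hm
    have hm' : (0:ℝ) < m := by exact_mod_cast hm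
    have := avg_avg_sub_le hnice (u := Real.log N - Real.log m) (ε := 0) (c := ((S (N / m) x : ℝ) : ℂ)) hη0 (by
      intro w hw0 hw
      rw [h2η] at hw
      have h3 := (floor_exp hN hm hw0 hw).1
      simp only [hk]
      unfold kM'
      rw [Real.exp_add, Real.exp_sub, Real.exp_log hN0, Real.exp_log hm', h3, min_eq_left (Nat.div_le_self _ _), sub_self,
        norm_zero])
    exact sub_eq_zero.1 (norm_le_zero_iff.1 this)
  have htsum : (∑' m : ℕ, ((ArithmeticFunction.moebius m : ℤ) : ℂ) * avg (1 / (4 * N)) (avg (1 / (4 * N)) k) (Real.log N - Real.log m)) =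
      ((TT x N : ℝ) : ℂ) := by
    have e1 : (∑' m : ℕ, ((ArithmeticFunction.moebius m : ℤ) : ℂ) * avg (1 / (4 * N)) (avg (1 / (4 * N)) k) (Real.log N - Real.log m)) =
        ∑ m ∈ Finset.Icc 1 N, ((ArithmeticFunction.moebius m : ℤ) : ℂ) * ((S (N / m) x : ℝ) : ℂ) := by
      rw [tsum_eq_sum (s := Finset.Icc 1 N)]
      · refine Finset.sum_congr rfl fun m hm => ?_
        rw [hval m (Finset.mem_Icc.1 hm).1]
      · intro m hm
        rw [Finset.mem_Icc, not_and_or] at hm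
        rcases Nat.eq_zero_or_pos m with rfl | hm0
        · simp
        · rw [hval m hm0, Nat.div_eq_of_lt (by omega), S_zero]
          simp
    rw [e1]
    have e2 : TT x N = ∑ m ∈ Finset.Icc 1 N, mu m * S (N / m) x := by
      unfold TT S
      rw [Nat.floor_natCast]
      rw [Pool.Agent.H295R2.sum_swap_div N mu (fun d => ps ((d : ℝ) * x))]
      rfl
    rw [e2]
    push_cast
    refine Finset.sum_congr rfl fun m _ => ?_
    have : ((ArithmeticFunction.moebius m : ℤ) : ℂ) = ((mu m : ℝ) : ℂ) := by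
      unfold mu; push_cast; rfl
    rw [this]
  rw [htsum, Complex.norm_real, Real.norm_eq_abs] at hmain
  have h5 : Real.exp (σ * Real.log N) = (N : ℝ) ^ σ := by
    rw [Real.rpow_def_of_pos hN0, mul_comm]
  have h6 : (1 / (4 * (N:ℝ))) ^ (-(3 * e)) = 4 ^ (3 * e) * (N : ℝ) ^ (3 * e) := by
    rw [one_div, Real.inv_rpow (by positivity), ← Real.rpow_neg (by positivity), neg_neg, Real.mul_rpow (by norm_num) hN0.le]
  rw [h5, h6] at hmain
  have h7 : |TT x N| ≤ K * 4 ^ (3 * e) * (N : ℝ) ^ (τ + ε) := by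
    calc |TT x N| ≤ K * (N : ℝ) ^ σ * (4 ^ (3 * e) * (N : ℝ) ^ (3 * e)) := hmain
      _ = K * 4 ^ (3 * e) * ((N : ℝ) ^ σ * (N : ℝ) ^ (3 * e)) := by ring
      _ = K * 4 ^ (3 * e) * (N : ℝ) ^ (σ + 3 * e) := by
          rw [← Real.rpow_add hN0]
      _ ≤ K * 4 ^ (3 * e) * (N : ℝ) ^ (τ + ε) := by
          apply mul_le_mul_of_nonneg_left _ (by positivity)
          apply Real.rpow_le_rpow_of_exponent_le hN1
          linarith
  have h9 := TT_eq h0.le h1.le hN1
  rw [Nat.floor_natCast] at h9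
  have h10 : (1:ℝ) ≤ (N : ℝ) ^ (τ + ε) := Real.one_le_rpow hN1 (by linarith)
  have h11 : |E N x| ≤ |TT x N| + 1 / 2 := by
    have e1 : E N x = -(TT x N) - 1 / 2 := by rw [h9]; ring
    rw [e1]
    have := abs_sub (-(TT x N)) (1 / 2 : ℝ)
    rw [abs_neg, abs_of_pos (by norm_num : (0:ℝ) < 1 / 2)] at this
    exact this
  nlinarith

/-- the upper bound in terms of the irrationality exponent -/
theorem E_upper_kappa {x : ℝ} (h0 : 0 < x) (h1 : x < 1) (hx : Irrational x) {κ : ℝ} (hκ : 2 ≤ κ)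
    (hL : ∀ p : ℝ, κ < p → ¬ LiouvilleWith p x) {θ : ℝ} (hθ : 1 / 2 ≤ θ) (hθ1 : θ ≤ 1)
    (hz : ∀ s : ℂ, θ < s.re → Zs s ≠ 0) {ε : ℝ} (hε : 0 < ε) :
    ∃ C : ℝ, 0 < C ∧ ∀ N : ℕ, 1 ≤ N → |E N x| ≤ C * (N : ℝ) ^ (max θ (1 - 1 / (κ - 1)) + ε) := by
  have hκ1 : 0 < κ - 1 := by linarith
  have hinv : 0 < 1 / (κ - 1) := by positivity
  have hinv1 : 1 / (κ - 1) ≤ 1 := by rw [div_le_one hκ1]; linarith
  set d0 : ℝ := 1 - 1 / (κ - 1) with hd0
  set e : ℝ := min (ε / 2) (1 / (κ - 1) / 2) with he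
  have he0 : 0 < e := lt_min (by positivity) (by positivity)
  have he1 : e ≤ ε / 2 := min_le_left _ _
  have he2 : e ≤ 1 / (κ - 1) / 2 := min_le_right _ _
  have hd1 : d0 + e < 1 := by rw [hd0]; linarith
  have hd2 : 0 < d0 + e := by rw [hd0]; linarith
  have hG : Grow (d0 + e) x := by
    refine grow_of_not_liouville hx hd2 hd1 (hL _ ?_)
    have h3 : 0 < 1 - (d0 + e) := by linarith
    have h4 : 1 - (d0 + e) < 1 / (κ - 1) := by rw [hd0]; linarith
    have h5 : κ - 1 < 1 / (1 - (d0 + e)) := by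
      rw [lt_div_iff₀ h3]
      rw [lt_div_iff₀ hκ1] at h4
      linarith
    linarith
  obtain ⟨C, hC0, hC⟩ := E_upper_gen h0 h1 hd2 hd1 hG hθ hθ1 hz (ε := ε / 2) (by positivity)
  refine ⟨C, hC0, fun N hN => (hC N hN).trans ?_⟩
  have hN1 : (1:ℝ) ≤ N := by exact_mod_cast hN
  apply mul_le_mul_of_nonneg_left _ hC0.le
  apply Real.rpow_le_rpow_of_exponent_le hN1
  have : max θ (d0 + e) ≤ max θ d0 + e := by
    apply max_le
    · have := le_max_left θ d0; linarith
    · have := le_max_right θ d0; linarith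
  linarith

end

end Pool.Agent.H313.FD
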